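import Pool.Agent.Q286.TR.Lind

/-! From few zeros in the triangles to the Lindelof hypothesis in a half-plane. -/

set_option autoImplicit false
set_option linter.unusedVariables false

namespace Pool.Agent.Q286.TR

open Complex Metric Filter Topology Set MeasureTheory
open Pool.Agent.Q286.ZR

theorem zeta_bdd (a b T : ℝ) : ∃ B : ℝ, 0 ≤ B ∧ ∀ s : ℂ, a ≤ s.re → s.re ≤ b → 1 ≤ s.im → s.im ≤ T →
    ‖riemannZeta s‖ ≤ B := by
  have hK : IsCompact (Icc a b ×ℂ Icc 1 T) := isCompact_Icc.reProdIm isCompact_Icc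
  have hc : ContinuousOn riemannZeta (Icc a b ×ℂ Icc 1 T) := by
    intro s hs
    rw [Complex.mem_reProdIm] at hs
    refine (differentiableAt_riemannZeta ?_).continuousAt.continuousWithinAt
    rintro rfl
    have := hs.2.1
    simp at this
    linarith
  obtain ⟨B, hB⟩ := hK.exists_bound_of_continuousOn hc
  refine ⟨|B|, abs_nonneg _, fun s h1 h2 h3 h4 => (hB s ?_).trans (le_abs_self _)⟩
  rw [Complex.mem_reProdIm]
  exact ⟨⟨h1, h2⟩, h3, h4⟩

theorem small_of_up {β : ℝ} (h : ∀ σ₀ : ℝ, β < σ₀ → ∀ ε : ℝ, 0 < ε → ∃ C : ℝ, ∀ s : ℂ, σ₀ ≤ s.re →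
    1 ≤ s.im → ‖riemannZeta s‖ ≤ C * s.im ^ ε) : Small β := by
  intro σ₀ hσ ε hε
  obtain ⟨C, hC⟩ := h σ₀ hσ ε hε
  refine ⟨C, fun s hs hi => ?_⟩
  rcases le_total 0 s.im with h0 | h0
  · rw [abs_of_nonneg h0] at hi ⊢
    exact hC s hs hi
  · rw [abs_of_nonpos h0] at hi ⊢
    have h1 := hC ((starRingEnd ℂ) s) (by simpa using hs) (by simpa using hi)
    rw [riemannZeta_conj, Complex.norm_conj] at h1
    simpa using h1

/-- **zeta is small if there are few zeros** -/
theorem small_of_few {β τ : ℝ} (hβ : 1 / 2 ≤ β) (hβ1 : β < 1) (hτ : 0 < τ)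
    (h : ∀ m : ℕ, 0 < m → β + 1 / m < 1 → ∀ ε : ℝ, 0 < ε → ∃ K : ℕ, ∀ k : ℕ, K ≤ k →
      zs τ (((β + 1 / m : ℝ) : ℂ) + ((k * (τ / m) : ℝ) : ℂ) * I) ≤ ε * Real.log k) : Small β := by
  refine small_of_up fun σ₀ hσ₀ ε hε => ?_
  obtain ⟨σ₁, hσ₁⟩ : ∃ σ₁ : ℝ, σ₁ = min σ₀ ((β + 1) / 2) := ⟨_, rfl⟩
  have hσ₁a : β < σ₁ := by rw [hσ₁]; exact lt_min hσ₀ (by linarith)
  have hσ₁b : σ₁ < 1 := by
    have := min_le_right σ₀ ((β + 1) / 2)
    rw [hσ₁]
    linarith
  have hσ₁c : σ₁ ≤ σ₀ := by rw [hσ₁]; exact min_le_left _ _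
  obtain ⟨d, hd⟩ : ∃ d : ℝ, d = σ₁ - β := ⟨_, rfl⟩
  have hd0 : 0 < d := by linarith
  obtain ⟨δ, hδ⟩ : ∃ δ : ℝ, δ = min (1 / 12) (d / 4) := ⟨_, rfl⟩
  have hδ0 : 0 < δ := by rw [hδ]; exact lt_min (by norm_num) (by linarith)
  have hδ1 : δ ≤ 1 / 12 := by rw [hδ]; exact min_le_left _ _
  have hδ2 : δ ≤ d / 4 := by rw [hδ]; exact min_le_right _ _
  obtain ⟨η, hη, T0, hback⟩ := DH31.backlund_zeta hδ0 hδ1 hε
  obtain ⟨m, hm⟩ := exists_nat_gt (4 / d)
  have hm0 : (0 : ℝ) < m := lt_trans (by positivity) hm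
  have hm0' : 0 < m := by exact_mod_cast hm0
  have hm1 : 1 / (m : ℝ) ≤ d / 4 := by
    rw [div_le_iff₀ hm0]
    rw [div_lt_iff₀ hd0] at hm
    linarith
  have hm2 : 0 < 1 / (m : ℝ) := by positivity
  obtain ⟨g, hg⟩ : ∃ g : ℝ, g = τ / m := ⟨_, rfl⟩
  have hg0 : 0 < g := by rw [hg]; positivity
  obtain ⟨K₀, hK₀⟩ : ∃ K₀ : ℝ, K₀ = 2 / g + 3 := ⟨_, rfl⟩
  have hK₀0 : 0 < K₀ := by rw [hK₀]; positivity
  obtain ⟨K, hK⟩ := h m hm0' (by linarith) (η / (2 * K₀)) (by positivity)
  rw [← hg] at hK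
  -- large heights
  obtain ⟨A, hA1, hA⟩ := DH31.zeta_bounds (a := 1 + δ) (by linarith)
  obtain ⟨T₁, hT₁⟩ : ∃ T₁ : ℝ, T₁ = max (max T0 3) (max (g * (K + 2) + 1) (2 / g + 2)) := ⟨_, rfl⟩
  obtain ⟨B, hB0, hB⟩ := zeta_bdd σ₁ (1 + δ) T₁
  have key : ∀ t : ℝ, T₁ ≤ t → ∀ z ∈ closedBall (⟨1 + δ, t⟩ : ℂ) (1 + δ - σ₁ + δ),
      ‖riemannZeta z‖ ≤ t ^ ε := by
    intro t ht
    have t1 : T0 ≤ t := by
      refine le_trans ?_ ht
      rw [hT₁]
      exact (le_max_left _ _).trans (le_max_left _ _)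
    have t2 : 3 ≤ t := by
      refine le_trans ?_ ht
      rw [hT₁]
      exact (le_max_right _ _).trans (le_max_left _ _)
    have t3 : g * (K + 2) + 1 ≤ t := by
      refine le_trans ?_ ht
      rw [hT₁]
      exact (le_max_left _ _).trans (le_max_right _ _)
    have t4 : 2 / g + 2 ≤ t := by
      refine le_trans ?_ ht
      rw [hT₁]
      exact (le_max_right _ _).trans (le_max_right _ _)
    have hlt : 0 < Real.log t := Real.log_pos (by linarith)
    refine hback t t1 t t2 le_rfl σ₁ (by linarith) hσ₁b.le fun S hS => ?_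
    -- the window of the apices
    obtain ⟨W, hW⟩ : ∃ W : Finset ℕ, W = Finset.Icc ⌊(t - 1) / g⌋₊ ⌊(t + 1) / g + 1⌋₊ := ⟨_, rfl⟩
    have hx1 : 0 ≤ (t - 1) / g := div_nonneg (by linarith) hg0.le
    have hx2 : 0 ≤ (t + 1) / g + 1 := by positivity
    have hWK : ∀ k ∈ W, K ≤ k ∧ 1 ≤ k ∧ (k : ℝ) ≤ (t + 1) / g + 1 := by
      intro k hk
      rw [hW, Finset.mem_Icc] at hk
      have h1 : (K : ℝ) + 2 ≤ (t - 1) / g := by
        rw [le_div_iff₀ hg0]
        linarith
      have h2 : K + 2 ≤ ⌊(t - 1) / g⌋₊ := by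
        rw [Nat.le_floor_iff hx1]
        push_cast
        exact h1
      refine ⟨by omega, by omega, ?_⟩
      exact (Nat.le_floor_iff hx2).1 hk.2
    have hWc : (W.card : ℝ) ≤ K₀ := by
      have h1 : ⌊(t - 1) / g⌋₊ ≤ ⌊(t + 1) / g + 1⌋₊ := by
        refine Nat.floor_le_floor ?_
        have : (t - 1) / g ≤ (t + 1) / g := by
          rw [div_le_div_iff_of_pos_right hg0]
          linarith
        linarith
      rw [hW, Nat.card_Icc, Nat.cast_sub (by omega)]
      push_cast
      have h2 := Nat.floor_le hx2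
      have h3 := Nat.lt_floor_add_one ((t - 1) / g)
      have h4 : (t + 1) / g = (t - 1) / g + 2 / g := by
        rw [← add_div]
        congr 1
        ring
      rw [hK₀]
      linarith
    have hWl : ∀ k ∈ W, Real.log k ≤ 2 * Real.log t := by
      intro k hk
      obtain ⟨-, k1, k2⟩ := hWK k hk
      have k3 : (0 : ℝ) < k := by exact_mod_cast k1
      have k4 : (k : ℝ) ≤ t ^ 2 := by
        refine k2.trans ?_
        have e1 : (t + 1) / g = (t + 1) * (1 / g) := by ring
        have e2 : 1 / g ≤ (t - 2) / 2 := by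
          have e3 : 2 / g = 2 * (1 / g) := by ring
          rw [e3] at t4
          linarith
        rw [e1]
        have e4 : (t + 1) * (1 / g) ≤ (t + 1) * ((t - 2) / 2) :=
          mul_le_mul_of_nonneg_left e2 (by linarith)
        nlinarith
      calc Real.log k ≤ Real.log (t ^ 2) := Real.log_le_log k3 k4
        _ = 2 * Real.log t := by rw [Real.log_pow]; push_cast; ring
    have hsk : ∀ k : ℕ, zs τ (((β + 1 / m : ℝ) : ℂ) + ((k * g : ℝ) : ℂ) * I) ≤
        (if K ≤ k then η / (2 * K₀) * Real.log k else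
          zs τ (((β + 1 / m : ℝ) : ℂ) + ((k * g : ℝ) : ℂ) * I)) := by
      intro k
      split_ifs with hk
      · exact hK k hk
      · exact le_rfl
    -- every zero of the ball lies in a sector
    have hin : ∀ z ∈ S, ∃ k ∈ W,
        wt τ (z - (((β + 1 / m : ℝ) : ℂ) + ((k * g : ℝ) : ℂ) * I)) = 1 := by
      intro z hz
      have h1 := DH31.ball_re_im (hS z hz).1
      obtain ⟨h2, h3⟩ := h1
      obtain ⟨h4, h5⟩ := abs_le.1 h3
      have h6 : β + d / 2 ≤ z.re := by linarith
      have h7 : t - 1 ≤ z.im := by linarith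
      have h8 : z.im ≤ t + 1 := by linarith
      have h9 : 0 ≤ z.im / g := div_nonneg (by linarith) hg0.le
      refine ⟨⌊z.im / g + 1 / 2⌋₊, ?_, ?_⟩
      · rw [hW, Finset.mem_Icc]
        constructor
        · refine Nat.floor_le_floor ?_
          have : (t - 1) / g ≤ z.im / g := by
            rw [div_le_div_iff_of_pos_right hg0]
            exact h7
          linarith
        · refine Nat.floor_le_floor ?_
          have : z.im / g ≤ (t + 1) / g := by
            rw [div_le_div_iff_of_pos_right hg0]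
            exact h8
          linarith
      · obtain ⟨k, hk⟩ : ∃ k : ℕ, k = ⌊z.im / g + 1 / 2⌋₊ := ⟨_, rfl⟩
        rw [← hk]
        have k1 : (k : ℝ) ≤ z.im / g + 1 / 2 := by
          rw [hk]
          exact Nat.floor_le (by linarith)
        have k2 : z.im / g + 1 / 2 < k + 1 := by
          rw [hk]
          exact Nat.lt_floor_add_one _
        have e1 : z.im / g * g = z.im := div_mul_cancel₀ _ hg0.ne'
        have e2 : |z.im - k * g| ≤ g / 2 := by
          rw [abs_le]
          constructor <;> nlinarith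
        have e3 : g / 2 < τ * (z.re - (β + 1 / m)) := by
          have e4 : 1 / (m : ℝ) ≤ z.re - (β + 1 / m) := by linarith
          have e5 : g = τ * (1 / m) := by rw [hg]; ring
          have e6 := mul_le_mul_of_nonneg_left e4 hτ.le
          rw [← e5] at e6
          linarith
        unfold wt
        have r1 : (z - (((β + 1 / m : ℝ) : ℂ) + ((k * g : ℝ) : ℂ) * I)).re =
            z.re - (β + 1 / m) := by
          simp only [Complex.sub_re, Complex.add_re, Complex.mul_re, Complex.ofReal_re,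
            Complex.ofReal_im, Complex.I_re, Complex.I_im]
          ring
        have r2 : (z - (((β + 1 / m : ℝ) : ℂ) + ((k * g : ℝ) : ℂ) * I)).im = z.im - k * g := by
          simp only [Complex.sub_im, Complex.add_im, Complex.mul_im, Complex.ofReal_re,
            Complex.ofReal_im, Complex.I_re, Complex.I_im]
          ring
        have r3 : |(z - (((β + 1 / m : ℝ) : ℂ) + ((k * g : ℝ) : ℂ) * I)).im| <
            τ * (z - (((β + 1 / m : ℝ) : ℂ) + ((k * g : ℝ) : ℂ) * I)).re := by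
          rw [r1, r2]
          linarith
        rw [if_neg, if_pos r3]
        intro h0
        rw [h0] at r3
        simp at r3
    calc ∑ z ∈ S, ((H370.mult riemannZeta z : ℕ) : ℝ)
        ≤ ∑ z ∈ S, ∑ k ∈ W, wt τ (z - (((β + 1 / m : ℝ) : ℂ) + ((k * g : ℝ) : ℂ) * I)) *
          (analyticOrderNatAt riemannZeta z : ℝ) := by
          refine Finset.sum_le_sum fun z hz => ?_
          obtain ⟨k, hk, hk1⟩ := hin z hz
          have h1 := Finset.single_le_sum (f := fun k : ℕ =>
            wt τ (z - (((β + 1 / m : ℝ) : ℂ) + ((k * g : ℝ) : ℂ) * I)) *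
            (analyticOrderNatAt riemannZeta z : ℝ)) (s := W)
            (fun k _ => mul_nonneg (wt_nonneg hτ _) (Nat.cast_nonneg _)) hk
          simp only [hk1, one_mul] at h1
          exact h1
      _ = ∑ k ∈ W, ∑ z ∈ S, wt τ (z - (((β + 1 / m : ℝ) : ℂ) + ((k * g : ℝ) : ℂ) * I)) *
          (analyticOrderNatAt riemannZeta z : ℝ) := Finset.sum_comm
      _ ≤ ∑ k ∈ W, η / (2 * K₀) * (2 * Real.log t) := by
          refine Finset.sum_le_sum fun k hk => ?_
          refine (sum_le_zs hτ _ S).trans ((hK k (hWK k hk).1).trans ?_)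
          exact mul_le_mul_of_nonneg_left (hWl k hk) (by positivity)
      _ = W.card * (η / (2 * K₀) * (2 * Real.log t)) := by
          rw [Finset.sum_const, nsmul_eq_mul]
      _ ≤ K₀ * (η / (2 * K₀) * (2 * Real.log t)) :=
          mul_le_mul_of_nonneg_right hWc (by positivity)
      _ = η * Real.log t := by field_simp
  refine ⟨A + B + 1, fun s hs hi => ?_⟩
  have hp : 1 ≤ s.im ^ ε := Real.one_le_rpow hi hε.le
  rcases le_or_gt (1 + δ) s.re with h1 | h1
  · have h2 := (hA s h1).1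
    nlinarith
  · rcases le_or_gt T₁ s.im with h2 | h2
    · have h3 := key s.im h2 s (by
        rw [mem_closedBall, dist_eq_norm]
        have e1 : s - ⟨1 + δ, s.im⟩ = ((s.re - (1 + δ) : ℝ) : ℂ) := by
          apply Complex.ext <;> simp
        rw [e1, Complex.norm_real, Real.norm_eq_abs, abs_le]
        constructor <;> linarith)
      nlinarith
    · have h3 := hB s (by linarith) h1.le hi h2.le
      nlinarith

/-- the Lindelof hypothesis on the line -/
theorem lind_iff : (∀ ε : ℝ, 0 < ε → ∃ C : ℝ, ∀ t : ℝ,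
    ‖riemannZeta (1 / 2 + t * I)‖ ≤ C * (1 + |t|) ^ ε) ↔ Small (1 / 2) := by
  constructor
  · intro h
    intro σ₀ hσ₀ ε hε
    obtain ⟨C, hC⟩ := h ε hε
    obtain ⟨C', hC'⟩ := plr2 ε hε.le (max C 0 * 2 ^ ε) (by
      intro t ht
      have h3 := hC t
      have h4 : (1 + |t|) ^ ε ≤ (2 * |t|) ^ ε := Real.rpow_le_rpow (by positivity) (by linarith) hε.le
      rw [Real.mul_rpow (by norm_num) (abs_nonneg _)] at h4
      calc ‖riemannZeta (1 / 2 + t * I)‖ ≤ C * (1 + |t|) ^ ε := h3
        _ ≤ max C 0 * (1 + |t|) ^ ε := mul_le_mul_of_nonneg_right (le_max_left _ _) (by positivity)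
        _ ≤ max C 0 * (2 ^ ε * |t| ^ ε) := mul_le_mul_of_nonneg_left h4 (le_max_right _ _)
        _ = _ := by ring)
    obtain ⟨A, hA1, hA⟩ := DH31.zeta_bounds (a := 2) (by norm_num)
    refine ⟨|C'| + A, fun s hs hi => ?_⟩
    have hp : 1 ≤ |s.im| ^ ε := Real.one_le_rpow hi hε.le
    have hC0 := abs_nonneg C'
    rcases le_total s.re 2 with h1 | h1
    · have h2 := hC' s.re (by linarith) h1 s.im hi
      rw [Complex.re_add_im] at h2
      have := le_abs_self C'
      nlinarith
    · have h2 := (hA s h1).1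
      nlinarith
  · intro h ε' hε'
    obtain ⟨ε, hε⟩ : ∃ ε : ℝ, ε = min ε' 1 := ⟨_, rfl⟩
    have hε0 : 0 < ε := by rw [hε]; exact lt_min hε' one_pos
    have hε1 : ε ≤ 1 := by rw [hε]; exact min_le_right _ _
    have hε2 : ε ≤ ε' := by rw [hε]; exact min_le_left _ _
    obtain ⟨x, hx⟩ : ∃ x : ℝ, x = ε / 28 := ⟨_, rfl⟩
    have hx0 : 0 < x := by rw [hx]; positivity
    have hx1 : x ≤ 1 / 28 := by rw [hx]; linarith
    obtain ⟨C, hC⟩ := h (1 / 2 + x) (by linarith) (ε / 4) (by positivity)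
    obtain ⟨D, hD⟩ : ∃ D : ℝ, D = (|C| + 1) * 2 ^ (ε / 4) * 12 ^ (ε / 4) := ⟨_, rfl⟩
    have hC0 := abs_nonneg C
    have hD0 : 0 < D := by rw [hD]; positivity
    have key : ∀ T : ℝ, 4 ≤ T → ‖riemannZeta (1 / 2 + T * I)‖ ≤ D * T ^ ε := by
      intro T hT
      have hT0 : 0 < T := by linarith
      obtain ⟨c, hc⟩ : ∃ c : ℂ, c = 2 + T * I := ⟨_, rfl⟩
      have hcre : c.re = 2 := by rw [hc]; simp
      have hcim : c.im = T := by rw [hc]; simp
      have hball : ∀ r : ℝ, ∀ u : ℂ, ‖u - c‖ ≤ r → 2 - r ≤ u.re ∧ |u.im - T| ≤ r := by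
        intro r u hu
        have g1 := (Complex.abs_re_le_norm (u - c)).trans hu
        have g2 := (Complex.abs_im_le_norm (u - c)).trans hu
        rw [Complex.sub_re, hcre] at g1
        rw [Complex.sub_im, hcim] at g2
        exact ⟨by linarith [(abs_le.1 g1).1], g2⟩
      have hz : ‖(1 / 2 + T * I : ℂ) - c‖ = 3 / 2 := by
        rw [hc]
        have : (1 / 2 + T * I : ℂ) - (2 + T * I) = ((-(3 / 2) : ℝ) : ℂ) := by
          push_cast
          ring
        rw [this, Complex.norm_real, Real.norm_eq_abs, abs_neg, abs_of_pos (by norm_num)]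
      have h3 := three_circles (F := riemannZeta) (c := c) (r₁ := 3 / 2 - x) (r₃ := 7 / 4)
        (M₁ := (|C| + 1) * (2 * T) ^ (ε / 4)) (M₃ := 12 * T) (by linarith) (by linarith)
        (fun u hu => by
          rw [mem_closedBall, dist_eq_norm] at hu
          refine differentiableAt_riemannZeta ?_
          rintro rfl
          have := (abs_le.1 (hball _ _ hu).2).1
          simp at this
          linarith)
        (fun u hu => by
          rw [mem_sphere, dist_eq_norm] at hu
          obtain ⟨g1, g2⟩ := hball _ _ hu.le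
          obtain ⟨g3, g4⟩ := abs_le.1 g2
          have g5 : |u.im| = u.im := abs_of_nonneg (by linarith)
          have g6 := hC u (by linarith) (by rw [g5]; linarith)
          rw [g5] at g6
          refine g6.trans ?_
          have g7 : u.im ^ (ε / 4) ≤ (2 * T) ^ (ε / 4) :=
            Real.rpow_le_rpow (by linarith) (by linarith) (by positivity)
          have g8 : 0 ≤ u.im ^ (ε / 4) := Real.rpow_nonneg (by linarith) _
          calc C * u.im ^ (ε / 4) ≤ (|C| + 1) * u.im ^ (ε / 4) :=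
                mul_le_mul_of_nonneg_right (by linarith [le_abs_self C]) g8
            _ ≤ _ := mul_le_mul_of_nonneg_left g7 (by linarith))
        (fun u hu => by
          rw [mem_sphere, dist_eq_norm] at hu
          obtain ⟨g1, g2⟩ := hball _ _ hu.le
          obtain ⟨g3, g4⟩ := abs_le.1 g2
          refine (Pool.Agent.H388LH.zeta_growth (by linarith) (by linarith)).trans ?_
          have g5 : ‖u‖ ≤ 2 * T := by
            have e1 : u = (u - c) + c := by ring
            rw [e1]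
            refine (norm_add_le _ _).trans ?_
            rw [hu]
            have e2 : ‖c‖ ≤ 2 + T := by
              refine (Complex.norm_le_abs_re_add_abs_im _).trans ?_
              rw [hcre, hcim, abs_of_nonneg hT0.le, abs_of_nonneg (by norm_num : (0 : ℝ) ≤ 2)]
            linarith
          linarith)
        (z := 1 / 2 + T * I) (by rw [hz]; linarith) (by rw [hz]; norm_num)
      rw [hz] at h3
      obtain ⟨θ, hθ⟩ : ∃ θ : ℝ, θ = (Real.log (3 / 2) - Real.log (3 / 2 - x)) /
        (Real.log (7 / 4) - Real.log (3 / 2 - x)) := ⟨_, rfl⟩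
      rw [← hθ] at h3
      have hr0 : 0 < 3 / 2 - x := by linarith
      have l1 : 0 ≤ Real.log (3 / 2) - Real.log (3 / 2 - x) :=
        sub_nonneg.2 (Real.log_le_log hr0 (by linarith))
      have l2 : Real.log (3 / 2) - Real.log (3 / 2 - x) ≤ x := by
        rw [← Real.log_div (by norm_num) hr0.ne']
        refine (Real.log_le_sub_one_of_pos (by positivity)).trans ?_
        rw [div_sub_one hr0.ne', div_le_iff₀ hr0]
        nlinarith
      have l3 : 1 / 7 ≤ Real.log (7 / 4) - Real.log (3 / 2 - x) := by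
        have e1 : Real.log (3 / 2 - x) ≤ Real.log (3 / 2) := Real.log_le_log hr0 (by linarith)
        have e2 : 1 / 7 ≤ Real.log (7 / 4) - Real.log (3 / 2) := by
          rw [← Real.log_div (by norm_num) (by norm_num)]
          have := Real.one_sub_inv_le_log_of_pos (show (0 : ℝ) < 7 / 4 / (3 / 2) by norm_num)
          norm_num at this ⊢
          linarith
        linarith
      have hθ0 : 0 ≤ θ := by rw [hθ]; exact div_nonneg l1 (by linarith)
      have hθ1 : θ ≤ ε / 4 := by
        rw [hθ, div_le_iff₀ (by linarith)]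
        have : ε / 4 = 7 * x := by rw [hx]; ring
        rw [this]
        nlinarith
      have hM1 : 1 ≤ (|C| + 1) * (2 * T) ^ (ε / 4) := by
        have := Real.one_le_rpow (show (1 : ℝ) ≤ 2 * T by linarith) (show 0 ≤ ε / 4 by positivity)
        nlinarith
      have p1 : ((|C| + 1) * (2 * T) ^ (ε / 4)) ^ (1 - θ) ≤ (|C| + 1) * (2 * T) ^ (ε / 4) := by
        calc _ ≤ ((|C| + 1) * (2 * T) ^ (ε / 4)) ^ (1 : ℝ) :=
              Real.rpow_le_rpow_of_exponent_le hM1 (by linarith)
          _ = _ := Real.rpow_one _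
      have p2 : (12 * T) ^ θ ≤ (12 * T) ^ (ε / 4) :=
        Real.rpow_le_rpow_of_exponent_le (by linarith) hθ1
      refine h3.trans ?_
      calc _ ≤ (|C| + 1) * (2 * T) ^ (ε / 4) * (12 * T) ^ (ε / 4) :=
            mul_le_mul p1 p2 (by positivity) (by positivity)
        _ = D * (T ^ (ε / 4) * T ^ (ε / 4)) := by
            rw [Real.mul_rpow (by norm_num) hT0.le, Real.mul_rpow (by norm_num) hT0.le, hD]
            ring
        _ = D * T ^ (ε / 4 + ε / 4) := by rw [Real.rpow_add hT0]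
        _ ≤ D * T ^ ε := by
            refine mul_le_mul_of_nonneg_left ?_ hD0.le
            exact Real.rpow_le_rpow_of_exponent_le (by linarith) (by linarith)
    obtain ⟨B, hB⟩ := isCompact_Icc.exists_bound_of_continuousOn
      (cont_line' (1 / 2) (a := 0) (b := 4) (Or.inl (by norm_num)))
    have hpos : ∀ t : ℝ, 0 ≤ t → ‖riemannZeta (1 / 2 + t * I)‖ ≤ (|B| + D) * (1 + t) ^ ε' := by
      intro t ht
      have h1 : 1 ≤ (1 + t) ^ ε' := Real.one_le_rpow (by linarith) hε'.le
      have hB0 := abs_nonneg B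
      rcases le_or_gt 4 t with h2 | h2
      · refine (key t h2).trans ?_
        have h3 : t ^ ε ≤ (1 + t) ^ ε' := by
          calc t ^ ε ≤ (1 + t) ^ ε := Real.rpow_le_rpow ht (by linarith) hε0.le
            _ ≤ _ := Real.rpow_le_rpow_of_exponent_le (by linarith) hε2
        nlinarith
      · have h3 := hB t ⟨ht, h2.le⟩
        have e2 : ((1 / 2 : ℝ) : ℂ) + t * I = 1 / 2 + t * I := by push_cast; ring
        rw [e2] at h3
        have := le_abs_self B
        nlinarith
    refine ⟨|B| + D, fun t => ?_⟩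
    rcases le_total 0 t with h1 | h1
    · rw [abs_of_nonneg h1]
      exact hpos t h1
    · rw [abs_of_nonpos h1]
      have h2 := hpos (-t) (by linarith)
      have h3 := conj_line' (1 / 2) t
      have e2 : ∀ x : ℝ, ((1 / 2 : ℝ) : ℂ) + x * I = 1 / 2 + x * I := fun x => by push_cast; ring
      rw [e2, e2] at h3
      rwa [h3] at h2

end Pool.Agent.Q286.TR
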