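import Pool.Agent.Y23.G.Fin
import Pool.Agent.Y23.G.Gz5
import Pool.Agent.Q240.CG.Sym
import Pool.Agent.Q240.CG.All
import Pool.Agent.Q240.CG.Inst
import Pool.Agent.Q177.CG.RawMul

set_option autoImplicit false

/-!
# The trichotomy of helper240 for L-functions (copy of the general part of `SpectralTrichotomy`)
-/

namespace Pool.Agent.Q286.TR

open Complex MeasureTheory Filter Topology

/-! ### The L-functions -/

/-- An L-function `L(s) = ∑ b(n) n^(-s)` of degree `m` and conductor `Q`, with archimedean parameters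
`α_j`, `Re α_j > -1/2`, and a pole of order at most `r` at `s = 1`, and with an Euler product:
`-L'/L = ∑ Λ(n) c(n) n^(-s)` (von Mangoldt's function), that is `b(n) log n = ∑_{d | n} Λ(d) c(d) b(n/d)`,
with `|c(n)| ≤ m √n`; here `c(p^k)` is the sum of the `k`-th powers of the Satake parameters at `p`, which
are at most `√p`.  The function `Λ` is entire of finite order and is, for large real part,
`(s (s - 1))^r Q^(s/2) ∏ Γ_ℝ(s + α_j) L(s)`; and it satisfies the functional equation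
`Λ(1 - s) = w conj Λ(conj s)`. -/
structure LFunction where
  /-- the degree -/
  m : ℕ
  /-- the conductor -/
  Q : ℝ
  /-- the parameters `α` of the Gamma factors `Γ_ℝ(s + α)` -/
  α : Fin m → ℂ
  /-- the order of the pole -/
  r : ℕ
  /-- the coefficients -/
  b : ℕ → ℂ
  /-- the traces -/
  c : ℕ → ℂ
  /-- the root number -/
  w : ℂ
  /-- the completed function -/
  Λ : ℂ → ℂ
  one_le_m : 1 ≤ m
  one_le_Q : 1 ≤ Q
  α_re : ∀ j, -1 / 2 < (α j).re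
  r_le : r ≤ m
  b_one : b 1 = 1
  c_bound : ∀ n : ℕ, n ≠ 0 → ‖c n‖ ≤ m * Real.sqrt n
  euler : ∀ n : ℕ, n ≠ 0 → b n * ((Real.log n : ℝ) : ℂ) =
    ∑ d ∈ n.divisors, ((ArithmeticFunction.vonMangoldt d : ℝ) : ℂ) * c d * b (n / d)
  w_norm : ‖w‖ = 1
  entire : Differentiable ℂ Λ
  order : ∃ A ρ : ℝ, ∀ s : ℂ, ‖Λ s‖ ≤ Real.exp (A * (1 + ‖s‖) ^ ρ)
  fe : ∀ s : ℂ, Λ (1 - s) = w * (starRingEnd ℂ) (Λ ((starRingEnd ℂ) s))
  dirichlet : ∃ σ : ℝ, ∀ s : ℂ, σ ≤ s.re → Λ s = (s * (s - 1)) ^ r *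
    ((Q : ℂ) ^ (s / 2) * ∏ j, Gammaℝ (s + α j)) * LSeries b s

/-- The Riemann hypothesis for `L`. -/
def GRH (L : LFunction) : Prop := ∀ s : ℂ, L.Λ s = 0 → s.re = 1 / 2

/-- `L` is self-dual. -/
def SelfDual (L : LFunction) : Prop := ∃ ε : ℂ, ε ≠ 0 ∧ ∀ s : ℂ, L.Λ (1 - s) = ε * L.Λ s

/-- The trigonometric polynomials of degree at most `n` on `[-a, a]`, extended by `0`. -/
def Trig (a : ℝ) (n : ℕ) (f : ℝ → ℂ) : Prop := ∃ c : ℤ → ℂ, ∀ x : ℝ,
  f x = if |x| ≤ a then ∑ k ∈ Finset.Icc (-(n : ℤ)) n, c k * cexp ((Real.pi * k * x / a : ℝ) * I) else 0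

/-- The Mellin transform of `f` in the logarithmic variable, centred at `1/2`. -/
noncomputable def M (f : ℝ → ℂ) (s : ℂ) : ℂ := ∫ x : ℝ, f x * cexp ((s - 1 / 2) * x)

/-- The square of the norm of `f` in `L²`. -/
noncomputable def N (f : ℝ → ℂ) : ℝ := ∫ x : ℝ, ‖f x‖ ^ 2

/-- Weil's quadratic form of `L` for functions supported in `[-a, a]`: the pole, the archimedean place
and the prime powers `n ≤ exp (2 a)`. -/
noncomputable def W (L : LFunction) (a : ℝ) (f : ℝ → ℂ) : ℝ :=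
  2 * L.r * (M f 1 * (starRingEnd ℂ) (M f 0)).re +
    1 / (2 * Real.pi) * (∫ t : ℝ, (Real.log L.Q +
      ∑ j, ((digamma ((1 / 2 + t * I + L.α j) / 2)).re - Real.log Real.pi)) * ‖M f (1 / 2 + t * I)‖ ^ 2) -
    2 * (∑ n ∈ Finset.Icc 1 ⌊Real.exp (2 * a)⌋₊, ArithmeticFunction.vonMangoldt n / Real.sqrt n * L.c n *
      ∫ x : ℝ, f (x + Real.log n) * (starRingEnd ℂ) (f x)).re

/-- The form `W f + W (conj f)`: Weil's form of the product of `L` with its dual.  If `L` is self-dual it is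
`2 W f`. -/
noncomputable def W2 (L : LFunction) (a : ℝ) (f : ℝ → ℂ) : ℝ := W L a f + W L a fun x => (starRingEnd ℂ) (f x)

/-- `f` is a ground state in degree at most `n`: it is a trigonometric polynomial, not zero, and minimises
`W2 L a / N`. -/
def Ground (L : LFunction) (a : ℝ) (n : ℕ) (f : ℝ → ℂ) : Prop :=
  Trig a n f ∧ N f ≠ 0 ∧ ∀ g : ℝ → ℂ, Trig a n g → W2 L a f * N g ≤ W2 L a g * N f

/-- The zeros of the product of `L` with its dual in the upper half plane. -/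
abbrev Upper (L : LFunction) : Type := {ρ : ℂ // (L.Λ ρ = 0 ∨ L.Λ ((starRingEnd ℂ) ρ) = 0) ∧ 0 < ρ.im}

/-- The reduced function: the product over the distinct zeros in the upper half plane. -/
noncomputable def Xred (L : LFunction) (s : ℂ) : ℂ := ∏' ρ : Upper L, (1 - (s - 1 / 2) ^ 2 / ((ρ : ℂ) - 1 / 2) ^ 2)

/-- The Gaussian factor. -/
noncomputable def Gs (κ : ℝ) (s : ℂ) : ℂ := cexp ((s - 1 / 2) ^ 2 / (Real.pi ^ 2 * κ))

/-- The numbers `x` such that `F ≤ x N` on some space of trigonometric polynomials of dimension `k`; the least of them is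
the `k`-th eigenvalue of `F`. -/
def Level (F : (ℝ → ℂ) → ℝ) (a : ℝ) (n k : ℕ) : Set ℝ := {x : ℝ | ∃ V : Submodule ℂ (ℝ → ℂ), (∀ f ∈ V, Trig a n f) ∧
  Module.finrank ℂ V = k ∧ ∀ f ∈ V, F f ≤ x * N f}

/-- The ordinates in `(u, v)` of the zeros of the transform of `f` on the critical line. -/
def Ord (f : ℝ → ℂ) (u v : ℝ) : Set ℝ := {t : ℝ | u < t ∧ t < v ∧ M f (1 / 2 + t * I) = 0}

/-- The `k`-th largest real part of the distinct zeros of `Λ` (but at least `1/2`). -/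
noncomputable def beta (L : LFunction) (k : ℕ) : ℝ := sInf {x : ℝ | 1 / 2 ≤ x ∧ {s : ℂ | L.Λ s = 0 ∧ x < s.re}.encard < k}

open Y23.G Pool.Agent.Q240.CD Pool.Agent.Q240

/-- the data of the proof -/
@[reducible] noncomputable def toL (L : LFunction) : LFun where
  m := L.m
  r := L.r
  N := L.Q
  a := L.α
  b := L.b
  c := fun n => if n = 0 then 0 else L.c n
  X := L.Λ
  raw := by
    refine ⟨L.one_le_m, L.r_le, L.one_le_Q, by norm_num, by norm_num, fun j => (L.α_re j).le, L.entire, L.order,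
      ⟨L.w, L.w_norm, fun s => ?_⟩, L.b_one, fun n => ?_, fun n hn => ?_, L.dirichlet⟩
    · have := L.fe (1 - s)
      rw [sub_sub_cancel] at this
      rw [this]
      congr 3
      rw [map_sub, map_one]
    · by_cases hn : n = 0
      · rw [if_pos hn, norm_zero]
        positivity
      · rw [if_neg hn, ← Real.sqrt_eq_rpow]
        exact L.c_bound n hn
    · rw [L.euler n hn]
      refine Finset.sum_congr rfl fun d hd => ?_
      rw [if_neg (Nat.pos_of_mem_divisors hd).ne']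
  str := L.α_re

section

variable (L : LFunction)

/-- the zeros of `L` -/
noncomputable abbrev D1 : ZD := zd (L := toL L)

/-- the zeros of the product with the dual -/
noncomputable abbrev D2 : ZD := CG.symD (D1 L)

noncomputable instance ec1 : @ZC (D1 L) := zc (L := toL L)

noncomputable instance ec2 : @ZC (D2 L) := CG.zcS (D1 L)

noncomputable instance sd2 : @CG.SD (D2 L) := CG.sdS (D1 L)

lemma M_eq (f : ℝ → ℂ) (s : ℂ) : M f s = Y23.TT f (s - 1 / 2) := rfl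

lemma M_line (f : ℝ → ℂ) (t : ℝ) : M f (1 / 2 + t * I) = Y23.TT f (t * I) := by
  rw [M_eq]; congr 1; ring

lemma GD_eq (t : ℝ) : (GD (L := toL L)) t = Real.log L.Q +
    ∑ j, ((digamma ((1 / 2 + t * I + L.α j) / 2)).re - Real.log Real.pi) := by
  unfold GD GA H353.E.gaD
  have e1 : (⟨1 / 2, t⟩ : ℂ) = 1 / 2 + t * I := by
    rw [H370.mk_eq]; push_cast; ring
  rw [e1, Complex.add_re, Complex.ofReal_re, Complex.re_sum, mul_add, Finset.mul_sum]
  have e2 : (toL L).N = L.Q := rfl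
  rw [e2]
  congr 1
  · ring
  · refine Finset.sum_congr rfl fun j _ => ?_
    have e3 : (1 / 2 + (t : ℂ) * I - -(toL L).a j) / 2 = (1 / 2 + t * I + L.α j) / 2 := by
      show (1 / 2 + (t : ℂ) * I - -L.α j) / 2 = _
      ring
    rw [e3, Complex.add_re, Complex.ofReal_re]
    have e4 : logDeriv Gamma ((1 / 2 + (t : ℂ) * I + L.α j) / 2) = digamma ((1 / 2 + t * I + L.α j) / 2) := rfl
    rw [e4]
    have e5 : (digamma ((1 / 2 + (t : ℂ) * I + L.α j) / 2) / 2).re = (digamma ((1 / 2 + t * I + L.α j) / 2)).re / 2 := by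
      rw [show (2 : ℂ) = ((2 : ℝ) : ℂ) by norm_num, Complex.div_ofReal_re]
    rw [e5]
    ring

lemma W_eq {a : ℝ} (ha : 0 < a) {f : ℝ → ℂ} (hf : Hd a f) : W L a f = QQ (D := D1 L) f := by
  rw [weil (L := toL L) ha hf]
  have e1 : M f 1 = Y23.TT f (1 / 2) := by rw [M_eq]; congr 1; ring
  have e2 : M f 0 = Y23.TT f (-(1 / 2)) := by rw [M_eq]; congr 1; ring
  have e3 : ∀ n ∈ Finset.Icc 1 ⌊Real.exp (2 * a)⌋₊, ((ArithmeticFunction.vonMangoldt n : ℝ) : ℂ) / ((Real.sqrt n : ℝ) : ℂ) * L.c n *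
      (∫ x : ℝ, f (x + Real.log n) * (starRingEnd ℂ) (f x)) = aL (L := toL L) n *
      ∫ x : ℝ, f (x + Real.log n) * (starRingEnd ℂ) (f x) := by
    intro n hn
    have hn1 := (Finset.mem_Icc.1 hn).1
    congr 1
    have e3 : aL (L := toL L) n = ((ArithmeticFunction.vonMangoldt n : ℝ) : ℂ) *
        ((if n = 0 then 0 else L.c n) * TH839.NA.pw (-(1 / 2)) n) := rfl
    rw [e3, if_neg (by omega)]
    unfold TH839.NA.pw
    rw [Real.rpow_neg (Nat.cast_nonneg _), ← Real.sqrt_eq_rpow]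
    push_cast
    ring
  unfold W
  rw [Finset.sum_congr rfl e3]
  simp only [e1, e2, M_line, GD_eq]
  rfl

lemma trig_cj {a : ℝ} {n : ℕ} {f : ℝ → ℂ} (hf : Trig a n f) : Trig a n fun x => (starRingEnd ℂ) (f x) := by
  obtain ⟨c, hc⟩ := hf
  refine ⟨fun k => (starRingEnd ℂ) (c (-k)), fun x => ?_⟩
  simp only
  rw [hc x]
  split_ifs with h
  · rw [map_sum]
    refine Finset.sum_bij' (fun k _ => -k) (fun k _ => -k) (fun k hk => ?_) (fun k hk => ?_) (fun k _ => neg_neg k)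
      (fun k _ => neg_neg k) (fun k _ => ?_)
    · rw [Finset.mem_Icc] at hk ⊢
      constructor <;> linarith [hk.1, hk.2]
    · rw [Finset.mem_Icc] at hk ⊢
      constructor <;> linarith [hk.1, hk.2]
    · rw [neg_neg, map_mul, ← Complex.exp_conj, map_mul, Complex.conj_I, Complex.conj_ofReal]
      congr 2
      push_cast
      ring
  · exact map_zero _

lemma W2_isW : CG.IsW (D := D2 L) (W2 L) := by
  intro a ha n f hf
  have h1 : Hd a f := (Tg_Hn ha hf).hd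
  have h2 : Hd a (fun x => (starRingEnd ℂ) (f x)) := (Tg_Hn ha (trig_cj hf)).hd
  unfold W2
  rw [W_eq L ha h1, W_eq L ha h2, CG.QQ_sym (D := D1 L) (Hd.dom (DZ := D2 L) ha h1)]

lemma ground_iff (a : ℝ) (n : ℕ) (f : ℝ → ℂ) : Ground L a n f ↔ CG.Gnd (W2 L) a n f := Iff.rfl

lemma xred_eq : Xred L = CG.XrG (D := D2 L) := rfl

lemma gs_eq (κ : ℝ) : Gs κ = CG.GsG κ := rfl

lemma level_eq (F : (ℝ → ℂ) → ℝ) (a : ℝ) (n k : ℕ) : Level F a n k = CE.evs F Y23.N2 (Tg a n) k := rfl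

lemma ord_eq (f : ℝ → ℂ) (u v : ℝ) : Ord f u v = CG.OrdG f u v := rfl

lemma grh_iff : GRH L ↔ CG.RHG (D := D2 L) := by
  constructor
  · rintro h s (hs | hs)
    · exact h s hs
    · have := h _ hs
      rwa [Complex.conj_re] at this
  · intro h s hs
    exact h s (Or.inl hs)

lemma half_iff : L.Λ (1 / 2) = 0 ↔ (1 / 2 : ℂ) ∈ (D2 L).Zs := by
  have e : (starRingEnd ℂ) (1 / 2 : ℂ) = 1 / 2 := by rw [map_div₀, map_one, map_ofNat]
  constructor
  · exact Or.inl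
  · rintro (h | h)
    · exact h
    · rw [e] at h
      exact h

lemma half_iff' : L.Λ (1 / 2) ≠ 0 ↔ (1 / 2 : ℂ) ∉ (D2 L).Zs := not_congr (half_iff L)

/-- the form of a self-dual L-function is real -/
lemma selfDual_W (h : SelfDual L) {a : ℝ} (ha : 0 < a) {n : ℕ} {f : ℝ → ℂ} (hf : Trig a n f) : W2 L a f = 2 * W L a f := by
  have hSD : @CG.SD (D1 L) := CG.sd_of (L := toL L) h
  have h1 : Hd a f := (Tg_Hn ha hf).hd
  have h2 : Hd a (fun x => (starRingEnd ℂ) (f x)) := (Tg_Hn ha (trig_cj hf)).hd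
  unfold W2
  rw [W_eq L ha h1, W_eq L ha h2, CG.QQ_cj (D := D1 L) f]
  ring

/-- the convergence statements -/
theorem main {κ : ℝ} (hκ : 0 < κ) {n : ℝ → ℕ} (hn : Tendsto (fun a : ℝ => (n a : ℝ) / a ^ 2) atTop (𝓝 κ)) :
    ((GRH L ∧ L.Λ (1 / 2) ≠ 0) ↔ ∀ f : ℝ → ℝ → ℂ, (∀ a, 0 < a → Ground L a (n a) (f a)) →
      TendstoLocallyUniformly (fun a s => M (f a) s / M (f a) (1 / 2)) (fun s => Xred L s * Gs κ s) atTop) ∧
    ((GRH L ∧ L.Λ (1 / 2) = 0) ↔ ∀ f : ℝ → ℝ → ℂ, (∀ a, 0 < a → Ground L a (n a) (f a)) →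
      TendstoLocallyUniformly (fun a s => M (f a) s / deriv (M (f a)) (1 / 2)) (fun s => (s - 1 / 2) * Xred L s * Gs κ s) atTop) ∧
    (GRH L → (∃ A : ℝ, ∀ a, A ≤ a → ∀ f, Ground L a (n a) f →
        (L.Λ (1 / 2) ≠ 0 → M f (1 / 2) ≠ 0 ∧ ∀ x, f (-x) = f x) ∧
        (L.Λ (1 / 2) = 0 → deriv (M f) (1 / 2) ≠ 0 ∧ ∀ x, f (-x) = -f x) ∧
        ∀ g, Ground L a (n a) g → ∃ c : ℂ, ∀ x, g x = c * f x) ∧
      (∀ c : ℝ, c < 4 * κ → ∃ A : ℝ, ∀ a, A ≤ a → ∀ f, Ground L a (n a) f →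
        0 < W2 L a f ∧ W2 L a f ≤ Real.exp (-(c * a ^ 2 * Real.log a)) * N f) ∧
      (∀ B : ℝ, ∃ A : ℝ, ∀ a, A ≤ a → ∀ f, Ground L a (n a) f → ∀ x ∈ Level (W2 L a) a (n a) 2, B * W2 L a f ≤ x * N f) ∧
      (∀ ρ : ℂ, L.Λ ρ = 0 → ∀ c : ℝ, c < 2 * κ → ∃ A : ℝ, ∀ a, A ≤ a → ∀ f, Ground L a (n a) f →
        ∃ t : ℝ, M f (1 / 2 + t * I) = 0 ∧ |t - ρ.im| ≤ Real.exp (-(c * a ^ 2 * Real.log a)))) ∧
    (¬ GRH L → ∀ m : ℝ → ℕ, (∀ᶠ a in atTop, n a ≤ m a) →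
      (∀ B : ℝ, ∃ A : ℝ, ∀ a, A ≤ a → ∀ f, Ground L a (m a) f → W2 L a f < -B * N f) ∧
      ∀ (u v : ℝ) (C : ℕ), u < v → ∃ A : ℝ, ∀ a, A ≤ a → ∀ f, Ground L a (m a) f → (C : ℕ∞) ≤ (Ord f u v).encard) ∧
    (GRH L ↔ ∃ (u v : ℝ) (C : ℕ), u < v ∧ ∀ A : ℝ, ∃ a, A ≤ a ∧ ∃ f, Ground L a (n a) f ∧
      (Ord f u v).encard ≤ (C : ℕ∞)) ∧
    (GRH L ↔ ∃ B : ℝ, ∀ A : ℝ, ∃ a, A ≤ a ∧ ∃ f, Ground L a (n a) f ∧ -B * N f ≤ W2 L a f) := by
  have hW := W2_isW L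
  have h3 := fun hRH => CG.tri_struct (D := D2 L) hW hκ hn hRH
  rw [half_iff', half_iff]
  refine ⟨?_, ?_, fun hRH => ?_, fun hRH m hm => ?_, ?_, ?_⟩
  · rw [grh_iff]
    exact CG.tri_even (D := D2 L) hW hκ hn
  · rw [grh_iff]
    exact CG.tri_odd (D := D2 L) hW hκ hn
  · rw [grh_iff] at hRH
    obtain ⟨h1, h2, h4, h5⟩ := h3 hRH
    exact ⟨h1, h2, h4, fun ρ hρ => h5 ρ (Or.inl hρ)⟩
  · rw [grh_iff] at hRH
    exact CG.tri_not (D := D2 L) hW hκ hn hm hRH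
  · rw [grh_iff]
    exact CG.tri_ord (D := D2 L) hW hκ hn
  · rw [grh_iff]
    exact CG.tri_low (D := D2 L) hW hκ hn

/-- the exponents of the eigenvalues of Weil's form itself -/
theorem main_rate (m : ℝ → ℕ) (hm : Tendsto (fun a : ℝ => (m a : ℝ) / a) atTop atTop)
    (hm2 : ∀ ε : ℝ, 0 < ε → ∀ᶠ a : ℝ in atTop, Real.log (m a) ≤ Real.exp (ε * a)) {k : ℕ} (hk : 1 ≤ k) :
    Tendsto (fun a : ℝ => Real.log (max 1 (-sInf (Level (W L a) a (m a) k))) / a) atTop (𝓝 (2 * beta L k - 1)) := by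
  have e : beta L k = CE.beta (D := D1 L) k := rfl
  rw [e]
  refine CE.rate (D := D1 L) CG.jb.test CG.jb.upq m hm hm2 hk _ ?_
  filter_upwards [eventually_gt_atTop 0] with a ha
  rw [level_eq]
  congr 1
  ext x
  unfold CE.evs
  constructor
  · rintro ⟨V, h1, h2, h3⟩
    refine ⟨V, h1, h2, fun f hf => ?_⟩
    rw [← W_eq L ha (Tg_Hn ha (h1 f hf)).hd]
    exact h3 f hf
  · rintro ⟨V, h1, h2, h3⟩
    refine ⟨V, h1, h2, fun f hf => ?_⟩
    rw [W_eq L ha (Tg_Hn ha (h1 f hf)).hd]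
    exact h3 f hf

end

end Pool.Agent.Q286.TR
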