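import Mathlib

set_option autoImplicit false

/-! # The duplication formula for the digamma function -/

namespace Pool.Agent.Q286.TR

open Complex

/-- the duplication formula for the digamma function -/
lemma digamma_dup {t : ℝ} : (digamma ((1 + t * I) / 2)).re + (digamma ((2 + t * I) / 2)).re =
    2 * (digamma (1 + t * I)).re - 2 * Real.log 2 := by
  obtain ⟨z, hz⟩ : ∃ z : ℂ, z = (1 + t * I) / 2 := ⟨_, rfl⟩
  have e1 : (2 + t * I) / 2 = z + 1 / 2 := by rw [hz]; ring
  have e2 : (1 : ℂ) + t * I = 2 * z := by rw [hz]; ring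
  have hre : z.re = 1 / 2 := by
    rw [hz, show (2 : ℂ) = ((2 : ℝ) : ℂ) by norm_num, Complex.div_ofReal_re]
    simp
  have hm : ∀ w : ℂ, 0 < w.re → ∀ m : ℕ, w ≠ -m := fun w hw m h => by
    rw [h] at hw
    simp at hw
    exact absurd hw (by have := Nat.cast_nonneg (α := ℝ) m; linarith)
  have d1 : DifferentiableAt ℂ Complex.Gamma z := Complex.differentiableAt_Gamma _ (hm z (by rw [hre]; norm_num))
  have hre2 : 0 < (z + 1 / 2).re := by
    rw [Complex.add_re, hre]
    norm_num
  have d2 : DifferentiableAt ℂ Complex.Gamma (z + 1 / 2) := Complex.differentiableAt_Gamma _ (hm _ hre2)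
  have hre3 : 0 < (2 * z).re := by
    rw [Complex.mul_re, hre]
    simp
  have d3 : DifferentiableAt ℂ Complex.Gamma (2 * z) := Complex.differentiableAt_Gamma _ (hm _ hre3)
  have n1 := Complex.Gamma_ne_zero_of_re_pos (s := z) (by rw [hre]; norm_num)
  have n2 := Complex.Gamma_ne_zero_of_re_pos hre2
  have n3 := Complex.Gamma_ne_zero_of_re_pos hre3
  have key : (fun s : ℂ => Complex.Gamma s * Complex.Gamma (s + 1 / 2)) = fun s => Complex.Gamma (2 * s) * (2 : ℂ) ^ (1 - 2 * s) * (Real.sqrt Real.pi : ℂ) :=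
    funext fun s => Complex.Gamma_mul_Gamma_add_half s
  have h1 : logDeriv (fun s : ℂ => Complex.Gamma s * Complex.Gamma (s + 1 / 2)) z = digamma z + digamma (z + 1 / 2) := by
    have hc : DifferentiableAt ℂ (fun s : ℂ => Complex.Gamma (s + 1 / 2)) z :=
      DifferentiableAt.comp z (f := fun s : ℂ => s + 1 / 2) (g := Complex.Gamma) d2 (by fun_prop)
    rw [logDeriv_mul (f := Complex.Gamma) (g := fun s : ℂ => Complex.Gamma (s + 1 / 2)) z n1 n2 d1 hc]
    congr 1
    unfold logDeriv digamma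
    simp only [Pi.div_apply]
    rw [deriv_comp_add_const]
    rfl
  have h2 : logDeriv (fun s : ℂ => Complex.Gamma (2 * s) * (2 : ℂ) ^ (1 - 2 * s) * (Real.sqrt Real.pi : ℂ)) z =
      2 * digamma (2 * z) - 2 * Complex.log 2 := by
    have hpi : (Real.sqrt Real.pi : ℂ) ≠ 0 := by
      have := Real.sqrt_pos.2 Real.pi_pos
      exact_mod_cast this.ne'
    rw [logDeriv_mul_const _ _ hpi]
    have hd3 : HasDerivAt (fun s : ℂ => Complex.Gamma (2 * s)) (deriv Complex.Gamma (2 * z) * 2) z := by
      have h3 : HasDerivAt (fun s : ℂ => 2 * s) (2 * 1) z := (hasDerivAt_id z).const_mul 2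
      rw [mul_one] at h3
      exact d3.hasDerivAt.comp z h3
    have hd4 : HasDerivAt (fun s : ℂ => (2 : ℂ) ^ (1 - 2 * s)) ((2 : ℂ) ^ (1 - 2 * z) * Complex.log 2 * (-2)) z := by
      have h3 : HasDerivAt (fun s : ℂ => 1 - 2 * s) (-(2 * 1)) z := ((hasDerivAt_id z).const_mul 2).const_sub 1
      have h4 := h3.const_cpow (c := 2) (Or.inl two_ne_zero)
      convert h4 using 1
      ring
    have n4 : (2 : ℂ) ^ (1 - 2 * z) ≠ 0 := by
      rw [Ne, Complex.cpow_eq_zero_iff]
      exact fun h => two_ne_zero h.1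
    rw [logDeriv_mul (f := fun s : ℂ => Complex.Gamma (2 * s)) (g := fun s : ℂ => (2 : ℂ) ^ (1 - 2 * s)) z n3 n4
      hd3.differentiableAt hd4.differentiableAt]
    unfold logDeriv digamma
    simp only [Pi.div_apply]
    rw [hd3.deriv, hd4.deriv]
    unfold logDeriv
    simp only [Pi.div_apply]
    field_simp
    ring
  rw [key] at h1
  rw [h1] at h2
  have h3 := congrArg Complex.re h2
  rw [← hz, e1, e2]
  rw [Complex.add_re, Complex.sub_re] at h3
  rw [h3]
  have h4 : (Complex.log 2).re = Real.log 2 := by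
    rw [Complex.log_re]
    norm_num
  rw [Complex.mul_re, Complex.mul_re, h4]
  simp

end Pool.Agent.Q286.TR
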