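import Pool.Agent.Q286.TR.Gen
import Pool.Agent.Q286.TR.Dup
import Pool.Agent.W355.UN.Ab

set_option autoImplicit false

/-!
# The trichotomy for elliptic curves over `ℚ`
-/

namespace Pool.Agent.Q286.TR

open UpperHalfPlane hiding I
open MatrixGroups CongruenceSubgroup
open Complex MeasureTheory Filter Topology
open Pool.Agent.W355.UN (Raw RawL Conv lam2 Eu2 eu2_of isNewf_of tw_raw)
open Pool.Agent.W169.HF (IsForm coef)
open Pool.Agent.H304R3.HK (ts gen_log)

/-- from the raw data -/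
noncomputable def ofRaw {m r : ℕ} {N : ℝ} {a : Fin m → ℂ} {b c : ℕ → ℂ} {X : ℂ → ℂ} (h : Raw m r N a b c X)
    (ha : ∀ j, -1 / 2 < (a j).re) : LFunction where
  m := m
  Q := N
  α := a
  r := r
  b := b
  c := c
  w := h.fe.choose
  Λ := X
  one_le_m := h.hm
  one_le_Q := h.hN
  α_re := ha
  r_le := h.hr
  b_one := h.one
  c_bound := fun n hn => by
    refine (h.cb n).trans (le_mul_of_one_le_right (Nat.cast_nonneg _) ?_)
    rw [Real.one_le_sqrt]
    exact_mod_cast Nat.one_le_iff_ne_zero.2 hn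
  euler := h.conv
  w_norm := h.fe.choose_spec.1
  entire := h.entire
  order := h.order
  fe := fun s => by
    rw [h.fe.choose_spec.2 (1 - s), map_sub, map_one, sub_sub_cancel]
  dirichlet := h.eq

/-- two solutions of the convolution equation agree at prime powers -/
lemma conv_uniq {b c c' : ℕ → ℂ} (h1 : b 1 = 1) (h : Conv b c) (h' : Conv b c') (n : ℕ) :
    ((ArithmeticFunction.vonMangoldt n : ℝ) : ℂ) * c n = ((ArithmeticFunction.vonMangoldt n : ℝ) : ℂ) * c' n := by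
  induction n using Nat.strong_induction_on with
  | _ n ih =>
    rcases Nat.eq_zero_or_pos n with rfl | hn
    · simp
    · have e1 := h n hn.ne'
      have e2 := h' n hn.ne'
      rw [e1] at e2
      rw [← Nat.cons_self_properDivisors hn.ne', Finset.sum_cons, Finset.sum_cons, Nat.div_self hn, h1, mul_one, mul_one] at e2
      have e3 : ∑ d ∈ n.properDivisors, ((ArithmeticFunction.vonMangoldt d : ℝ) : ℂ) * c d * b (n / d) =
          ∑ d ∈ n.properDivisors, ((ArithmeticFunction.vonMangoldt d : ℝ) : ℂ) * c' d * b (n / d) :=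
        Finset.sum_congr rfl fun d hd => by rw [ih d (Nat.mem_properDivisors.1 hd).2]
      rw [e3] at e2
      exact add_right_cancel e2

lemma ts_expl (s e : ℂ) (b : ℕ → ℂ) (h0 : b 0 = 1) (h1 : b 1 = s) (hr : ∀ k, b (k + 2) = s * b (k + 1) - e * b k) (k : ℕ) :
    ts s e (k + 2) = b (k + 2) - e * b k ∧ ts s e (k + 3) = b (k + 3) - e * b (k + 1) := by
  induction k with
  | zero =>
    have e2 := hr 0
    have e3 := hr 1
    simp only [zero_add] at e2 e3 ⊢
    have t2 : ts s e 2 = s * s - e * 2 := rfl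
    have t3 : ts s e 3 = s * (s * s - e * 2) - e * s := rfl
    rw [t2, t3, e3, e2, h1, h0]
    constructor <;> ring
  | succ k ih =>
    refine ⟨ih.2, ?_⟩
    have t4 : ts s e (k + 1 + 3) = s * ts s e (k + 3) - e * ts s e (k + 2) := rfl
    have e4 := hr (k + 2)
    have e2 := hr k
    rw [t4, ih.1, ih.2, show k + 1 + 3 = k + 2 + 2 by ring, e4, show k + 1 + 1 = k + 2 by ring, e2]
    rw [show k + 2 + 1 = k + 3 by ring]
    ring

/-- the traces of the powers of Frobenius, from the coefficients -/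
noncomputable def trF (N : ℕ) (a : ℕ → ℂ) (n : ℕ) : ℂ :=
  a n - if n.minFac ∣ N then 0 else (n.minFac : ℂ) * a (n / n.minFac ^ 2)

/-- Weil's form of an elliptic curve -/
noncomputable def WE (N : ℕ) (t : ℕ → ℂ) (a : ℝ) (f : ℝ → ℂ) : ℝ :=
  1 / (2 * Real.pi) * (∫ x : ℝ, (Real.log N - 2 * Real.log (2 * Real.pi) + 2 * (digamma (1 + x * I)).re) *
    ‖MC 1 f (1 + x * I)‖ ^ 2) -
  2 * (∑ n ∈ Finset.Icc 1 ⌊Real.exp (2 * a)⌋₊, ArithmeticFunction.vonMangoldt n / n * t n *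
    ∫ x : ℝ, f (x + Real.log n) * (starRingEnd ℂ) (f x)).re

section

variable {N : ℕ} {f : CuspForm (Gamma0 N : Subgroup (GL (Fin 2) ℝ)) 2} {w : ℝ}

/-- the traces, normalised -/
noncomputable def cN (f : CuspForm (Gamma0 N : Subgroup (GL (Fin 2) ℝ)) 2) (n : ℕ) : ℂ :=
  lam2 f n - if n.minFac ∣ N then 0 else lam2 f (n / n.minFac ^ 2)

lemma lam2_zero (f : CuspForm (Gamma0 N : Subgroup (GL (Fin 2) ℝ)) 2) : lam2 f 0 = 0 := by
  unfold lam2
  rw [Nat.cast_zero, Real.zero_rpow (by norm_num), Complex.ofReal_zero, mul_zero]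

lemma lam2_pow (hf : IsForm N f w) {p : ℕ} (hp : p.Prime) (k : ℕ) :
    lam2 f (p ^ (k + 2)) = lam2 f p * lam2 f (p ^ (k + 1)) - (if p ∣ N then 0 else 1) * lam2 f (p ^ k) := by
  have hp0 : (0 : ℝ) < p := by exact_mod_cast hp.pos
  have hr : (p : ℝ) ^ (-(1 / 2 : ℝ)) = 1 / Real.sqrt p := by
    rw [Real.rpow_neg hp0.le, ← Real.sqrt_eq_rpow, one_div]
  have hpp : ∀ k : ℕ, (((p ^ (k + 1) : ℕ) : ℝ) ^ (-(1 / 2 : ℝ)) : ℝ) =
      (p : ℝ) ^ (-(1 / 2 : ℝ)) * ((p ^ k : ℕ) : ℝ) ^ (-(1 / 2 : ℝ)) := fun k => by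
    rw [← Real.mul_rpow hp0.le (Nat.cast_nonneg _)]
    congr 1
    push_cast
    ring
  have hsq : (p : ℝ) * ((p : ℝ) ^ (-(1 / 2 : ℝ)) * (p : ℝ) ^ (-(1 / 2 : ℝ))) = 1 := by
    rw [hr]
    have h1 := Real.mul_self_sqrt hp0.le
    have h2 := Real.sqrt_pos.2 hp0
    field_simp
    nlinarith
  have hsqc : (p : ℂ) * ((((p : ℝ) ^ (-(1 / 2 : ℝ)) : ℝ) : ℂ) * (((p : ℝ) ^ (-(1 / 2 : ℝ)) : ℝ) : ℂ)) = 1 := by
    exact_mod_cast hsq
  have h2 := hf.pow p k hp
  unfold coef at h2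
  unfold lam2
  rw [h2, hpp (k + 1), hpp k]
  simp only [Complex.ofReal_mul]
  split_ifs with h
  · ring
  · linear_combination (-(qExpansion 1 f).coeff (p ^ k) * (((p ^ k : ℕ) : ℝ) ^ (-(1 / 2 : ℝ)) : ℝ)) * hsqc

theorem conv_cN (hf : IsForm N f w) : Conv (lam2 f) (cN f) := by
  have hE := eu2_of hf
  intro n hn
  refine gen_log (lam2 f) (fun p => if p ∣ N then 0 else 1) (cN f) hE.one hE.mul (fun p hp k => lam2_pow hf hp k)
    (fun p hp k => ?_) n hn
  have h2 : (p ^ (k + 1)).minFac = p := hp.pow_minFac (Nat.succ_ne_zero k)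
  unfold cN
  rw [h2]
  rcases k with _ | k
  · have h3 : p ^ (0 + 1) / p ^ 2 = 0 := by
      rw [zero_add, pow_one]
      exact Nat.div_eq_of_lt (by nlinarith [hp.two_le])
    rw [h3, lam2_zero, zero_add, pow_one]
    have h4 : ts (lam2 f p) (if p ∣ N then 0 else 1) 1 = lam2 f p := rfl
    rw [h4]
    split_ifs <;> ring
  · have h3 : p ^ (k + 1 + 1) / p ^ 2 = p ^ k := by
      rw [show k + 1 + 1 = k + 2 by ring, pow_add]
      exact Nat.mul_div_cancel _ (by positivity [hp.pos])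
    rw [h3]
    have h4 := (ts_expl (lam2 f p) (if p ∣ N then 0 else 1) (fun j => lam2 f (p ^ j)) (by simp only [pow_zero]; exact hE.one)
      (by simp only [pow_one]) (fun j => lam2_pow hf hp j) k).1
    rw [show k + 1 + 1 = k + 2 by ring, h4]
    split_ifs <;> ring

lemma cN_eq [NeZero N] (f : CuspForm (Gamma0 N : Subgroup (GL (Fin 2) ℝ)) 2) (n : ℕ) :
    ((ArithmeticFunction.vonMangoldt n : ℝ) : ℂ) / ((Real.sqrt n : ℝ) : ℂ) * cN f n =
      ((ArithmeticFunction.vonMangoldt n : ℝ) : ℂ) / n * trF N (coef f) n := by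
  by_cases hpp : IsPrimePow n
  · obtain ⟨p, k, hp, hk, rfl⟩ := hpp
    have hp' : p.Prime := hp.nat_prime
    have hp0 : (0 : ℝ) < p := by exact_mod_cast hp'.pos
    have h2 : (p ^ k).minFac = p := hp'.pow_minFac hk.ne'
    have hn0 : (0 : ℝ) < ((p ^ k : ℕ) : ℝ) := by exact_mod_cast pow_pos hp'.pos k
    have hl : ∀ n : ℕ, 0 < n → lam2 f n = coef f n / ((Real.sqrt n : ℝ) : ℂ) := by
      intro n hn
      unfold lam2 coef
      rw [Real.rpow_neg (Nat.cast_nonneg _), ← Real.sqrt_eq_rpow, div_eq_mul_inv]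
      push_cast
      rfl
    have hs : ((Real.sqrt ((p ^ k : ℕ) : ℝ) : ℝ) : ℂ) * ((Real.sqrt ((p ^ k : ℕ) : ℝ) : ℝ) : ℂ) = ((p ^ k : ℕ) : ℂ) := by
      rw [← Complex.ofReal_mul, Real.mul_self_sqrt hn0.le]
      simp
    have hs0 : ((Real.sqrt ((p ^ k : ℕ) : ℝ) : ℝ) : ℂ) ≠ 0 := by
      have := Real.sqrt_pos.2 hn0
      exact_mod_cast this.ne'
    have key : cN f (p ^ k) = trF N (coef f) (p ^ k) / ((Real.sqrt ((p ^ k : ℕ) : ℝ) : ℝ) : ℂ) := by
      unfold cN trF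
      rw [h2, hl _ (pow_pos hp'.pos k)]
      split_ifs with hN
      · ring
      · rcases Nat.lt_or_ge k 2 with hk2 | hk2
        · have h3 : p ^ k / p ^ 2 = 0 := Nat.div_eq_of_lt (Nat.pow_lt_pow_right hp'.one_lt hk2)
          have h4 : coef f 0 = 0 := by
            unfold coef
            exact Pool.Agent.W355.UN.coeff_zero0 f
          rw [h3, lam2_zero, h4]
          ring
        · obtain ⟨j, rfl⟩ := Nat.exists_eq_add_of_le hk2
          have h3 : p ^ (2 + j) / p ^ 2 = p ^ j := by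
            rw [pow_add, mul_comm]
            exact Nat.mul_div_cancel _ (by have := hp'.pos; positivity)
          have h5 : ((Real.sqrt ((p ^ (2 + j) : ℕ) : ℝ) : ℝ) : ℂ) = p * ((Real.sqrt ((p ^ j : ℕ) : ℝ) : ℝ) : ℂ) := by
            have : Real.sqrt ((p ^ (2 + j) : ℕ) : ℝ) = p * Real.sqrt ((p ^ j : ℕ) : ℝ) := by
              push_cast
              rw [pow_add, Real.sqrt_mul (by positivity), Real.sqrt_sq hp0.le]
            rw [this]
            push_cast
            rfl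
          have hpc : (p : ℂ) ≠ 0 := by exact_mod_cast hp'.ne_zero
          have hj0 : ((Real.sqrt ((p ^ j : ℕ) : ℝ) : ℝ) : ℂ) ≠ 0 := by
            have h6 : (0 : ℝ) < ((p ^ j : ℕ) : ℝ) := by exact_mod_cast pow_pos hp'.pos j
            have := Real.sqrt_pos.2 h6
            exact_mod_cast this.ne'
          rw [h3, hl _ (pow_pos hp'.pos j), h5]
          field_simp
    rw [key, ← hs]
    field_simp
  · have h0 : ArithmeticFunction.vonMangoldt n = 0 := ArithmeticFunction.vonMangoldt_eq_zero_iff.2 hpp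
    rw [h0]
    simp

open Pool.Agent.W355.UN (facE fac_eq cser prod_get Pk.uniq)

lemma one_apply1 (n : ℕ) : (1 : DirichletCharacter ℂ 1) ((n : ℕ) : ZMod 1) = 1 := by
  have h : ((n : ℕ) : ZMod 1) = 1 := Subsingleton.elim _ _
  rw [h, map_one]

/-- the L-function of an elliptic curve -/
theorem exE [NeZero N] (hf : IsForm N f w) {Λ : ℂ → ℂ} (hd : Differentiable ℂ Λ)
    (hs : ∀ s : ℂ, 2 < s.re → Λ s = ((Real.sqrt N / (2 * Real.pi) : ℝ) : ℂ) ^ s * Complex.Gamma s *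
      ∑' n : ℕ, coef f (n + 1) * ((n + 1 : ℕ) : ℂ) ^ (-s)) :
    ∃ L : LFunction, (∀ (a : ℝ) (g : ℝ → ℂ), W L a g = WE N (trF N (coef f)) a g) ∧ SelfDual L ∧
      ∃ k : ℂ, k ≠ 0 ∧ ∀ s, L.Λ s = k * Λ (s + (1 - 1 / 2)) := by
  have hE := eu2_of hf
  have hN : (0 : ℝ) < N := by exact_mod_cast Nat.pos_of_ne_zero (NeZero.ne N)
  obtain ⟨c, X, h⟩ := tw_raw (f := f) hE (isNewf_of hf) (1 : DirichletCharacter ℂ 1)
    (DirichletCharacter.isPrimitive_one_level_one) (Nat.coprime_one_left N)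
  have e1 : (fun n : ℕ => (1 : DirichletCharacter ℂ 1) ((n : ℕ) : ZMod 1) * lam2 f n) = lam2 f := by
    funext n
    rw [one_apply1, one_mul]
  have e2 : (N : ℝ) * ((1 : ℕ) : ℝ) ^ 2 = N := by simp
  have hcs : ∀ s : ℂ, cser 0 ((N : ℝ) * ((1 : ℕ) : ℝ) ^ 2) [(((1 / 2 : ℝ)) : ℂ), (((3 / 2 : ℝ)) : ℂ)]
      (fun n => (1 : DirichletCharacter ℂ 1) (n : ZMod 1) * lam2 f n) s =
      cser 0 N [(((1 / 2 : ℝ)) : ℂ), (((3 / 2 : ℝ)) : ℂ)] (lam2 f) s := fun s => by rw [e1, e2]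
  have hfac := fun (s : ℂ) (hs : 1 < s.re) => fac_eq (N := N) hE one_pos (1 : DirichletCharacter ℂ 1) hs
  rw [e1, e2] at h
  have ha : ∀ j : Fin ([(((1 / 2 : ℝ)) : ℂ), (((3 / 2 : ℝ)) : ℂ)]).length,
      -1 / 2 < (([(((1 / 2 : ℝ)) : ℂ), (((3 / 2 : ℝ)) : ℂ)]).get j).re := by
    intro j
    have := List.get_mem [(((1 / 2 : ℝ)) : ℂ), (((3 / 2 : ℝ)) : ℂ)] j
    simp only [List.mem_cons, List.not_mem_nil, or_false] at this
    rcases this with h | h <;> rw [h, Complex.ofReal_re] <;> norm_num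
  have hi : ∀ j : Fin ([(((1 / 2 : ℝ)) : ℂ), (((3 / 2 : ℝ)) : ℂ)]).length,
      (([(((1 / 2 : ℝ)) : ℂ), (((3 / 2 : ℝ)) : ℂ)]).get j).im = 0 := by
    intro j
    have := List.get_mem [(((1 / 2 : ℝ)) : ℂ), (((3 / 2 : ℝ)) : ℂ)] j
    simp only [List.mem_cons, List.not_mem_nil, or_false] at this
    rcases this with h | h <;> rw [h, Complex.ofReal_im]
  refine ⟨ofRaw h ha, fun a g => ?_, ?_, 2 * ((Real.sqrt N : ℝ) : ℂ) ^ (-(1 / 2) : ℂ), ?_, fun s => ?_⟩
  · unfold W WE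
    have e3 : (ofRaw h ha).r = 0 := rfl
    have e4 : (ofRaw h ha).Q = N := rfl
    rw [e3, e4, Nat.cast_zero, mul_zero, zero_mul, zero_add]
    congr 1
    · congr 1
      refine integral_congr_ae (Eventually.of_forall fun t => ?_)
      simp only [mc_line]
      congr 1
      have e5 : ∑ j, ((digamma ((1 / 2 + t * I + (ofRaw h ha).α j) / 2)).re - Real.log Real.pi) =
          ((digamma ((1 + t * I) / 2)).re - Real.log Real.pi) + ((digamma ((2 + t * I) / 2)).re - Real.log Real.pi) := by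
        show ∑ j : Fin 2, ((digamma ((1 / 2 + t * I + ([(((1 / 2 : ℝ)) : ℂ), (((3 / 2 : ℝ)) : ℂ)]).get j) / 2)).re - Real.log Real.pi) = _
        rw [Fin.sum_univ_two]
        congr 3
        · congr 2
          show 1 / 2 + t * I + (((1 / 2 : ℝ)) : ℂ) = _
          push_cast
          ring
        · congr 2
          show 1 / 2 + t * I + (((3 / 2 : ℝ)) : ℂ) = _
          push_cast
          ring
      rw [e5]
      have e6 := digamma_dup (t := t)
      have e7 : Real.log (2 * Real.pi) = Real.log 2 + Real.log Real.pi := Real.log_mul (by norm_num) Real.pi_pos.ne'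
      rw [e7]
      linarith
    · refine congrArg (fun z : ℂ => 2 * z.re) (Finset.sum_congr rfl fun n _ => ?_)
      congr 1
      show ((ArithmeticFunction.vonMangoldt n : ℝ) : ℂ) / ((Real.sqrt n : ℝ) : ℂ) * c n = _
      rw [← cN_eq, div_mul_eq_mul_div, div_mul_eq_mul_div, conv_uniq hE.one h.conv (conv_cN hf) n]
  · obtain ⟨L, hL⟩ : ∃ L : LFunction, L = ofRaw h ha := ⟨_, rfl⟩
    refine ⟨(ofRaw h ha).w, fun h0 => ?_, fun s => ?_⟩
    · have := (ofRaw h ha).w_norm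
      rw [h0, norm_zero] at this
      exact zero_ne_one this
    · refine Pool.Agent.Q240.CG.real_fe (ofRaw h ha).one_le_Q (ofRaw h ha).entire (ofRaw h ha).fe (ofRaw h ha).dirichlet
        (fun n => ?_) (fun j => hi j) s
      show (lam2 f n).im = 0
      unfold lam2
      rw [Complex.mul_im, Complex.ofReal_im, mul_zero, zero_add]
      have := hf.real n
      unfold coef at this
      rw [this, zero_mul]
  · refine mul_ne_zero two_ne_zero ?_
    rw [Ne, Complex.cpow_eq_zero_iff]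
    have := Real.sqrt_pos.2 hN
    exact fun h => this.ne' (by exact_mod_cast h.1)
  · have hd2 : Differentiable ℂ fun s : ℂ => 2 * ((Real.sqrt N : ℝ) : ℂ) ^ (-(1 / 2) : ℂ) * Λ (s + (1 - 1 / 2)) :=
      (hd.comp (by fun_prop : Differentiable ℂ fun s : ℂ => s + (1 - 1 / 2))).const_mul _
    have h1 : ∃ σ : ℝ, ∀ s : ℂ, σ ≤ s.re → X s = cser 0 N [(((1 / 2 : ℝ)) : ℂ), (((3 / 2 : ℝ)) : ℂ)] (lam2 f) s := by
      obtain ⟨σ, hσ⟩ := h.eq
      refine ⟨σ, fun s hs => ?_⟩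
      rw [hσ s hs]
      unfold cser
      rfl
    have h2 : ∃ σ : ℝ, ∀ s : ℂ, σ ≤ s.re → 2 * ((Real.sqrt N : ℝ) : ℂ) ^ (-(1 / 2) : ℂ) * Λ (s + (1 - 1 / 2)) =
        cser 0 N [(((1 / 2 : ℝ)) : ℂ), (((3 / 2 : ℝ)) : ℂ)] (lam2 f) s := by
      refine ⟨2, fun s hs1 => ?_⟩
      rw [← hcs, hfac s (by linarith)]
      have e8 : s + (1 - 1 / 2) = s + 1 / 2 := by ring
      have hs2 : 2 < (s + 1 / 2).re := by
        rw [Complex.add_re]
        norm_num
        linarith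
      rw [e8, hs _ hs2]
      unfold facE
      simp only [one_apply1, mul_one, Nat.cast_one]
    exact congrFun (Pk.uniq hd2 h.entire h2 h1) s

end

end Pool.Agent.Q286.TR
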