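import Pool.Agent.Q286.TR.Cls
import Pool.Agent.Q286.TR.EQ
import Pool.Agent.Q246.HW.Base
import Pool.Agent.TH839.NA.Form

set_option autoImplicit false

/-!
# The trichotomy for Hasse-Weil L-functions attached to newforms
-/

namespace Pool.Agent.Q286.TR

open UpperHalfPlane hiding I
open MatrixGroups CongruenceSubgroup
open Complex MeasureTheory Filter Topology
open Pool.Agent.TH839.NA (RawT RawTL nf_rawT)
open Pool.Agent.W355.UN (Conv prod_get)
open Pool.Agent.W355.LJ (IsNF)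
open Pool.Agent.H304R3.HK (ts gen_log)
open Pool.Agent.Q246.HW (Newform IsNewform Attached IsWeil IsCompleted conv)
open Pool.Agent.Q246.NC (nco nco_eq frm_newfC frm_euler)

lemma ts_scale (s e x : ℂ) : ∀ k : ℕ, ts (x * s) (x ^ 2 * e) k = x ^ k * ts s e k ∧
    ts (x * s) (x ^ 2 * e) (k + 1) = x ^ (k + 1) * ts s e (k + 1) := by
  intro k
  induction k with
  | zero =>
    refine ⟨?_, ?_⟩
    · show (2 : ℂ) = x ^ 0 * 2
      simp
    · show x * s = x ^ (0 + 1) * s
      simp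
  | succ k ih =>
    refine ⟨ih.2, ?_⟩
    show x * s * ts (x * s) (x ^ 2 * e) (k + 1) - x ^ 2 * e * ts (x * s) (x ^ 2 * e) k =
      x ^ (k + 1 + 1) * (s * ts s e (k + 1) - e * ts s e k)
    rw [ih.1, ih.2]
    ring

lemma ts_pow (u v : ℂ) : ∀ k : ℕ, ts (u + v) (u * v) k = u ^ k + v ^ k ∧
    ts (u + v) (u * v) (k + 1) = u ^ (k + 1) + v ^ (k + 1) := by
  intro k
  induction k with
  | zero =>
    refine ⟨?_, ?_⟩
    · show (2 : ℂ) = _
      rw [pow_zero, pow_zero]
      norm_num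
    · show u + v = _
      rw [zero_add, pow_one, pow_one]
  | succ k ih =>
    refine ⟨ih.2, ?_⟩
    show (u + v) * ts (u + v) (u * v) (k + 1) - u * v * ts (u + v) (u * v) k = _
    rw [ih.1, ih.2]
    ring

open Polynomial in
/-- the power sums are determined by the polynomial -/
theorem psum_eq {S S' : Multiset ℂ} (h : ∀ T : ℂ, (S.map fun α => 1 - α * T).prod = (S'.map fun α => 1 - α * T).prod)
    {k : ℕ} (hk : 1 ≤ k) : (S.map fun α => α ^ k).sum = (S'.map fun α => α ^ k).sum := by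
  have key : ∀ S : Multiset ℂ, (S.map fun α => α ^ k).sum =
      (((S.map fun α : ℂ => (1 - C α * X : ℂ[X])).prod.roots).map fun β : ℂ => β⁻¹ ^ k).sum := by
    intro S
    have h0 : (0 : ℂ[X]) ∉ S.map fun α : ℂ => (1 - C α * X : ℂ[X]) := by
      rw [Multiset.mem_map]
      rintro ⟨α, -, hα⟩
      have := congrArg (fun p : ℂ[X] => p.eval 0) hα
      simp at this
    rw [Polynomial.roots_multiset_prod _ h0, Multiset.map_bind, Multiset.sum_bind, Multiset.map_map]
    refine congrArg Multiset.sum (Multiset.map_congr rfl fun α _ => ?_)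
    show α ^ k = (((1 - C α * X : ℂ[X]).roots).map fun β : ℂ => β⁻¹ ^ k).sum
    rcases eq_or_ne α 0 with rfl | hα
    · have e : (1 - C (0 : ℂ) * X : ℂ[X]) = C 1 := by simp
      rw [e, Polynomial.roots_C]
      simp [show k ≠ 0 by omega]
    · have e : (1 - C α * X : ℂ[X]) = C (-α) * (X - C α⁻¹) := by
        rw [mul_sub, ← C_mul, neg_mul, mul_inv_cancel₀ hα]
        simp only [map_neg, map_one]
        ring
      rw [e, Polynomial.roots_C_mul _ (neg_ne_zero.2 hα), Polynomial.roots_X_sub_C]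
      simp
  have hp : ∀ S : Multiset ℂ, ∀ T : ℂ, (S.map fun α : ℂ => (1 - C α * X : ℂ[X])).prod.eval T = (S.map fun α => 1 - α * T).prod := by
    intro S T
    rw [Polynomial.eval_multiset_prod, Multiset.map_map]
    refine congrArg Multiset.prod (Multiset.map_congr rfl fun α _ => ?_)
    simp
  rw [key S, key S']
  have : (S.map fun α : ℂ => (1 - C α * X : ℂ[X])).prod = (S'.map fun α : ℂ => (1 - C α * X : ℂ[X])).prod :=
    Polynomial.funext fun T => by rw [hp, hp, h T]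
  rw [this]

/-- a product of Euler polynomials of degree two -/
theorem psum_list {ι : Type*} {S : Multiset ℂ} (l : List ι) (s e : ι → ℂ)
    (h : ∀ T : ℂ, (S.map fun α => 1 - α * T).prod = (l.map fun g => 1 - s g * T + e g * T ^ 2).prod)
    {k : ℕ} (hk : 1 ≤ k) : (S.map fun α => α ^ k).sum = (l.map fun g => ts (s g) (e g) k).sum := by
  choose u v huv hprod using fun g => Pool.Agent.TH839.NA.exists_roots (s g) (e g)
  obtain ⟨S', hS'⟩ : ∃ S' : Multiset ℂ, S' = ((l.map u : List ℂ) : Multiset ℂ) + ((l.map v : List ℂ) : Multiset ℂ) := ⟨_, rfl⟩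
  have h1 : ∀ T : ℂ, (S'.map fun α => 1 - α * T).prod = (l.map fun g => 1 - s g * T + e g * T ^ 2).prod := by
    intro T
    rw [hS', Multiset.map_add, Multiset.prod_add, Multiset.map_coe, Multiset.map_coe, Multiset.prod_coe, Multiset.prod_coe,
      List.map_map, List.map_map, ← List.prod_map_mul]
    refine congrArg List.prod (List.map_congr_left fun g _ => ?_)
    simp only [Function.comp_apply]
    rw [← huv, ← hprod]
    ring
  rw [psum_eq (S' := S') (fun T => by rw [h T, h1 T]) hk, hS', Multiset.map_add, Multiset.sum_add, Multiset.map_coe,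
    Multiset.map_coe, Multiset.sum_coe, Multiset.sum_coe, List.map_map, List.map_map, ← List.sum_map_add]
  refine congrArg List.sum (List.map_congr_left fun g _ => ?_)
  have e1 := (ts_pow (u g) (v g) k).1
  rw [huv, hprod] at e1
  rw [e1]
  rfl

/-! ### One newform -/

/-- the traces, normalised -/
noncomputable def tn (g : Newform) (n : ℕ) : ℂ :=
  ts (nco g.f n.minFac) (g.ψ ((n.minFac : ℕ) : ZMod g.N)) (n.factorization n.minFac)

lemma frmG (g : Newform) : Pool.Agent.Y671.GL.Frm g.k g.N (fun p => g.ψ (p : ZMod g.N)) (nco g.f) := by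
  have : NeZero g.N := ⟨by have := g.N_pos; omega⟩
  obtain ⟨η, hf⟩ := conv g
  have h := frm_newfC g.k_pos hf
  have e : W388.lamC g.f = nco g.f := funext fun n => (nco_eq g.f n).symm
  rw [e] at h
  exact h

theorem conv_tn (g : Newform) : Conv (nco g.f) (tn g) := by
  have h := frmG g
  intro n hn
  refine gen_log (nco g.f) (fun p => g.ψ ((p : ℕ) : ZMod g.N)) (tn g) h.one h.mul (fun p hp k => h.pow p k hp)
    (fun p hp k => ?_) n hn
  unfold tn
  rw [hp.pow_minFac (Nat.succ_ne_zero k), hp.factorization_pow, Finsupp.single_eq_same]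

/-- the traces from the raw data -/
theorem isTr_raw {l : List ℂ} {r : ℕ} {Q : ℝ} {b c : ℕ → ℂ} {X : ℂ → ℂ} (w : RawTL (1 / 2) l r Q b c X) :
    IsTr (LSeries b) c := by
  refine ⟨4, fun s hs => ?_⟩
  have h3 : 3 < s.re := by linarith
  have h5 := (RawT.coef w (s := s) (by linarith)).2.2
  have h12 : LSeries (fun n => ((ArithmeticFunction.vonMangoldt n : ℝ) : ℂ) * (c n * Pool.Agent.TH839.NA.pw (-(1 / 2)) n))
      (s - ((1 / 2 : ℝ) : ℂ)) = LSeries (fun n => ((ArithmeticFunction.vonMangoldt n : ℝ) : ℂ) * c n) s := by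
    unfold LSeries
    refine tsum_congr fun n => ?_
    rw [← Pool.Agent.TH839.NA.term_shift _ (1 / 2) s n]
    simp only [mul_assoc]
  rw [h5, neg_neg, h12]
  refine hasSum_of ?_
  refine LSeriesSummable_of_le_const_mul_rpow (x := 5 / 2) (by linarith) ⟨l.length, fun n hn => ?_⟩
  have h7 := w.cb n
  have hn0 : (0 : ℝ) < n := by exact_mod_cast Nat.pos_of_ne_zero hn
  have h8 : ArithmeticFunction.vonMangoldt n ≤ Real.log n := ArithmeticFunction.vonMangoldt_le_log
  have h9 : Real.log n ≤ n := (Real.log_le_sub_one_of_pos hn0).trans (by linarith)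
  rw [norm_mul, Complex.norm_real, Real.norm_of_nonneg ArithmeticFunction.vonMangoldt_nonneg]
  have h10 : (n : ℝ) ^ ((5 / 2 : ℝ) - 1) = n * (n : ℝ) ^ (1 / 2 : ℝ) := by
    rw [show (5 / 2 : ℝ) - 1 = 1 + 1 / 2 by norm_num, Real.rpow_add hn0, Real.rpow_one]
  rw [h10]
  have h11 : 0 ≤ (l.length : ℝ) * (n : ℝ) ^ (1 / 2 : ℝ) := by positivity
  calc ArithmeticFunction.vonMangoldt n * ‖c n‖ ≤ n * ((l.length : ℝ) * (n : ℝ) ^ (1 / 2 : ℝ)) := by
        apply mul_le_mul (h8.trans h9) h7 (norm_nonneg _) hn0.le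
    _ = _ := by ring

lemma IsTr.congr_tr {G : ℂ → ℂ} {t t' : ℕ → ℂ} (h : IsTr G t)
    (e : ∀ n, ((ArithmeticFunction.vonMangoldt n : ℝ) : ℂ) * t n = ((ArithmeticFunction.vonMangoldt n : ℝ) : ℂ) * t' n) :
    IsTr G t' := by
  obtain ⟨σ, h⟩ := h
  refine ⟨σ, fun s hs => ?_⟩
  simp only [← e]
  exact h s hs

/-- the L-function of one newform -/
theorem inT_newf (g : Newform) {i : ℕ} (h1 : g.k ≤ i + 1) (h2 : 2 ∣ i + 1 - g.k) :
    InT 0 g.N (fun s => Gammaℂ (s + i / 2 - g.twist i)) (LSeries (nco g.f)) ∧ IsTr (LSeries (nco g.f)) (tn g) ∧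
      ∀ s : ℂ, 2 ≤ s.re → DifferentiableAt ℂ (LSeries (nco g.f)) s ∧ LSeries (nco g.f) s ≠ 0 := by
  have : NeZero g.N := ⟨by have := g.N_pos; omega⟩
  have hg := g.isNewform
  obtain ⟨w, hw, hfr⟩ := hg.fricke
  obtain ⟨c, X, h⟩ := nf_rawT g.f (w := w) g.k_pos ⟨hg.one, hw, hfr⟩ hg.mul
    (fun p hp => ⟨g.ψ (p : ZMod g.N) * (p : ℂ) ^ (g.k - 1), fun j => hg.pow p j hp⟩)
  have h' : RawTL (1 / 2) [(((((g.k : ℝ) - 1) / 2) : ℝ) : ℂ), (((((g.k : ℝ) + 1) / 2) : ℝ) : ℂ)] 0 g.N (nco g.f) c X := h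
  have hk1 : (1 : ℝ) ≤ g.k := by exact_mod_cast g.k_pos
  have htw : (g.twist i : ℂ) = (i + 1 - g.k) / 2 := by
    unfold Newform.twist
    rw [Nat.cast_div h2 (by norm_num), Nat.cast_sub h1]
    push_cast
    rfl
  refine ⟨⟨_, _, _, _, h', fun α hα => ?_, fun s => ?_, 0, fun _ _ => rfl⟩,
    (isTr_raw h').congr_tr fun n => conv_uniq (frmG g).one h'.conv (conv_tn g) n, fun s hs => ?_⟩
  · simp only [List.mem_cons, List.not_mem_nil, or_false] at hα
    rcases hα with rfl | rfl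
    · rw [Complex.ofReal_re]
      linarith
    · rw [Complex.ofReal_re]
      linarith
  · simp only [List.map_cons, List.map_nil, List.prod_cons, List.prod_nil, mul_one]
    rw [htw]
    have e1 : s + (i : ℂ) / 2 - (i + 1 - g.k) / 2 = s + ((((g.k : ℝ) - 1) / 2 : ℝ) : ℂ) := by
      push_cast
      ring
    have e2 : s + (((((g.k : ℝ) + 1) / 2) : ℝ) : ℂ) = s + ((((g.k : ℝ) - 1) / 2 : ℝ) : ℂ) + 1 := by
      push_cast
      ring
    rw [e1, e2, Gammaℝ_mul_Gammaℝ_add_one]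
  · exact ⟨RawT.lser_an h' (by norm_num at hs ⊢; linarith), (RawT.coef h' (s := s) (by norm_num at hs ⊢; linarith)).2.1⟩

theorem isTr_list {ι : Type*} (G : ι → ℂ → ℂ) (t : ι → ℕ → ℂ) (l : List ι) (h : ∀ g ∈ l, IsTr (G g) (t g))
    (hd : ∀ g ∈ l, ∀ s : ℂ, 2 ≤ s.re → DifferentiableAt ℂ (G g) s ∧ G g s ≠ 0) :
    IsTr (fun s => (l.map fun g => G g s).prod) (fun n => (l.map fun g => t g n).sum) ∧
      ∀ s : ℂ, 2 ≤ s.re → DifferentiableAt ℂ (fun s => (l.map fun g => G g s).prod) s ∧ (l.map fun g => G g s).prod ≠ 0 := by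
  induction l with
  | nil =>
    refine ⟨⟨0, fun s _ => ?_⟩, fun s _ => ?_⟩
    · simp only [List.map_nil, List.prod_nil, List.sum_nil, mul_zero, zero_mul]
      have e : logDeriv (fun _ : ℂ => (1 : ℂ)) s = 0 := by
        rw [logDeriv_apply, deriv_const, zero_div]
      rw [e, neg_zero]
      exact hasSum_zero
    · simp
  | cons a l ih =>
    obtain ⟨⟨σ1, h1⟩, h2⟩ := ih (fun g hg => h g (by simp [hg])) (fun g hg => hd g (by simp [hg]))
    obtain ⟨σ2, h3⟩ := h a (by simp)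
    have h4 := hd a (by simp)
    refine ⟨⟨max (max σ1 σ2) 2, fun s hs => ?_⟩, fun s hs => ?_⟩
    · have hs1 := (le_max_left _ _).trans ((le_max_left _ _).trans hs)
      have hs2 := (le_max_right _ _).trans ((le_max_left _ _).trans hs)
      have hs3 := (le_max_right _ _).trans hs
      simp only [List.map_cons, List.prod_cons, List.sum_cons]
      rw [logDeriv_mul (f := G a) (g := fun s => (l.map fun g => G g s).prod) s (h4 s hs3).2 (h2 s hs3).2 (h4 s hs3).1 (h2 s hs3).1,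
        neg_add]
      refine ((h3 s hs2).add (h1 s hs1)).congr_fun fun n => ?_
      ring
    · simp only [List.map_cons, List.prod_cons]
      exact ⟨(h4 s hs).1.mul (h2 s hs).1, mul_ne_zero (h4 s hs).2 (h2 s hs).2⟩

/-! ### The cohomology -/

/-- Weil's form of `H^i` -/
noncomputable def WH (i : ℕ) (A : ℝ) (γ : ℂ → ℂ) (t : ℕ → ℂ) (a : ℝ) (f : ℝ → ℂ) : ℝ :=
  1 / (2 * Real.pi) * (∫ x : ℝ, (Real.log A + 2 * (logDeriv γ (((i : ℂ) + 1) / 2 + x * I)).re) *
    ‖MC (((i : ℂ) + 1) / 2) f (((i : ℂ) + 1) / 2 + x * I)‖ ^ 2) -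
  2 * (∑ n ∈ Finset.Icc 1 ⌊Real.exp (2 * a)⌋₊,
    ArithmeticFunction.vonMangoldt n / (((n : ℝ) ^ (((i : ℝ) + 1) / 2) : ℝ) : ℂ) * t n *
    ∫ x : ℝ, f (x + Real.log n) * (starRingEnd ℂ) (f x)).re

/-- the traces of Frobenius -/
noncomputable def trH (N i : ℕ) (R : ℕ → ℕ → Multiset ℂ) (l : List Newform) (p k : ℕ) : ℂ :=
  if p ∣ N then (l.map fun g => ts (Pool.Agent.Q246.HW.a g.f p * (p : ℂ) ^ g.twist i) (g.ψ (p : ZMod g.N) * (p : ℂ) ^ i) k).sum
  else ((R p i).map fun α => α ^ k).sum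

lemma lser_nco (g : Newform) (s : ℂ) : LSeries (nco g.f) s = ∑' n : ℕ, nco g.f n * (n : ℂ) ^ (-s) := by
  unfold LSeries
  refine tsum_congr fun n => ?_
  rcases Nat.eq_zero_or_pos n with rfl | hn
  · rw [LSeries.term_zero, (frmG g).zero, zero_mul]
  · rw [LSeries.term_of_ne_zero hn.ne', Complex.cpow_neg, div_eq_mul_inv]

lemma hasProd_list {ι κ : Type*} (E : ι → κ → ℂ) (v : ι → ℂ) (l : List ι) (h : ∀ g ∈ l, HasProd (E g) (v g)) :
    HasProd (fun p => (l.map fun g => E g p).prod) (l.map v).prod := by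
  induction l with
  | nil => simpa using hasProd_one
  | cons a l ih =>
    simp only [List.map_cons, List.prod_cons]
    exact (h a (by simp)).mul (ih fun g hg => h g (by simp [hg]))

lemma nco_tw (g : Newform) {i : ℕ} (h1 : g.k ≤ i + 1) (h2 : 2 ∣ i + 1 - g.k) {p : ℕ} (hp : 0 < p) :
    Pool.Agent.Q246.HW.a g.f p * (p : ℂ) ^ g.twist i = (((p : ℝ) ^ ((i : ℝ) / 2) : ℝ) : ℂ) * nco g.f p ∧
    g.ψ (p : ZMod g.N) * (p : ℂ) ^ i = (((p : ℝ) ^ ((i : ℝ) / 2) : ℝ) : ℂ) ^ 2 * g.ψ (p : ZMod g.N) := by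
  have hp0 : (0 : ℝ) < p := by exact_mod_cast hp
  have htw : (g.twist i : ℝ) = (i + 1 - g.k) / 2 := by
    unfold Newform.twist
    rw [Nat.cast_div h2 (by norm_num), Nat.cast_sub h1]
    push_cast
    rfl
  constructor
  · have e1 : (p : ℝ) ^ ((i : ℝ) / 2) * (p : ℝ) ^ (-(((g.k : ℝ) - 1) / 2)) = (p : ℝ) ^ g.twist i := by
      rw [← Real.rpow_add hp0, ← Real.rpow_natCast, htw]
      congr 1
      ring
    have e2 : (((p : ℝ) ^ ((i : ℝ) / 2) : ℝ) : ℂ) * (((p : ℝ) ^ (-(((g.k : ℝ) - 1) / 2)) : ℝ) : ℂ) = (p : ℂ) ^ g.twist i := by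
      rw [← Complex.ofReal_mul, e1]
      push_cast
      rfl
    rw [← e2]
    unfold nco Pool.Agent.Q246.HW.a
    ring
  · have e1 : ((p : ℝ) ^ ((i : ℝ) / 2)) ^ 2 = (p : ℝ) ^ i := by
      rw [← Real.rpow_natCast, ← Real.rpow_mul hp0.le, ← Real.rpow_natCast]
      congr 1
      push_cast
      ring
    rw [← Complex.ofReal_pow, e1]
    push_cast
    ring

/-- the traces of Frobenius in terms of the newforms -/
theorem trH_eq {N i : ℕ} {R : ℕ → ℕ → Multiset ℂ} {l : List Newform} (h : Attached N i R l) {p k : ℕ} (hp : p.Prime)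
    (hk : 1 ≤ k) : trH N i R l p k =
      (((p : ℝ) ^ ((i : ℝ) / 2) : ℝ) : ℂ) ^ k * (l.map fun g => ts (nco g.f p) (g.ψ (p : ZMod g.N)) k).sum := by
  have h1 : ∀ g ∈ l, ts (Pool.Agent.Q246.HW.a g.f p * (p : ℂ) ^ g.twist i) (g.ψ (p : ZMod g.N) * (p : ℂ) ^ i) k =
      (((p : ℝ) ^ ((i : ℝ) / 2) : ℝ) : ℂ) ^ k * ts (nco g.f p) (g.ψ (p : ZMod g.N)) k := by
    intro g hg
    obtain ⟨w1, w2⟩ := h.weight g hg
    rw [(nco_tw g w1 w2 hp.pos).1, (nco_tw g w1 w2 hp.pos).2]
    exact (ts_scale _ _ _ k).1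
  have h2 : (l.map fun g => ts (Pool.Agent.Q246.HW.a g.f p * (p : ℂ) ^ g.twist i) (g.ψ (p : ZMod g.N) * (p : ℂ) ^ i) k).sum =
      (((p : ℝ) ^ ((i : ℝ) / 2) : ℝ) : ℂ) ^ k * (l.map fun g => ts (nco g.f p) (g.ψ (p : ZMod g.N)) k).sum := by
    rw [← List.sum_map_mul_left]
    exact congrArg List.sum (List.map_congr_left h1)
  unfold trH
  split_ifs with hpN
  · exact h2
  · rw [← h2]
    exact psum_list l _ _ (fun T => h.factor p hp hpN T) hk

theorem exH {N i : ℕ} {R : ℕ → ℕ → Multiset ℂ} {l : List Newform} (h : Attached N i R l) {F Λ : ℂ → ℂ}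
    (hc : IsCompleted N i R l F Λ) :
    ∃ L : LFunction, (∀ (a : ℝ) (f : ℝ → ℂ), W L a f = WH i (((l.map Newform.N).prod : ℕ) : ℝ)
      (fun s => (l.map fun g => Gammaℂ (s - g.twist i)).prod)
      (fun n => trH N i R l n.minFac (n.factorization n.minFac)) a f) ∧
      ∃ k : ℂ, k ≠ 0 ∧ ∀ s, L.Λ s = k * Λ (s + (((i : ℂ) + 1) / 2 - 1 / 2)) := by
  have hw := fun g (hg : g ∈ l) => inT_newf g (h.weight g hg).1 (h.weight g hg).2
  have hin := InT.list (fun _ : Newform => 0) (fun g : Newform => (g.N : ℝ)) (fun g s => Gammaℂ (s + i / 2 - g.twist i))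
    (fun g => LSeries (nco g.f)) l h.ne (fun g hg => (hw g hg).1)
  have e0 : (l.map fun _ : Newform => 0).sum = 0 := by simp
  have eA : (l.map fun g : Newform => (g.N : ℝ)).prod = (((l.map Newform.N).prod : ℕ) : ℝ) := by
    rw [Nat.cast_list_prod, List.map_map]
    rfl
  rw [e0, eA] at hin
  obtain ⟨A, hA⟩ : ∃ A : ℕ, A = (l.map Newform.N).prod := ⟨_, rfl⟩
  rw [← hA] at hin ⊢
  have hA1 : 1 ≤ A := by
    rw [hA]
    have hlev : ∀ g ∈ l, 1 ≤ g.N := fun g _ => g.N_pos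
    clear hin hw hc h e0 eA hA
    induction l with
    | nil => simp
    | cons a l ih =>
      rw [List.map_cons, List.prod_cons]
      exact Nat.mul_pos a.N_pos (ih fun g hg => hlev g (List.mem_cons_of_mem _ hg))
  have hA0 : (0 : ℝ) < A := by exact_mod_cast hA1
  have hAc : (A : ℂ) ≠ 0 := by exact_mod_cast (show A ≠ 0 by omega)
  have htr := (isTr_list (fun g : Newform => LSeries (nco g.f)) tn l (fun g hg => (hw g hg).2.1) (fun g hg => (hw g hg).2.2)).1
  obtain ⟨-, L, hcomp, hu, hWG⟩ := hin.lf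
  -- the Euler products
  have hF : ∀ s : ℂ, 1 < s.re → F (s + i / 2) = (l.map fun g => LSeries (nco g.f) s).prod := by
    intro s hs
    have hre : (i : ℝ) / 2 + 1 < (s + i / 2).re := by
      have : (s + i / 2).re = s.re + (i : ℝ) / 2 := by
        rw [add_re, show ((i : ℂ) / 2) = (((i : ℝ) / 2 : ℝ) : ℂ) by push_cast; rfl, ofReal_re]
      rw [this]
      linarith
    have h1 := hc.good (s + i / 2) hre
    have h2 := hasProd_list (fun (g : Newform) (p : Nat.Primes) => (1 - nco g.f p * ((p : ℕ) : ℂ) ^ (-s) +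
      g.ψ ((p : ℕ) : ZMod g.N) * (((p : ℕ) : ℂ) ^ (-s)) ^ 2)⁻¹) (fun g => LSeries (nco g.f) s) l (fun g _ => by
        rw [lser_nco]
        exact frm_euler (frmG g) hs)
    refine h1.unique (h2.congr_fun fun p => ?_)
    rw [Pool.Agent.Q246.NC.prod_inv_list]
    congr 1
    have e1 : (l.map fun g : Newform => 1 - nco g.f p * ((p : ℕ) : ℂ) ^ (-s) +
        g.ψ ((p : ℕ) : ZMod g.N) * (((p : ℕ) : ℂ) ^ (-s)) ^ 2).prod =
        (l.map fun g => g.euler i p (((p : ℕ) : ℂ) ^ (-(s + i / 2)))).prod :=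
      congrArg List.prod (List.map_congr_left fun g hg =>
        Pool.Agent.Q246.HW.euler_eq g (h.weight g hg).1 (h.weight g hg).2 p.2.pos s)
    rw [e1]
    split_ifs with hpN
    · rfl
    · rw [h.factor p p.2 hpN]
  -- the completed function
  have hk0 : (A : ℂ) ^ (-((i : ℂ) / 4)) ≠ 0 := by
    rw [Ne, Complex.cpow_eq_zero_iff]
    exact fun h => hAc h.1
  have hΛ : (fun s => (A : ℂ) ^ (-((i : ℂ) / 4)) * Λ (s + i / 2)) = L.Λ := by
    refine hu _ ⟨(hc.entire.comp (by fun_prop)).const_mul _, 2, fun s hs => ?_⟩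
    have hre : (i : ℝ) / 2 < (s + i / 2).re := by
      have : (s + i / 2).re = s.re + (i : ℝ) / 2 := by
        rw [add_re, show ((i : ℂ) / 2) = (((i : ℝ) / 2 : ℝ) : ℂ) by push_cast; rfl, ofReal_re]
      rw [this]
      linarith
    beta_reduce
    rw [hc.eq _ hre, hF s (by linarith), ← hA, pow_zero, one_mul]
    have e1 : (A : ℂ) ^ ((s + i / 2) / 2) = (A : ℂ) ^ ((i : ℂ) / 4) * (A : ℂ) ^ (s / 2) := by
      rw [← Complex.cpow_add _ _ hAc]
      congr 1
      ring
    have e2 : (A : ℂ) ^ (-((i : ℂ) / 4)) * (A : ℂ) ^ ((i : ℂ) / 4) = 1 := by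
      rw [← Complex.cpow_add _ _ hAc, neg_add_cancel, Complex.cpow_zero]
    rw [e1]
    have e3 : (((A : ℕ) : ℝ) : ℂ) = (A : ℂ) := by push_cast; rfl
    rw [e3]
    linear_combination ((A : ℂ) ^ (s / 2) * (l.map fun g : Newform => Gammaℂ (s + i / 2 - g.twist i)).prod *
      (l.map fun g => LSeries (nco g.f) s).prod) * e2
  refine ⟨L, fun b f => ?_, _, hk0, fun s => ?_⟩
  · rw [← hWG _ htr b f]
    unfold WG WH
    rw [Nat.cast_zero, mul_zero, zero_mul, zero_add]
    congr 1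
    · congr 1
      refine integral_congr_ae (Eventually.of_forall fun x => ?_)
      simp only [mc_line]
      congr 4
      have e1 : logDeriv (fun s : ℂ => (l.map fun g : Newform => Gammaℂ (s + i / 2 - g.twist i)).prod) (1 / 2 + x * I) =
          logDeriv (fun s : ℂ => (l.map fun g : Newform => Gammaℂ (s - g.twist i)).prod) ((((i : ℂ) + 1) / 2) + x * I) := by
        have e2 : (fun s : ℂ => (l.map fun g : Newform => Gammaℂ (s + i / 2 - g.twist i)).prod) =
            fun s => (fun s : ℂ => (l.map fun g : Newform => Gammaℂ (s - g.twist i)).prod) (s + i / 2) := rfl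
        rw [e2]
        unfold logDeriv
        simp only [Pi.div_apply]
        rw [deriv_comp_add_const (f := fun s : ℂ => (l.map fun g : Newform => Gammaℂ (s - g.twist i)).prod)]
        have e3 : 1 / 2 + (x : ℂ) * I + i / 2 = ((i : ℂ) + 1) / 2 + x * I := by ring
        rw [e3]
      rw [e1]
    · refine congrArg (fun z : ℂ => 2 * z.re) (Finset.sum_congr rfl fun n _ => ?_)
      congr 1
      by_cases hpp : IsPrimePow n
      · obtain ⟨p, k, hp, hk, rfl⟩ := hpp
        have hp' : p.Prime := hp.nat_prime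
        have hp0 : (0 : ℝ) < p := by exact_mod_cast hp'.pos
        have e1 : (p ^ k).minFac = p := hp'.pow_minFac hk.ne'
        have e2 : (p ^ k).factorization p = k := by
          rw [hp'.factorization_pow, Finsupp.single_eq_same]
        simp only [tn]
        rw [e1, e2, trH_eq h hp' hk]
        have e3 : ((((p ^ k : ℕ) : ℝ) ^ (((i : ℝ) + 1) / 2) : ℝ)) = (((p : ℝ) ^ ((i : ℝ) / 2)) ^ k) * Real.sqrt ((p ^ k : ℕ) : ℝ) := by
          have hn0 : (0 : ℝ) < ((p ^ k : ℕ) : ℝ) := by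
            push_cast
            positivity
          rw [Real.sqrt_eq_rpow, show ((i : ℝ) + 1) / 2 = (i : ℝ) / 2 + 1 / 2 by ring, Real.rpow_add hn0]
          congr 1
          rw [Nat.cast_pow, ← Real.rpow_natCast, ← Real.rpow_natCast, ← Real.rpow_mul hp0.le, ← Real.rpow_mul hp0.le, mul_comm]
        rw [e3]
        have e4 : (((p : ℝ) ^ ((i : ℝ) / 2) : ℝ) : ℂ) ^ k ≠ 0 := by
          refine pow_ne_zero _ ?_
          have := Real.rpow_pos_of_pos hp0 ((i : ℝ) / 2)
          exact_mod_cast this.ne'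
        have e5 : ((Real.sqrt ((p ^ k : ℕ) : ℝ) : ℝ) : ℂ) ≠ 0 := by
          have : (0 : ℝ) < ((p ^ k : ℕ) : ℝ) := by
            push_cast
            positivity
          have := Real.sqrt_pos.2 this
          exact_mod_cast this.ne'
        rw [Complex.ofReal_mul, Complex.ofReal_pow]
        field_simp
      · have h0 : ArithmeticFunction.vonMangoldt n = 0 := ArithmeticFunction.vonMangoldt_eq_zero_iff.2 hpp
        rw [h0]
        simp
  · rw [← hΛ]
    have e : s + (((i : ℂ) + 1) / 2 - 1 / 2) = s + i / 2 := by ring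
    rw [e]

end Pool.Agent.Q286.TR
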