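import Pool.Agent.Q286.TR.Gen
import Pool.Agent.Q260.LF.Bd

set_option autoImplicit false

/-!
# The class of L-functions, with traces and Gamma factors given by functions
-/

namespace Pool.Agent.Q286.TR

open Complex MeasureTheory Filter Topology
open Pool.Agent.TH839.NA (RawT RawTL)
open Pool.Agent.W355.UN (Conv prod_get)

/-- `G` (for large real part) is an L-function with `r` poles, conductor `Q` and Gamma factor `γ` -/
def InT (r : ℕ) (Q : ℝ) (γ G : ℂ → ℂ) : Prop :=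
  ∃ (l : List ℂ) (b c : ℕ → ℂ) (X : ℂ → ℂ), RawTL (1 / 2) l r Q b c X ∧ (∀ α ∈ l, -1 / 2 < α.re) ∧
    (∀ s, γ s = (l.map fun α => Gammaℝ (s + α)).prod) ∧ ∃ σ : ℝ, ∀ s : ℂ, σ ≤ s.re → G s = LSeries b s

theorem InT.mul {r1 r2 : ℕ} {Q1 Q2 : ℝ} {γ1 γ2 G1 G2 : ℂ → ℂ} (h1 : InT r1 Q1 γ1 G1) (h2 : InT r2 Q2 γ2 G2) :
    InT (r1 + r2) (Q1 * Q2) (fun s => γ1 s * γ2 s) (fun s => G1 s * G2 s) := by
  obtain ⟨l1, b1, c1, X1, w1, a1, g1, σ1, e1⟩ := h1
  obtain ⟨l2, b2, c2, X2, w2, a2, g2, σ2, e2⟩ := h2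
  refine ⟨l1 ++ l2, _, _, _, Pool.Agent.Q177.CG.rawMul _ _ _ _ _ _ _ _ _ _ _ _ _ w1 w2, fun α hα => ?_, fun s => ?_,
    max (max σ1 σ2) 2, fun s hs => ?_⟩
  · rcases List.mem_append.1 hα with h | h
    · exact a1 α h
    · exact a2 α h
  · rw [List.map_append, List.prod_append, ← g1, ← g2]
  · have h3 : 2 ≤ s.re := (le_max_right _ _).trans hs
    have h4 := (le_max_left _ _).trans hs
    have s1 := (RawT.coef w1 (s := s) (by linarith)).1
    have s2 := (RawT.coef w2 (s := s) (by linarith)).1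
    rw [LSeries_convolution' s1 s2]
    show G1 s * G2 s = _
    rw [e1 s ((le_max_left _ _).trans h4), e2 s ((le_max_right _ _).trans h4)]

/-- the class is closed under finite products -/
theorem InT.list {ι : Type*} (r : ι → ℕ) (Q : ι → ℝ) (γ G : ι → ℂ → ℂ) (l : List ι) (hl : l ≠ [])
    (h : ∀ i ∈ l, InT (r i) (Q i) (γ i) (G i)) :
    InT (l.map r).sum (l.map Q).prod (fun s => (l.map fun i => γ i s).prod) (fun s => (l.map fun i => G i s).prod) := by
  induction l with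
  | nil => exact absurd rfl hl
  | cons a l ih =>
    rcases eq_or_ne l [] with rfl | hne
    · simpa using h a (by simp)
    · have h1 := (h a (by simp)).mul (ih hne fun c hc => h c (by simp [hc]))
      simpa using h1

/-- `t` are the traces: `-G'/G = ∑ Λ(n) t(n) n^(-s)` for large real part -/
def IsTr (G : ℂ → ℂ) (t : ℕ → ℂ) : Prop := ∃ σ : ℝ, ∀ s : ℂ, σ ≤ s.re →
  HasSum (fun n : ℕ => ((ArithmeticFunction.vonMangoldt n : ℝ) : ℂ) * t n * (n : ℂ) ^ (-s)) (-logDeriv G s)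

/-- Weil's form -/
noncomputable def WG (r : ℕ) (Q : ℝ) (γ : ℂ → ℂ) (t : ℕ → ℂ) (a : ℝ) (f : ℝ → ℂ) : ℝ :=
  2 * r * (M f 1 * (starRingEnd ℂ) (M f 0)).re +
    1 / (2 * Real.pi) * (∫ x : ℝ, (Real.log Q + 2 * (logDeriv γ (1 / 2 + x * I)).re) * ‖M f (1 / 2 + x * I)‖ ^ 2) -
    2 * (∑ n ∈ Finset.Icc 1 ⌊Real.exp (2 * a)⌋₊, ArithmeticFunction.vonMangoldt n / Real.sqrt n * t n *
      ∫ x : ℝ, f (x + Real.log n) * (starRingEnd ℂ) (f x)).re

/-- `Λ` is the completed L-function -/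
def IsComp (r : ℕ) (Q : ℝ) (γ G : ℂ → ℂ) (Λ : ℂ → ℂ) : Prop := Differentiable ℂ Λ ∧ ∃ σ : ℝ, ∀ s : ℂ, σ ≤ s.re →
  Λ s = (s * (s - 1)) ^ r * ((Q : ℂ) ^ (s / 2) * γ s) * G s

/-- from the raw data -/
noncomputable def ofRawT {l : List ℂ} {r : ℕ} {N : ℝ} {b c : ℕ → ℂ} {X : ℂ → ℂ} (h : RawTL (1 / 2) l r N b c X)
    (ha : ∀ α ∈ l, -1 / 2 < α.re) : LFunction where
  m := l.length
  Q := N
  α := fun j => l.get j
  r := r
  b := b
  c := c
  w := h.fe.choose
  Λ := X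
  one_le_m := h.hm
  one_le_Q := h.hN
  α_re := fun j => ha _ (List.get_mem _ _)
  r_le := h.hr
  b_one := h.one
  c_bound := fun n _ => by
    have := h.cb n
    rwa [← Real.sqrt_eq_rpow] at this
  euler := h.conv
  w_norm := h.fe.choose_spec.1
  entire := h.entire
  order := h.order
  fe := fun s => by
    rw [h.fe.choose_spec.2 (1 - s), map_sub, map_one, sub_sub_cancel]
  dirichlet := h.eq

lemma logDeriv_gam (l : List ℂ) (z : ℂ) (hz : ∀ α ∈ l, 0 < (z + α).re) :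
    logDeriv (fun s => (l.map fun α => Gammaℝ (s + α)).prod) z =
      (l.map fun α => -(Real.log Real.pi : ℂ) / 2 + 1 / 2 * logDeriv Gamma ((z + α) / 2)).sum ∧
    DifferentiableAt ℂ (fun s => (l.map fun α => Gammaℝ (s + α)).prod) z ∧ (l.map fun α => Gammaℝ (z + α)).prod ≠ 0 := by
  induction l with
  | nil => exact ⟨by simp, by simp, by simp⟩
  | cons α l ih =>
    obtain ⟨h1, h2, h3⟩ := ih fun β hβ => hz β (by simp [hβ])
    have hα := hz α (by simp)
    have hd : DifferentiableAt ℂ (fun s : ℂ => Gammaℝ (s + α)) z := by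
      have h4 : DifferentiableAt ℂ Gammaℝ (z + α) := by
        have h5 : Gammaℝ = fun s : ℂ => (Gammaℝ s)⁻¹⁻¹ := by
          funext s
          rw [inv_inv]
        rw [h5]
        exact (Complex.differentiable_Gammaℝ_inv (z + α)).inv (inv_ne_zero (Gammaℝ_ne_zero_of_re_pos hα))
      exact DifferentiableAt.comp z (f := fun s : ℂ => s + α) (g := Gammaℝ) h4 (by fun_prop)
    have hn : Gammaℝ (z + α) ≠ 0 := Gammaℝ_ne_zero_of_re_pos hα
    simp only [List.map_cons, List.prod_cons, List.sum_cons]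
    refine ⟨?_, hd.mul h2, mul_ne_zero hn h3⟩
    rw [logDeriv_mul (f := fun s : ℂ => Gammaℝ (s + α)) (g := fun s => (l.map fun α => Gammaℝ (s + α)).prod) z hn h3 hd h2, h1]
    congr 1
    have h6 : logDeriv (fun s : ℂ => Gammaℝ (s + α)) z = logDeriv Gammaℝ (z + α) := by
      unfold logDeriv
      simp only [Pi.div_apply]
      rw [deriv_comp_add_const]
    rw [h6, Pool.Agent.Q260.LF.logDeriv_Gammaℝ hα]

lemma arch_eq (l : List ℂ) (ha : ∀ α ∈ l, -1 / 2 < α.re) {γ : ℂ → ℂ} (hγ : ∀ s, γ s = (l.map fun α => Gammaℝ (s + α)).prod) (x : ℝ) :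
    2 * (logDeriv γ (1 / 2 + x * I)).re =
      ∑ j : Fin l.length, ((digamma ((1 / 2 + x * I + l.get j) / 2)).re - Real.log Real.pi) := by
  have hγ' : γ = fun s => (l.map fun α => Gammaℝ (s + α)).prod := funext hγ
  have h1 := (logDeriv_gam l (1 / 2 + x * I) (fun α hα => by
    have := ha α hα
    simp only [add_re, mul_re, ofReal_re, I_re, ofReal_im, I_im, mul_zero, mul_one, sub_self, add_zero]
    norm_num
    linarith)).1
  rw [hγ', h1]
  have h2 : ∀ l : List ℂ, 2 * ((l.map fun α => -(Real.log Real.pi : ℂ) / 2 + 1 / 2 * logDeriv Gamma ((1 / 2 + x * I + α) / 2)).sum).re =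
      (l.map fun α => (digamma ((1 / 2 + x * I + α) / 2)).re - Real.log Real.pi).sum := by
    intro l
    induction l with
    | nil => simp
    | cons α l ih =>
      simp only [List.map_cons, List.sum_cons]
      rw [Complex.add_re, mul_add, ih]
      congr 1
      have e : logDeriv Gamma ((1 / 2 + (x : ℂ) * I + α) / 2) = digamma ((1 / 2 + x * I + α) / 2) := rfl
      rw [e, Complex.add_re]
      have e2 : (-(Real.log Real.pi : ℂ) / 2).re = -Real.log Real.pi / 2 := by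
        rw [show (2 : ℂ) = ((2 : ℝ) : ℂ) by norm_num, Complex.div_ofReal_re, Complex.neg_re, Complex.ofReal_re]
      have e3 : (1 / 2 * digamma ((1 / 2 + x * I + α) / 2)).re = 1 / 2 * (digamma ((1 / 2 + x * I + α) / 2)).re := by
        rw [show (1 / 2 : ℂ) = ((1 / 2 : ℝ) : ℂ) by push_cast; rfl, Complex.re_ofReal_mul]
      rw [e2, e3]
      ring
  rw [h2, ← List.sum_ofFn]
  congr 1
  have e4 : (fun j : Fin l.length => (digamma ((1 / 2 + x * I + l.get j) / 2)).re - Real.log Real.pi) =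
      (fun α => (digamma ((1 / 2 + x * I + α) / 2)).re - Real.log Real.pi) ∘ l.get := rfl
  rw [e4, ← List.map_ofFn, List.ofFn_get]

lemma hasSum_of {c : ℕ → ℂ} {s : ℂ} (h : LSeriesSummable (fun n => ((ArithmeticFunction.vonMangoldt n : ℝ) : ℂ) * c n) s) :
    HasSum (fun n : ℕ => ((ArithmeticFunction.vonMangoldt n : ℝ) : ℂ) * c n * (n : ℂ) ^ (-s))
      (LSeries (fun n => ((ArithmeticFunction.vonMangoldt n : ℝ) : ℂ) * c n) s) := by
  have h1 := h.hasSum
  have e : LSeries.term (fun n => ((ArithmeticFunction.vonMangoldt n : ℝ) : ℂ) * c n) s =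
      fun n : ℕ => ((ArithmeticFunction.vonMangoldt n : ℝ) : ℂ) * c n * (n : ℂ) ^ (-s) := by
    funext n
    rcases Nat.eq_zero_or_pos n with rfl | hn
    · simp
    · rw [LSeries.term_of_ne_zero hn.ne', Complex.cpow_neg, div_eq_mul_inv]
  unfold LSeries
  rw [e] at h1 ⊢
  exact h1

lemma summ_of {c : ℕ → ℂ} {s : ℂ} {v : ℂ} (h : HasSum (fun n : ℕ => ((ArithmeticFunction.vonMangoldt n : ℝ) : ℂ) * c n * (n : ℂ) ^ (-s)) v) :
    LSeriesSummable (fun n => ((ArithmeticFunction.vonMangoldt n : ℝ) : ℂ) * c n) s ∧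
      LSeries (fun n => ((ArithmeticFunction.vonMangoldt n : ℝ) : ℂ) * c n) s = v := by
  have e : LSeries.term (fun n => ((ArithmeticFunction.vonMangoldt n : ℝ) : ℂ) * c n) s =
      fun n : ℕ => ((ArithmeticFunction.vonMangoldt n : ℝ) : ℂ) * c n * (n : ℂ) ^ (-s) := by
    funext n
    rcases Nat.eq_zero_or_pos n with rfl | hn
    · simp
    · rw [LSeries.term_of_ne_zero hn.ne', Complex.cpow_neg, div_eq_mul_inv]
  unfold LSeriesSummable LSeries
  rw [e]
  exact ⟨h.summable, h.tsum_eq⟩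

/-- the traces are unique at the prime powers -/
lemma tr_uniq {G : ℂ → ℂ} {t t' : ℕ → ℂ} (h : IsTr G t) (h' : IsTr G t') (n : ℕ) :
    ((ArithmeticFunction.vonMangoldt n : ℝ) : ℂ) * t n = ((ArithmeticFunction.vonMangoldt n : ℝ) : ℂ) * t' n := by
  obtain ⟨σ, hσ⟩ := h
  obtain ⟨σ', hσ'⟩ := h'
  rcases Nat.eq_zero_or_pos n with rfl | hn
  · simp
  · have ab : ∀ {t : ℕ → ℂ} {σ : ℝ}, (∀ s : ℂ, σ ≤ s.re → HasSum (fun n : ℕ => ((ArithmeticFunction.vonMangoldt n : ℝ) : ℂ) * t n *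
        (n : ℂ) ^ (-s)) (-logDeriv G s)) → LSeries.abscissaOfAbsConv (fun n => ((ArithmeticFunction.vonMangoldt n : ℝ) : ℂ) * t n) < ⊤ :=
      fun {t} {σ} h => lt_of_le_of_lt (summ_of (h ((σ : ℝ) : ℂ) (by rw [ofReal_re]))).1.abscissaOfAbsConv_le (EReal.coe_lt_top _)
    refine LSeries.eq_of_LSeries_eventually_eq (ab hσ) (ab hσ') ?_ hn.ne'
    filter_upwards [eventually_ge_atTop (max σ σ')] with x hx
    rw [(summ_of (hσ (x : ℂ) (by rw [ofReal_re]; exact (le_max_left _ _).trans hx))).2,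
      (summ_of (hσ' (x : ℂ) (by rw [ofReal_re]; exact (le_max_right _ _).trans hx))).2]

/-- **The L-function of an object of the class.** -/
theorem InT.lf {r : ℕ} {Q : ℝ} {γ G : ℂ → ℂ} (h : InT r Q γ G) :
    (∃ t, IsTr G t) ∧ ∃ L : LFunction, IsComp r Q γ G L.Λ ∧ (∀ Λ, IsComp r Q γ G Λ → Λ = L.Λ) ∧
      ∀ t, IsTr G t → ∀ (a : ℝ) (f : ℝ → ℂ), WG r Q γ t a f = W L a f := by
  obtain ⟨l, b, c, X, w, ha, hγ, σ, hσ⟩ := h
  have htr : IsTr G c := by
    refine ⟨max σ 3 + 1, fun s hs => ?_⟩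
    have h3 : 3 < s.re := by linarith [le_max_right σ 3]
    have h4 : σ < s.re := by linarith [le_max_left σ 3]
    have h5 := (RawT.coef w (s := s) (by linarith)).2.2
    have hopen : IsOpen {z : ℂ | σ < z.re} := isOpen_lt continuous_const Complex.continuous_re
    have hev : G =ᶠ[𝓝 s] LSeries b := by
      filter_upwards [hopen.mem_nhds h4] with z hz
      exact hσ z (le_of_lt hz)
    have h6 : logDeriv G s = logDeriv (LSeries b) s := by
      unfold logDeriv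
      simp only [Pi.div_apply]
      rw [hev.deriv_eq, hev.eq_of_nhds]
    have h12 : LSeries (fun n => ((ArithmeticFunction.vonMangoldt n : ℝ) : ℂ) * (c n * Pool.Agent.TH839.NA.pw (-(1 / 2)) n))
        (s - ((1 / 2 : ℝ) : ℂ)) = LSeries (fun n => ((ArithmeticFunction.vonMangoldt n : ℝ) : ℂ) * c n) s := by
      unfold LSeries
      refine tsum_congr fun n => ?_
      rw [← Pool.Agent.TH839.NA.term_shift _ (1 / 2) s n]
      simp only [mul_assoc]
    rw [h6, h5, neg_neg, h12]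
    refine hasSum_of ?_
    refine LSeriesSummable_of_le_const_mul_rpow (x := 5 / 2) (by linarith) ⟨l.length, fun n hn => ?_⟩
    have h7 := w.cb n
    have hn0 : (0 : ℝ) < n := by exact_mod_cast Nat.pos_of_ne_zero hn
    have h8 : ArithmeticFunction.vonMangoldt n ≤ Real.log n := ArithmeticFunction.vonMangoldt_le_log
    have h9 : Real.log n ≤ n := (Real.log_le_sub_one_of_pos hn0).trans (by linarith)
    rw [norm_mul, Complex.norm_real, Real.norm_of_nonneg ArithmeticFunction.vonMangoldt_nonneg]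
    have h10 : (n : ℝ) ^ ((5 / 2 : ℝ) - 1) = n * (n : ℝ) ^ (1 / 2 : ℝ) := by
      rw [show (5 / 2 : ℝ) - 1 = 1 + 1 / 2 by norm_num, Real.rpow_add hn0, Real.rpow_one]
    rw [h10]
    have h11 : 0 ≤ (l.length : ℝ) * (n : ℝ) ^ (1 / 2 : ℝ) := by positivity
    calc ArithmeticFunction.vonMangoldt n * ‖c n‖ ≤ n * ((l.length : ℝ) * (n : ℝ) ^ (1 / 2 : ℝ)) := by
          apply mul_le_mul (h8.trans h9) h7 (norm_nonneg _) hn0.le
      _ = _ := by ring
  have hcomp : IsComp r Q γ G X := by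
    obtain ⟨σ2, h2⟩ := w.eq
    refine ⟨w.entire, max σ σ2, fun s hs => ?_⟩
    rw [h2 s ((le_max_right _ _).trans hs), hσ s ((le_max_left _ _).trans hs), hγ,
      prod_get l fun α => Gammaℝ (s + α)]
  refine ⟨⟨c, htr⟩, ofRawT w ha, hcomp, fun Λ hΛ => ?_, fun t ht a f => ?_⟩
  · obtain ⟨σ1, h1⟩ := hΛ.2
    obtain ⟨σ2, h2⟩ := hcomp.2
    exact Pool.Agent.W355.UN.Pk.uniq hcomp.1 hΛ.1 ⟨σ2, h2⟩ ⟨σ1, h1⟩
  · unfold WG W
    have e1 : ∀ x : ℝ, Real.log Q + 2 * (logDeriv γ (1 / 2 + x * I)).re = Real.log (ofRawT w ha).Q +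
        ∑ j, ((digamma ((1 / 2 + x * I + (ofRawT w ha).α j) / 2)).re - Real.log Real.pi) := fun x => by
      rw [arch_eq l ha hγ]
      rfl
    simp only [e1]
    congr 1
    refine congrArg (fun z : ℂ => 2 * z.re) (Finset.sum_congr rfl fun n _ => ?_)
    congr 1
    rw [div_mul_eq_mul_div, div_mul_eq_mul_div, tr_uniq ht htr n]
    rfl

end Pool.Agent.Q286.TR
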