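import Pool.Agent.Q286.TR.Cls
import Pool.Agent.Q286.GB.RowsA
import Pool.Agent.Q286.GB.All
import Pool.Agent.Q246.UnramPk

set_option autoImplicit false

/-!
# Ray class characters of number fields belong to the class
-/

namespace Pool.Agent.Q286.TR

open Complex MeasureTheory Filter Topology NumberField
open scoped ComplexConjugate
open Pool.Agent.TH839.NA (RawT RawTL)
open Pool.Agent.W355.UN (Conv prod_get)

/-- the convolution identity from the logarithmic derivative -/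
theorem conv_of_ld {f c : ℕ → ℂ} {G : ℂ → ℂ} {m : ℝ} (h0 : f 0 = 0) (hf : LSeriesSummable f 2)
    (hG : ∀ s : ℂ, 2 ≤ s.re → G s = LSeries f s) (hne : ∀ s : ℂ, 1 < s.re → G s ≠ 0) (hc : ∀ n, ‖c n‖ ≤ m)
    (hd : ∀ s : ℂ, 1 < s.re → deriv G s / G s =
      - ∑' n : ℕ, c n * (ArithmeticFunction.vonMangoldt n : ℂ) * (n : ℂ) ^ (-s)) : Conv f c := by
  have hab : LSeries.abscissaOfAbsConv f ≤ ((2 : ℝ) : EReal) := by
    have := hf.abscissaOfAbsConv_le
    simpa using this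
  have hlt : ∀ {s : ℂ}, 2 < s.re → LSeries.abscissaOfAbsConv f < s.re := fun {s} hs =>
    lt_of_le_of_lt hab (EReal.coe_lt_coe_iff.2 hs)
  have hΛ : ∀ {s : ℂ}, 2 < s.re → LSeriesSummable (fun n => ((ArithmeticFunction.vonMangoldt n : ℝ) : ℂ) * c n) s := by
    intro s hs
    refine LSeriesSummable_of_le_const_mul_rpow (x := 2) (by linarith) ⟨m, fun n hn => ?_⟩
    have hn0 : (0 : ℝ) < n := by exact_mod_cast Nat.pos_of_ne_zero hn
    have h8 : ArithmeticFunction.vonMangoldt n ≤ Real.log n := ArithmeticFunction.vonMangoldt_le_log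
    have h9 : Real.log n ≤ n := (Real.log_le_sub_one_of_pos hn0).trans (by linarith)
    rw [norm_mul, Complex.norm_real, Real.norm_of_nonneg ArithmeticFunction.vonMangoldt_nonneg,
      show (2 : ℝ) - 1 = 1 by norm_num, Real.rpow_one, mul_comm]
    have hm : 0 ≤ m := (norm_nonneg _).trans (hc n)
    exact mul_le_mul (hc n) (h8.trans h9) ArithmeticFunction.vonMangoldt_nonneg hm
  have key : ∀ s : ℂ, 2 < s.re → LSeries (LSeries.logMul f) s =
      LSeries (LSeries.convolution (fun n => ((ArithmeticFunction.vonMangoldt n : ℝ) : ℂ) * c n) f) s := by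
    intro s hs
    have hopen : IsOpen {z : ℂ | 2 < z.re} := isOpen_lt continuous_const Complex.continuous_re
    have hev : G =ᶠ[𝓝 s] LSeries f := by
      filter_upwards [hopen.mem_nhds hs] with z hz
      exact hG z (le_of_lt hz)
    have h1 := hd s (by linarith)
    have h2 := (LSeries_hasDerivAt (hlt hs)).deriv
    have h3 : ∑' n : ℕ, c n * (ArithmeticFunction.vonMangoldt n : ℂ) * (n : ℂ) ^ (-s) =
        LSeries (fun n => ((ArithmeticFunction.vonMangoldt n : ℝ) : ℂ) * c n) s := by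
      unfold LSeries
      refine tsum_congr fun n => ?_
      rcases Nat.eq_zero_or_pos n with rfl | hn
      · simp
      · rw [LSeries.term_of_ne_zero hn.ne', Complex.cpow_neg, div_eq_mul_inv]
        ring
    rw [h3, hev.deriv_eq, hev.eq_of_nhds, h2] at h1
    have hne' : LSeries f s ≠ 0 := by
      rw [← hev.eq_of_nhds]
      exact hne s (by linarith)
    rw [div_eq_iff hne'] at h1
    rw [LSeries_convolution' (hΛ hs) (LSeriesSummable_of_abscissaOfAbsConv_lt_re (hlt hs))]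
    linear_combination -h1
  intro n hn
  have e1 : LSeries.abscissaOfAbsConv (LSeries.logMul f) < ⊤ := by
    rw [LSeries.abscissaOfAbsConv_logMul]
    exact lt_of_le_of_lt hab (EReal.coe_lt_top _)
  have e2 : LSeries.abscissaOfAbsConv (LSeries.convolution (fun n => ((ArithmeticFunction.vonMangoldt n : ℝ) : ℂ) * c n) f) < ⊤ := by
    have h3 : (2 : ℝ) < ((3 : ℂ)).re := by norm_num
    have h4 := (hΛ h3).convolution (LSeriesSummable_of_abscissaOfAbsConv_lt_re (hlt h3))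
    exact lt_of_le_of_lt h4.abscissaOfAbsConv_le (EReal.coe_lt_top _)
  have h1 := LSeries.eq_of_LSeries_eventually_eq e1 e2 (by
    filter_upwards [eventually_gt_atTop (2 : ℝ)] with x hx
    exact key x (by rw [ofReal_re]; exact hx)) hn
  have h2 : LSeries.logMul f n = f n * ((Real.log n : ℝ) : ℂ) := by
    unfold LSeries.logMul
    rw [Complex.natCast_log]
    ring
  rw [← h2, h1, LSeries.convolution_def]
  simp only
  rw [Nat.sum_divisorsAntidiagonal fun x y => ((ArithmeticFunction.vonMangoldt x : ℝ) : ℂ) * c x * f y]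

open Pool.Agent.Y773 Pool.Agent.W355.UN Pool.Agent.Q246 in
/-- ray class characters -/
theorem inT_ray {K : Type} [Field K] [NumberField K] {𝔣 : Ideal (𝓞 K)} {ψ : Ideal (𝓞 K) →*₀ ℂ} {e : InfinitePlace K → ℕ}
    (ne_bot : 𝔣 ≠ ⊥) (supp : ∀ 𝔞 : Ideal (𝓞 K), 𝔞 ≠ ⊥ → (ψ 𝔞 ≠ 0 ↔ IsCoprime 𝔞 𝔣)) (e_le : ∀ w, e w ≤ 1)
    (e_complex : ∀ w : InfinitePlace K, w.IsComplex → e w = 0)
    (hsig : ∀ x : 𝓞 K, x ≠ 0 → x - 1 ∈ 𝔣 → ψ (Ideal.span {x}) = G.sg e (x : K))
    (prim : ∀ 𝔤 : Ideal (𝓞 K), 𝔤 ∣ 𝔣 → 𝔤 ≠ 𝔣 → ∃ x : 𝓞 K, x - 1 ∈ 𝔤 ∧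
      (∀ τ : K →+* ℝ, 0 < τ (x : K)) ∧ IsCoprime (Ideal.span {x}) 𝔣 ∧ ψ (Ideal.span {x}) ≠ 1)
    {r : ℕ} (hr : r = open Classical in if ∀ 𝔞 : Ideal (𝓞 K), 𝔞 ≠ ⊥ → ψ 𝔞 = 1 then 1 else 0) :
    InT r ((Ideal.absNorm 𝔣 : ℝ) * |(discr K : ℝ)|) (fun s => ∏ φ : K →+* ℂ, Gammaℝ (s + (G.ex e φ : ℂ))) (LI ψ) := by
  classical
  have hcard : Fintype.card (K →+* ℂ) = Module.finrank ℚ K := NumberField.Embeddings.card K ℂ
  have hdisc : ((Ideal.absNorm (differentIdeal ℤ (𝓞 K)) : ℕ) : ℝ) = |(discr K : ℝ)| := by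
    rw [absNorm_differentIdeal K, ← Int.cast_abs, ← Int.natCast_natAbs, Int.cast_natCast]
  have hray : ∀ x : 𝓞 K, x ≠ 0 → x - 1 ∈ 𝔣 → TPos K x → ψ (Ideal.span {x}) = 1 := by
    intro x h0 h1 h2
    rw [hsig x h0 h1, G.sg_TPos e h0 h2]
  have hp : G.IsPrimChar K 𝔣 ψ := ⟨ne_bot, supp, hray, prim⟩
  have hψ1 := hp.norm_le_one Pool.Agent.Y772.G.t_sig
  obtain ⟨f, g, hdir⟩ := Pool.Agent.Q286.GB.dir_LI Pool.Agent.Q286.GB.facts.eul ψ hψ1
  obtain ⟨A, hA, hDK⟩ := Pool.Agent.Y772.DK.t_dirK K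
  obtain ⟨hd1, hd2, hd3, hd4, hd5, hd6, hd7, -⟩ := hDK ψ hψ1
  let E : Fin (Module.finrank ℚ K) ≃ (K →+* ℂ) := (Fintype.equivFinOfCardEq hcard).symm
  -- the completed function
  have key : ∃ X : ℂ → ℂ, Pool.Agent.W169.HF.Slow X ∧ 1 ≤ (Ideal.absNorm 𝔣 : ℝ) * |(discr K : ℝ)| ∧
      (∃ ε : ℂ, ‖ε‖ = 1 ∧ ∀ s : ℂ, X s = ε * conj (X (1 - conj s))) ∧
      ∃ σ : ℝ, ∀ s : ℂ, σ ≤ s.re → X s = (s * (s - 1)) ^ r *
        ((((Ideal.absNorm 𝔣 : ℝ) * |(discr K : ℝ)| : ℝ) : ℂ) ^ (s / 2) * ∏ φ : K →+* ℂ, Gammaℝ (s + (G.ex e φ : ℂ))) * LI ψ s := by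
    by_cases htop : 𝔣 = ⊤
    · -- unramified characters
      have hUC : Unr.UC e ψ := by
        refine ⟨e_le, e_complex, fun 𝔞 h0 => ?_, fun x h0 => hsig x h0 (by rw [htop]; trivial)⟩
        refine (supp 𝔞 h0).2 ?_
        rw [htop]
        exact Ideal.isCoprime_iff_sup_eq.2 (by simp)
      obtain ⟨X, μ0, L0, u, -, σ, hσ⟩ := HPk.unr_pk hUC
      have hcond : (Ideal.absNorm 𝔣 : ℝ) * |(discr K : ℝ)| = ((Ideal.absNorm (differentIdeal ℤ (𝓞 K)) : ℕ) : ℝ) := by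
        rw [htop, ← Ideal.one_eq_top, map_one, Nat.cast_one, one_mul, hdisc]
      rw [hcond]
      refine ⟨X, u.slow, u.hN, u.fe, σ, fun s hs => ?_⟩
      rw [hσ s hs]
      unfold GG
      have h2 : (if Unr.Triv ψ then 1 else 0) = r := hr.symm
      rw [h2]
      ring
    · -- ramified characters
      have hM : G.IsModChar 𝔣 e ψ := by
        refine ⟨ne_bot, htop, e_le, e_complex, fun 𝔞 => ?_, hsig⟩
        by_cases h0 : 𝔞 = ⊥
        · subst h0
          have h1 : ψ (⊥ : Ideal (𝓞 K)) = 0 := map_zero ψ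
          constructor
          · intro h2
            exact absurd h1 h2
          · intro h2
            exfalso
            rw [Ideal.isCoprime_iff_sup_eq, bot_sup_eq] at h2
            exact htop h2
        · exact supp 𝔞 h0
      obtain ⟨X, μ0, L0, u, -, σ, hσ⟩ := HPk.hecke_pk hp hM
      have hcond : (Ideal.absNorm 𝔣 : ℝ) * |(discr K : ℝ)| =
          ((Ideal.absNorm 𝔣 * Ideal.absNorm (differentIdeal ℤ (𝓞 K)) : ℕ) : ℝ) := by
        rw [← hdisc]
        push_cast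
        rfl
      have hpole : r = 0 := by
        rw [hr, if_neg]
        intro htriv
        obtain ⟨x, -, h2, h3, h4⟩ := prim ⊤ (by rw [← Ideal.one_eq_top]; exact one_dvd _)
          (fun h => htop h.symm)
        apply h4
        apply htriv
        intro h5
        rw [h5, Ideal.isCoprime_iff_sup_eq, bot_sup_eq] at h3
        exact htop h3
      rw [hcond]
      refine ⟨X, u.slow, u.hN, u.fe, σ, fun s hs => ?_⟩
      rw [hσ s hs]
      unfold GG
      rw [hpole, pow_zero, one_mul]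
  obtain ⟨X, hX, hN, hfe, σ, hσ⟩ := key
  have hf2 : LSeriesSummable f 2 := (Pool.Agent.Q286.GB.wsum_iff _ f.map_zero).1 hdir.fs
  have hG2 : ∀ s : ℂ, 2 ≤ s.re → LI ψ s = LSeries f s := fun s hs => hdir.eq hs
  have hconv : Conv f (cc ψ) := conv_of_ld f.map_zero hf2 hG2 hd3 hd7 hd4
  obtain ⟨l, hl⟩ : ∃ l : List ℂ, l = List.ofFn fun j => (G.ex e (E j) : ℂ) := ⟨_, rfl⟩
  have hlen : l.length = Module.finrank ℚ K := by rw [hl, List.length_ofFn]
  have hgam : ∀ s : ℂ, (∏ φ : K →+* ℂ, Gammaℝ (s + (G.ex e φ : ℂ))) = (l.map fun α => Gammaℝ (s + α)).prod := by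
    intro s
    rw [hl, List.map_ofFn, List.prod_ofFn, ← Equiv.prod_comp E]
    rfl
  have hre : ∀ α ∈ l, 0 ≤ α.re := by
    intro α hα
    rw [hl, List.mem_ofFn] at hα
    obtain ⟨j, rfl⟩ := hα
    rw [natCast_re]
    exact Nat.cast_nonneg _
  have hr1 : r ≤ 1 := by
    rw [hr]
    split_ifs <;> omega
  have hfin : 1 ≤ Module.finrank ℚ K := Module.finrank_pos
  refine ⟨l, f, cc ψ, X, ⟨by rw [hlen]; exact hfin, by rw [hlen]; exact hr1.trans hfin, hN, by norm_num, by norm_num,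
    fun j => by linarith [hre _ (List.get_mem l j)], hX.1, ?_, hfe, hdir.one, fun n => ?_, hconv, max σ 2, fun s hs => ?_⟩,
    fun α hα => by linarith [hre α hα], hgam, 2, hG2⟩
  · obtain ⟨C, hC, hK⟩ := hX.2 1 one_pos
    refine ⟨1 + |Real.log C|, 2, fun s => (hK s).trans ?_⟩
    rw [← Real.exp_log hC, ← Real.exp_add]
    apply Real.exp_le_exp.2
    have h1 := le_abs_self (Real.log C)
    have h2 := norm_nonneg s
    have h3 : (1 + ‖s‖) ^ (2 : ℝ) = (1 + ‖s‖) ^ 2 := Real.rpow_two _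
    rw [h3, Real.exp_log hC]
    have h4 : 0 ≤ |Real.log C| := abs_nonneg _
    have h5 : 1 ≤ (1 + ‖s‖) ^ 2 := by nlinarith
    nlinarith [mul_le_mul_of_nonneg_left h5 h4]
  · rcases Nat.eq_zero_or_pos n with rfl | hn
    · have h1 : cc ψ 0 = 0 := by
        unfold cc
        simp
      rw [h1, norm_zero]
      positivity
    · refine (hd7 n).trans ?_
      rw [hlen]
      refine le_mul_of_one_le_right (Nat.cast_nonneg _) ?_
      exact Real.one_le_rpow (by exact_mod_cast hn) (by norm_num)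
  · rw [hσ s ((le_max_left _ _).trans hs), hgam, hG2 s ((le_max_right _ _).trans hs),
      prod_get l fun α => Gammaℝ (s + α)]

end Pool.Agent.Q286.TR
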