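import Pool.Agent.Q286.TR.EQ
import Pool.Agent.Q286.GB.All
import Pool.Agent.Q286.GB.RowsK
import Pool.Agent.Q150.TR.Trc
import Pool.Agent.Q210.TR.NRM
import Pool.Agent.Q210.TR.REG

set_option autoImplicit false

/-!
# The trichotomy for elliptic curves over number fields
-/

namespace Pool.Agent.Q286.TR

open Complex MeasureTheory Filter Topology NumberField IsDedekindDomain
open Pool.Agent.H921R2.TatePole (nm two_le_nm nm_summable)
open Pool.Agent.TH839.UH (KL EL dg mu NX NX_fe NX_eq NX_diff NX_order dg_pos mu_cases)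
open Pool.Agent.TH839.UH.NF (gv)
open Pool.Agent.Q286.GB (roots facts)

section
variable {K : Type} [Field K] [NumberField K]

/-- the traces of the powers of Frobenius -/
noncomputable def fr (a δ : HeightOneSpectrum (𝓞 K) → ℂ) (v : HeightOneSpectrum (𝓞 K)) : ℕ → ℂ
  | 0 => 2
  | 1 => a v
  | k + 2 => a v * fr a δ v (k + 1) - δ v * fr a δ v k

/-- Weil's form of an elliptic curve over `K` -/
noncomputable def WK (a δ : HeightOneSpectrum (𝓞 K) → ℂ) (A b : ℝ) (f : ℝ → ℂ) : ℝ :=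
  1 / (2 * Real.pi) * (∫ x : ℝ, (Real.log A + dg K * (2 * (digamma (1 + x * I)).re - 2 * Real.log (2 * Real.pi))) *
    ‖MC 1 f (1 + x * I)‖ ^ 2) -
  2 * (∑ᶠ x ∈ {x : HeightOneSpectrum (𝓞 K) × ℕ | 1 ≤ x.2 ∧ (nm x.1 : ℝ) ^ x.2 ≤ Real.exp (2 * b)},
    Real.log (nm x.1) / (nm x.1 : ℂ) ^ x.2 * fr a δ x.1 x.2 *
    ∫ y : ℝ, f (y + x.2 * Real.log (nm x.1)) * (starRingEnd ℂ) (f y)).re

variable {a δ : HeightOneSpectrum (𝓞 K) → ℂ} {A : ℝ} {Λ : ℂ → ℂ}

lemma fr_pow {r : Fin 2 → ℂ} {v : HeightOneSpectrum (𝓞 K)} (h : ∀ x : ℂ, 1 - a v * x + δ v * x ^ 2 = ∏ j, (1 - r j * x)) :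
    ∀ k : ℕ, fr a δ v k = r 0 ^ k + r 1 ^ k ∧ fr a δ v (k + 1) = r 0 ^ (k + 1) + r 1 ^ (k + 1) := by
  have h1 := h 1
  have h2 := h (-1)
  rw [Fin.prod_univ_two] at h1 h2
  have ha : a v = r 0 + r 1 := by linear_combination (h2 - h1) / 2
  have hd : δ v = r 0 * r 1 := by linear_combination (h2 + h1) / 2
  intro k
  induction k with
  | zero =>
    refine ⟨?_, ?_⟩
    · show (2 : ℂ) = _
      rw [pow_zero, pow_zero]
      norm_num
    · show a v = _
      rw [zero_add, pow_one, pow_one, ha]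
  | succ k ih =>
    refine ⟨ih.2, ?_⟩
    have e : fr a δ v (k + 1 + 1) = a v * fr a δ v (k + 1) - δ v * fr a δ v k := rfl
    rw [e, ih.1, ih.2, ha, hd]
    ring

lemma fin_nm (M : ℕ) : {v : HeightOneSpectrum (𝓞 K) | nm v ≤ M}.Finite := by
  have h1 := (nm_summable (K := K) (x := 2) (by norm_num)).tendsto_cofinite_zero
  have h2 : ∀ᶠ v : HeightOneSpectrum (𝓞 K) in cofinite, ((nm v : ℕ) : ℝ) ^ (-(2 : ℝ)) < ((M + 1 : ℕ) : ℝ) ^ (-(2 : ℝ)) :=
    h1.eventually_lt_const (by positivity)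
  refine Set.Finite.subset h2 ?_
  intro v hv hlt
  have hv' : nm v ≤ M := hv
  have h3 : ((nm v : ℕ) : ℝ) ≤ ((M + 1 : ℕ) : ℝ) := by exact_mod_cast hv'.trans (Nat.le_succ M)
  have h4 : (0 : ℝ) < nm v := by
    have := two_le_nm v
    exact_mod_cast (by omega : 0 < nm v)
  have h5 : ((M + 1 : ℕ) : ℝ) ^ (-(2 : ℝ)) ≤ ((nm v : ℕ) : ℝ) ^ (-(2 : ℝ)) :=
    Real.rpow_le_rpow_of_nonpos h4 h3 (by norm_num)
  have h6 : ((nm v : ℕ) : ℝ) ^ (-(2 : ℝ)) < ((M + 1 : ℕ) : ℝ) ^ (-(2 : ℝ)) := hlt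
  linarith

/-- the normalised Frobenius eigenvalues and the coefficients -/
theorem coeffs (h : KL a δ A Λ) (hd : ∀ v, δ v = 0 ∨ δ v = (nm v : ℂ)) :
    ∃ (β : HeightOneSpectrum (𝓞 K) → Fin 2 → ℂ) (lam c : ℕ → ℂ), lam 1 = 1 ∧
      (∀ n : ℕ, ‖c n‖ ≤ ((dg K + dg K : ℕ) : ℝ) * Real.sqrt n) ∧
      (∀ n : ℕ, n ≠ 0 → lam n * ((Real.log n : ℝ) : ℂ) =
        ∑ d ∈ n.divisors, ((ArithmeticFunction.vonMangoldt d : ℝ) : ℂ) * c d * lam (n / d)) ∧
      (∀ s : ℂ, 2 ≤ s.re → LSeries lam s = EL a δ (s + 1 / 2)) ∧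
      (∀ n : ℕ, ((ArithmeticFunction.vonMangoldt n : ℝ) : ℂ) * c n = Th nm β n) ∧
      ∀ (v : HeightOneSpectrum (𝓞 K)) (k : ℕ), ∑ j, β v j ^ k = fr a δ v k * (((Real.sqrt (nm v : ℝ) : ℝ) : ℂ) ^ k)⁻¹ := by
  classical
  choose r hr1 hr2 using fun v => roots (nm v) (two_le_nm v) (a v) (δ v) (h.rea v) (h.ha v) (hd v)
  have hs0 : ∀ v : HeightOneSpectrum (𝓞 K), (0 : ℝ) < Real.sqrt (nm v : ℝ) := fun v => by
    refine Real.sqrt_pos.2 ?_
    have := two_le_nm v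
    exact_mod_cast (by omega : 0 < nm v)
  obtain ⟨β, hβ⟩ : ∃ β : HeightOneSpectrum (𝓞 K) → Fin 2 → ℂ, β = fun v j => r v j * (((Real.sqrt (nm v : ℝ) : ℝ) : ℂ))⁻¹ := ⟨_, rfl⟩
  have hβn : ∀ v j, ‖β v j‖ ≤ Real.sqrt (nm v) := fun v j => by
    rw [hβ]
    show ‖r v j * (((Real.sqrt (nm v : ℝ) : ℝ) : ℂ))⁻¹‖ ≤ _
    rw [norm_mul, norm_inv, Complex.norm_real, Real.norm_of_nonneg (hs0 v).le, ← div_eq_mul_inv, div_le_iff₀ (hs0 v),
      Real.mul_self_sqrt (Nat.cast_nonneg _)]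
    exact hr1 v j
  have hsum : Summable (fun v : HeightOneSpectrum (𝓞 K) => (nm v : ℝ) ^ (-(3 / 2) : ℝ)) := nm_summable (K := K) (x := 3 / 2) (by norm_num)
  obtain ⟨lam, mu, l0, m0, l1, lsum, msum, linv, lser⟩ := facts.eul (HeightOneSpectrum (𝓞 K)) 2 (fun v => nm v) β
    (fun v => two_le_nm v) hsum hβn
  have htrc := Pool.Agent.Q150.TR.t_TRC (HeightOneSpectrum (𝓞 K)) 2 (fun v => nm v) β (fun v => two_le_nm v) hsum hβn lam l0 lsum lser
  have hnrm := Pool.Agent.Q210.TR.t_NRM K 2 β hβn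
  have hthc : ∀ n : ℕ, ‖Th (fun v : HeightOneSpectrum (𝓞 K) => nm v) β n‖ ≤
    ((2 : ℕ) : ℝ) * dg K * Real.sqrt n * ArithmeticFunction.vonMangoldt n := fun n => hnrm n
  obtain ⟨c, hc⟩ : ∃ c : ℕ → ℂ, c = fun n => Th (fun v : HeightOneSpectrum (𝓞 K) => nm v) β n / ((ArithmeticFunction.vonMangoldt n : ℝ) : ℂ) := ⟨_, rfl⟩
  have hΛc : ∀ n : ℕ, ((ArithmeticFunction.vonMangoldt n : ℝ) : ℂ) * c n = Th nm β n := fun n => by
    rw [hc]
    rcases eq_or_ne (ArithmeticFunction.vonMangoldt n) 0 with h0 | h0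
    · have h1 := hthc n
      rw [h0, mul_zero, norm_le_zero_iff] at h1
      rw [h0]
      show ((0 : ℝ) : ℂ) * _ = _
      rw [Complex.ofReal_zero, zero_mul]
      exact h1.symm
    · have h1 : ((ArithmeticFunction.vonMangoldt n : ℝ) : ℂ) ≠ 0 := by exact_mod_cast h0
      show ((ArithmeticFunction.vonMangoldt n : ℝ) : ℂ) * (_ / _) = _
      rw [mul_div_cancel₀ _ h1]
  refine ⟨β, lam, c, l1, fun n => ?_, fun n hn => ?_, fun s hs => ?_, hΛc, fun v k => ?_⟩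
  · have h2 : (0 : ℝ) ≤ ((dg K + dg K : ℕ) : ℝ) * Real.sqrt n := by positivity
    rw [hc]
    show ‖Th (fun v : HeightOneSpectrum (𝓞 K) => nm v) β n / ((ArithmeticFunction.vonMangoldt n : ℝ) : ℂ)‖ ≤ _
    rw [norm_div, Complex.norm_real, Real.norm_of_nonneg ArithmeticFunction.vonMangoldt_nonneg]
    refine div_le_of_le_mul₀ ArithmeticFunction.vonMangoldt_nonneg h2 ?_
    refine (hthc n).trans (le_of_eq ?_)
    push_cast
    ring
  · rw [htrc n hn]
    refine Finset.sum_congr rfl fun d _ => ?_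
    rw [hΛc d]
  · have h1 := lser s hs
    have h2 : LSeries lam s = ∑' n : ℕ, lam n * (n : ℂ) ^ (-s) := by
      unfold LSeries
      refine tsum_congr fun n => ?_
      rcases Nat.eq_zero_or_pos n with rfl | hn
      · rw [LSeries.term_zero, l0, zero_mul]
      · rw [LSeries.term_of_ne_zero hn.ne', Complex.cpow_neg, div_eq_mul_inv]
    rw [h2, h1.tsum_eq]
    unfold EL
    refine tprod_congr fun v => ?_
    have hn : ((nm v : ℕ) : ℂ) ≠ 0 := by
      have := two_le_nm v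
      exact_mod_cast (by omega : nm v ≠ 0)
    rw [Finset.prod_inv_distrib]
    congr 1
    obtain ⟨X, hX⟩ : ∃ X : ℂ, X = (((Real.sqrt (nm v : ℝ) : ℝ) : ℂ))⁻¹ * ((nm v : ℕ) : ℂ) ^ (-s) := ⟨_, rfl⟩
    have e0 : (((Real.sqrt (nm v : ℝ) : ℝ) : ℂ))⁻¹ = ((nm v : ℕ) : ℂ) ^ (-(1 / 2) : ℂ) := by
      rw [Real.sqrt_eq_rpow, Complex.ofReal_cpow (Nat.cast_nonneg _), Complex.cpow_neg]
      push_cast
      rfl
    have e1 : ((nm v : ℕ) : ℂ) ^ (-(s + 1 / 2)) = X := by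
      rw [hX, e0, ← Complex.cpow_add _ _ hn]
      congr 1
      ring
    have e2 : ((nm v : ℕ) : ℂ) ^ (-2 * (s + 1 / 2)) = X ^ 2 := by
      rw [← e1, ← Complex.cpow_nat_mul]
      congr 1
      push_cast
      ring
    have e3 : ∀ j : Fin 2, β v j * ((nm v : ℕ) : ℂ) ^ (-s) = r v j * X := fun j => by
      rw [hX, hβ]
      ring
    simp only [e3]
    rw [← hr2 v X]
    unfold gv
    rw [e1, e2]
    ring
  · rw [Fin.sum_univ_two, hβ, (fr_pow (hr2 v) k).1]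
    simp only [mul_pow, inv_pow]
    ring

open Pool.Agent.H921R2.TatePole in
/-- the L-function of an elliptic curve over a number field -/
theorem exK (h : KL a δ A Λ) (hd : ∀ v, δ v = 0 ∨ δ v = (nm v : ℂ)) :
    ∃ L : LFunction, (∀ (b : ℝ) (g : ℝ → ℂ), W L b g = WK a δ A b g) ∧ SelfDual L ∧
      ∃ k : ℂ, k ≠ 0 ∧ ∀ s, L.Λ s = k * Λ (s + (1 - 1 / 2)) := by
  classical
  obtain ⟨β, lam, c, l1, cb, conv, ser, hΛc, hsum⟩ := coeffs h hd
  obtain ⟨ε, hε, hfe⟩ := NX_fe h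
  have hA0 : 0 < A := by linarith [h.one_le]
  have hk : ((2 ^ dg K * A ^ (-(1 / 4 : ℝ)) : ℝ) : ℂ) ≠ 0 := by
    have : 0 < 2 ^ dg K * A ^ (-(1 / 4 : ℝ)) := by positivity
    exact_mod_cast this.ne'
  let L : LFunction :=
    { m := dg K + dg K
      Q := A
      α := fun j => -mu (dg K) j
      r := 0
      b := lam
      c := c
      w := ε
      Λ := NX K A Λ
      one_le_m := le_add_right dg_pos
      one_le_Q := h.one_le
      α_re := fun j => by
        rcases mu_cases j with h1 | h1 <;> rw [h1]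
        · norm_num
        · norm_num
      r_le := Nat.zero_le _
      b_one := l1
      c_bound := fun n _ => cb n
      euler := conv
      w_norm := hε
      entire := NX_diff h
      order := NX_order h
      fe := fun s => by
        rw [hfe (1 - s), map_sub, map_one, sub_sub_cancel]
      dirichlet := ⟨2, fun s hs => by
        rw [NX_eq h (by linarith), ser s hs, pow_zero, one_mul]
        unfold H353.E.gaf
        simp only [sub_eq_add_neg]⟩ }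
  refine ⟨L, fun b g => ?_, ?_, _, hk, fun s => ?_⟩
  · unfold W WK
    have e3 : L.r = 0 := rfl
    have e4 : L.Q = A := rfl
    rw [e3, e4, Nat.cast_zero, mul_zero, zero_mul, zero_add]
    congr 1
    · congr 1
      refine integral_congr_ae (Eventually.of_forall fun t => ?_)
      simp only [mc_line]
      congr 1
      have e5 : ∑ j, ((digamma ((1 / 2 + t * I + L.α j) / 2)).re - Real.log Real.pi) =
          dg K * (((digamma ((1 + t * I) / 2)).re - Real.log Real.pi) + ((digamma ((2 + t * I) / 2)).re - Real.log Real.pi)) := by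
        show ∑ j : Fin (dg K + dg K), ((digamma ((1 / 2 + t * I + -mu (dg K) j) / 2)).re - Real.log Real.pi) = _
        unfold mu
        rw [Fin.sum_univ_add]
        simp only [Fin.append_left, Fin.append_right, Finset.sum_const, Finset.card_univ, Fintype.card_fin, nsmul_eq_mul]
        have e6 : 1 / 2 + (t : ℂ) * I + -(-1 / 2) = 1 + t * I := by ring
        have e7 : 1 / 2 + (t : ℂ) * I + -(-3 / 2) = 2 + t * I := by ring
        rw [e6, e7]
        ring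
      rw [e5]
      have e6 := digamma_dup (t := t)
      have e7 : Real.log (2 * Real.pi) = Real.log 2 + Real.log Real.pi := Real.log_mul (by norm_num) Real.pi_pos.ne'
      rw [e7]
      congr 2
      linarith
    · refine congrArg (fun z : ℂ => 2 * z.re) ?_
      have h1 := Pool.Agent.Q210.TR.t_REG (HeightOneSpectrum (𝓞 K)) 2 (fun v => nm v) β (fun v => two_le_nm v)
        (fun M => fin_nm M) ⌊Real.exp (2 * b)⌋₊
        (fun n => ((Real.sqrt n : ℝ) : ℂ)⁻¹ * ∫ x : ℝ, g (x + Real.log n) * (starRingEnd ℂ) (g x))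
      have h2 : ∑ n ∈ Finset.Icc 1 ⌊Real.exp (2 * b)⌋₊, ((ArithmeticFunction.vonMangoldt n : ℝ) : ℂ) / ((Real.sqrt n : ℝ) : ℂ) * L.c n *
          ∫ x : ℝ, g (x + Real.log n) * (starRingEnd ℂ) (g x) =
          ∑ n ∈ Finset.Icc 1 ⌊Real.exp (2 * b)⌋₊, Th (fun v : HeightOneSpectrum (𝓞 K) => nm v) β n *
            (((Real.sqrt n : ℝ) : ℂ)⁻¹ * ∫ x : ℝ, g (x + Real.log n) * (starRingEnd ℂ) (g x)) := by
        refine Finset.sum_congr rfl fun n _ => ?_
        have h3 := hΛc n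
        show ((ArithmeticFunction.vonMangoldt n : ℝ) : ℂ) / ((Real.sqrt n : ℝ) : ℂ) * c n * _ = Th nm β n * _
        rw [← h3]
        ring
      rw [h2, h1]
      have hset : {x : HeightOneSpectrum (𝓞 K) × ℕ | 1 ≤ x.2 ∧ nm x.1 ^ x.2 ≤ ⌊Real.exp (2 * b)⌋₊} =
          {x : HeightOneSpectrum (𝓞 K) × ℕ | 1 ≤ x.2 ∧ (nm x.1 : ℝ) ^ x.2 ≤ Real.exp (2 * b)} := by
        ext x
        refine and_congr_right fun _ => ?_
        rw [Nat.le_floor_iff (Real.exp_pos _).le, Nat.cast_pow]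
      rw [hset]
      refine finsum_mem_congr rfl fun x hx => ?_
      have h5 : (0 : ℝ) < nm x.1 := by
        have := two_le_nm x.1
        exact_mod_cast (by omega : 0 < nm x.1)
      have h6 : Real.sqrt ((nm x.1 ^ x.2 : ℕ) : ℝ) = Real.sqrt (nm x.1 : ℝ) ^ x.2 := by
        rw [Nat.cast_pow, Real.sqrt_eq_rpow, Real.sqrt_eq_rpow, ← Real.rpow_natCast, ← Real.rpow_natCast,
          ← Real.rpow_mul h5.le, ← Real.rpow_mul h5.le, mul_comm]
      have h7 : Real.log ((nm x.1 ^ x.2 : ℕ) : ℝ) = x.2 * Real.log (nm x.1) := by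
        rw [Nat.cast_pow, Real.log_pow]
      rw [hsum x.1 x.2, h6, h7]
      have h8 : ((Real.sqrt (nm x.1 : ℝ) : ℝ) : ℂ) * ((Real.sqrt (nm x.1 : ℝ) : ℝ) : ℂ) = (nm x.1 : ℂ) := by
        rw [← Complex.ofReal_mul, Real.mul_self_sqrt h5.le]
        simp
      have h9 : (nm x.1 : ℂ) ^ x.2 = ((Real.sqrt (nm x.1 : ℝ) : ℝ) : ℂ) ^ x.2 * ((Real.sqrt (nm x.1 : ℝ) : ℝ) : ℂ) ^ x.2 := by
        rw [← mul_pow, h8]
      rw [h9, Complex.ofReal_pow]
      rw [div_eq_mul_inv, mul_inv]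
      ring
  · obtain ⟨w, hw, hf⟩ := h.fe
    refine ⟨w, ?_, fun s => ?_⟩
    · rcases hw with rfl | rfl <;> norm_num
    · show NX K A Λ (1 - s) = w * NX K A Λ s
      unfold NX
      have e : 1 - s + 1 / 2 = 2 - (s + 1 / 2) := by ring
      rw [hf (s + 1 / 2), e, ← mul_assoc, ← mul_assoc, mul_comm (w : ℂ), mul_assoc _ (w : ℂ) (w : ℂ)]
      have hw2 : (w : ℂ) * w = 1 := by
        rcases hw with rfl | rfl <;> norm_num
      rw [hw2, mul_one]
  · show NX K A Λ s = _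
    unfold NX
    have e : s + 1 / 2 = s + (1 - 1 / 2) := by ring
    rw [e]

end

end Pool.Agent.Q286.TR
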