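import Pool.Agent.Q286.TR.Zeta
import Pool.Agent.Q286.RL.Eul

/-! The triangle law for entire Euler products. -/

set_option autoImplicit false

namespace Pool.Agent.Q286.TR

open Complex MeasureTheory Filter Topology Set
open scoped ComplexConjugate
open Pool.Agent.Q286.RL Pool.Agent.Q286.ZR
open Pool.Agent.W189.LC

variable {τ κ : ℝ} {F : ℂ → ℂ}

/-- zeros in a compact set -/
theorem zeros_compact_finite (hF : Differentiable ℂ F) (hne : ∃ z, F z ≠ 0) {S : Set ℂ}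
    (hS : IsCompact S) : (S ∩ {z | F z = 0}).Finite := by
  have hA : AnalyticOnNhd ℂ F univ := fun z _ => hF.analyticAt z
  by_contra hinf
  have hinf' : (S ∩ {z | F z = 0}).Infinite := hinf
  obtain ⟨z, -, hz⟩ := hinf'.exists_accPt_of_subset_isCompact hS Set.inter_subset_left
  have h2 : ∃ᶠ w in 𝓝[≠] z, F w = 0 := by
    rw [accPt_iff_frequently_nhdsNE] at hz
    exact hz.mono fun w hw => hw.2
  obtain ⟨y, hy⟩ := hne
  exact hy (hA.eqOn_zero_of_preconnected_of_frequently_eq_zero isPreconnected_univ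
    (mem_univ z) h2 (mem_univ y))

theorem ent_ord_ne_top (hF : Differentiable ℂ F) (hne : ∃ z, F z ≠ 0) (z : ℂ) :
    analyticOrderAt F z ≠ ⊤ := by
  intro h
  rw [analyticOrderAt_eq_top] at h
  have hA : AnalyticOnNhd ℂ F univ := fun z _ => hF.analyticAt z
  obtain ⟨y, hy⟩ := hne
  exact hy (hA.eqOn_zero_of_preconnected_of_eventuallyEq_zero isPreconnected_univ
    (mem_univ z) h (mem_univ y))

theorem ent_ord_ne_zero (hF : Differentiable ℂ F) (hne : ∃ z, F z ≠ 0) {ρ : ℂ} :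
    analyticOrderNatAt F ρ ≠ 0 ↔ F ρ = 0 := by
  have h1 : analyticOrderNatAt F ρ = 0 ↔ F ρ ≠ 0 := by
    rw [← (hF.analyticAt ρ).analyticOrderAt_eq_zero]
    unfold analyticOrderNatAt
    obtain ⟨k, hk⟩ := ENat.ne_top_iff_exists.1 (ent_ord_ne_top hF hne ρ)
    rw [← hk]
    simp
  rw [Ne, h1, not_not]

theorem ent_sector_finite (hF : Differentiable ℂ F) (hne : ∀ z : ℂ, κ < z.re → F z ≠ 0)
    {s : ℂ} (hτ : 0 < τ) :
    {ρ : ℂ | F ρ = 0 ∧ |(ρ - s).im| ≤ τ * (ρ - s).re}.Finite := by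
  have hex : ∃ z, F z ≠ 0 := ⟨((κ + 1 : ℝ) : ℂ), hne _ (by simp)⟩
  set S : Set ℂ := Icc s.re κ ×ℂ Icc (s.im - τ * (κ - s.re)) (s.im + τ * (κ - s.re)) with hS
  have hSc : IsCompact S := isCompact_Icc.reProdIm isCompact_Icc
  refine (zeros_compact_finite hF hex hSc).subset ?_
  rintro ρ ⟨h1, h2⟩
  refine ⟨?_, h1⟩
  have h3 : ρ.re ≤ κ := by
    by_contra h
    exact hne ρ (not_le.1 h) h1
  have h4 : 0 ≤ τ * (ρ - s).re := (abs_nonneg _).trans h2
  have h5 : 0 ≤ (ρ - s).re := nonneg_of_mul_nonneg_right h4 hτ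
  rw [Complex.sub_re] at h2 h5
  rw [Complex.sub_im] at h2
  have h6 : τ * (ρ.re - s.re) ≤ τ * (κ - s.re) := mul_le_mul_of_nonneg_left (by linarith) hτ.le
  obtain ⟨h7, h8⟩ := abs_le.1 h2
  rw [hS, Complex.mem_reProdIm]
  refine ⟨⟨by linarith, h3⟩, ⟨by linarith, by linarith⟩⟩

/-- the number of zeros of `F` in the sector, with multiplicities and weights -/
noncomputable def zsF (τ : ℝ) (F : ℂ → ℂ) (s : ℂ) : ℝ :=
  ∑ᶠ ρ : ℂ, wt τ (ρ - s) * (analyticOrderNatAt F ρ : ℝ)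

theorem zsF_supp (hF : Differentiable ℂ F) (hne : ∀ z : ℂ, κ < z.re → F z ≠ 0) (hτ : 0 < τ)
    (s : ℂ) :
    (Function.support fun ρ : ℂ => wt τ (ρ - s) * (analyticOrderNatAt F ρ : ℝ)).Finite := by
  have hex : ∃ z, F z ≠ 0 := ⟨((κ + 1 : ℝ) : ℂ), hne _ (by simp)⟩
  refine (ent_sector_finite hF hne (s := s) hτ).subset ?_
  intro ρ hρ
  rw [Function.mem_support] at hρ
  have h1 : wt τ (ρ - s) ≠ 0 := fun h => hρ (by rw [h, zero_mul])
  have h2 : analyticOrderNatAt F ρ ≠ 0 := fun h => hρ (by rw [h]; simp)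
  exact ⟨(ent_ord_ne_zero hF hex).1 h2, wt_mem h1⟩

theorem zsF_eq_zero_iff (hF : Differentiable ℂ F) (hne : ∀ z : ℂ, κ < z.re → F z ≠ 0)
    (hτ : 0 < τ) (s : ℂ) :
    zsF τ F s = 0 ↔ ∀ ρ : ℂ, |(ρ - s).im| ≤ τ * (ρ - s).re → F ρ ≠ 0 := by
  have hex : ∃ z, F z ≠ 0 := ⟨((κ + 1 : ℝ) : ℂ), hne _ (by simp)⟩
  have hnn : ∀ ρ : ℂ, 0 ≤ wt τ (ρ - s) * (analyticOrderNatAt F ρ : ℝ) := fun ρ =>
    mul_nonneg (wt_nonneg hτ _) (Nat.cast_nonneg _)
  constructor
  · intro h ρ hρ h0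
    unfold zsF at h
    rw [finsum_eq_sum _ (zsF_supp hF hne hτ s)] at h
    have h1 : 0 < wt τ (ρ - s) := (wt_pos_iff hτ).2 hρ
    have h2 : analyticOrderNatAt F ρ ≠ 0 := (ent_ord_ne_zero hF hex).2 h0
    have h3 : (0 : ℝ) < analyticOrderNatAt F ρ := by
      exact_mod_cast Nat.pos_of_ne_zero h2
    have h4 := (Finset.sum_eq_zero_iff_of_nonneg fun z _ => hnn z).1 h ρ (by
      rw [Set.Finite.mem_toFinset, Function.mem_support]
      positivity)
    have h5 : 0 < wt τ (ρ - s) * (analyticOrderNatAt F ρ : ℝ) := mul_pos h1 h3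
    linarith
  · intro h
    unfold zsF
    rw [← finsum_zero (α := ℂ)]
    congr 1
    funext ρ
    by_cases h1 : wt τ (ρ - s) = 0
    · rw [h1, zero_mul]
    · have h2 : analyticOrderNatAt F ρ = 0 := by
        by_contra h3
        exact h ρ (wt_mem h1) ((ent_ord_ne_zero hF hex).1 h3)
      rw [h2]
      simp

theorem NT_ent (hF : Differentiable ℂ F) (τ : ℝ) (s : ℂ) :
    NT τ (fun w => F (s + w)) = zsF τ F s := by
  rw [NT_shift]
  unfold zsF
  congr 1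
  funext ρ
  have h : od F ρ = (analyticOrderNatAt F ρ : ℤ) := untop_order (hF.analyticAt ρ)
  rw [h]
  push_cast
  rfl

variable {P J : Type} [Fintype J] {q : P → ℝ} {th : P → J → ℂ}

/-- the data of the triangle law for an entire Euler product -/
theorem ED_tm (E : ED q th) (hF : Differentiable ℂ F) (hτ : 0 < τ) (s : ℂ)
    (hprod : ∀ w : ℂ, 1 < w.re →
      HasProd (fun v => ∏ j, (1 - th v j * (q v : ℂ) ^ (-w))⁻¹) (F (s + w))) :
    TM τ (fr q) (ec th) (fun w => F (s + w)) where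
  toCD := E.cd
  pos := hτ
  mero := fun x _ => by
    have h : Differentiable ℂ fun w : ℂ => F (s + w) := hF.comp (by fun_prop)
    exact (h.analyticAt _).meromorphicAt
  eq := fun w hw => (hprod w hw).unique (E.hasProd hw)

/-- **The triangle law for an entire Euler product.** -/
theorem ent_tri [Countable P] (E : ED q th) (hF : Differentiable ℂ F) (hτ : 0 < τ) (s : ℂ)
    (hprod : ∀ w : ℂ, 1 < w.re →
      HasProd (fun v => ∏ j, (1 - th v j * (q v : ℂ) ^ (-w))⁻¹) (F (s + w)))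
    {γ : ℝ} (hγ : Real.pi / 2 < γ) :
    ∃ C T₀ : ℝ, 0 ≤ C ∧ 1 ≤ T₀ ∧ ∀ T ≥ T₀,
      HasSum (fun x : P × ℕ => ec th x * (kt γ τ (fr q x / T) : ℂ)) (tmn (fr q) (ec th) γ τ T) ∧
      ‖tmn (fr q) (ec th) γ τ T - (Real.pi * zsF τ F s : ℝ)‖ ≤ C / T := by
  have h := TM.law (ED_tm E hF hτ s hprod) hγ
  rwa [NT_ent hF] at h

end Pool.Agent.Q286.TR
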