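import Pool.Agent.Q286.TR.Base

set_option autoImplicit false

/-!
# The trichotomy in other normalisations
-/

namespace Pool.Agent.Q286.TR

open Complex MeasureTheory Filter Topology

/-- transform centred at `c` -/
noncomputable def MC (c : ℂ) (f : ℝ → ℂ) (s : ℂ) : ℂ := ∫ x : ℝ, f x * cexp ((s - c) * x)

/-- ground states of the form `V` -/
def GroundV (V : ℝ → (ℝ → ℂ) → ℝ) (a : ℝ) (n : ℕ) (f : ℝ → ℂ) : Prop :=
  Trig a n f ∧ N f ≠ 0 ∧ ∀ g : ℝ → ℂ, Trig a n g → V a f * N g ≤ V a g * N f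

/-- the product over the points with the property `P` -/
noncomputable def XC (P : ℂ → Prop) (c : ℂ) (s : ℂ) : ℂ := ∏' ρ : {ρ : ℂ // P ρ}, (1 - (s - c) ^ 2 / ((ρ : ℂ) - c) ^ 2)

/-- the Gaussian factor -/
noncomputable def GC (c : ℂ) (κ : ℝ) (s : ℂ) : ℂ := cexp ((s - c) ^ 2 / (Real.pi ^ 2 * κ))

/-- the spectrum -/
def OrdC (c : ℂ) (f : ℝ → ℂ) (u v : ℝ) : Set ℝ := {t : ℝ | u < t ∧ t < v ∧ MC c f (c + t * I) = 0}

/-- the `k`-th largest real part -/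
noncomputable def betaC (Λ : ℂ → ℂ) (r : ℝ) (k : ℕ) : ℝ := sInf {x : ℝ | r ≤ x ∧ {s : ℂ | Λ s = 0 ∧ x < s.re}.encard < k}

/-- all the conclusions -/
structure Out (V W' : ℝ → (ℝ → ℂ) → ℝ) (Λ : ℂ → ℂ) (P : ℂ → Prop) (c : ℂ) (r : ℝ) : Prop where
  ex : ∀ a : ℝ, 0 < a → ∀ m : ℕ, ∃ f, GroundV V a m f
  even : ∀ (κ : ℝ) (n : ℝ → ℕ), 0 < κ → Tendsto (fun a : ℝ => (n a : ℝ) / a ^ 2) atTop (𝓝 κ) →
    (((∀ s : ℂ, Λ s = 0 → s.re = r) ∧ Λ c ≠ 0) ↔ ∀ f : ℝ → ℝ → ℂ, (∀ a, 0 < a → GroundV V a (n a) (f a)) →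
      TendstoLocallyUniformly (fun a s => MC c (f a) s / MC c (f a) c) (fun s => XC P c s * GC c κ s) atTop)
  odd : ∀ (κ : ℝ) (n : ℝ → ℕ), 0 < κ → Tendsto (fun a : ℝ => (n a : ℝ) / a ^ 2) atTop (𝓝 κ) →
    (((∀ s : ℂ, Λ s = 0 → s.re = r) ∧ Λ c = 0) ↔ ∀ f : ℝ → ℝ → ℂ, (∀ a, 0 < a → GroundV V a (n a) (f a)) →
      TendstoLocallyUniformly (fun a s => MC c (f a) s / deriv (MC c (f a)) c) (fun s => (s - c) * XC P c s * GC c κ s) atTop)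
  str : ∀ (κ : ℝ) (n : ℝ → ℕ), 0 < κ → Tendsto (fun a : ℝ => (n a : ℝ) / a ^ 2) atTop (𝓝 κ) →
    (∀ s : ℂ, Λ s = 0 → s.re = r) → (∃ A : ℝ, ∀ a, A ≤ a → ∀ f, GroundV V a (n a) f →
        (Λ c ≠ 0 → MC c f c ≠ 0 ∧ ∀ x, f (-x) = f x) ∧
        (Λ c = 0 → deriv (MC c f) c ≠ 0 ∧ ∀ x, f (-x) = -f x) ∧
        ∀ g, GroundV V a (n a) g → ∃ z : ℂ, ∀ x, g x = z * f x) ∧
      (∀ b : ℝ, b < 4 * κ → ∃ A : ℝ, ∀ a, A ≤ a → ∀ f, GroundV V a (n a) f →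
        0 < V a f ∧ V a f ≤ Real.exp (-(b * a ^ 2 * Real.log a)) * N f) ∧
      (∀ B : ℝ, ∃ A : ℝ, ∀ a, A ≤ a → ∀ f, GroundV V a (n a) f → ∀ x ∈ Level (V a) a (n a) 2, B * V a f ≤ x * N f) ∧
      (∀ ρ : ℂ, Λ ρ = 0 → ∀ b : ℝ, b < 2 * κ → ∃ A : ℝ, ∀ a, A ≤ a → ∀ f, GroundV V a (n a) f →
        ∃ t : ℝ, MC c f (c + t * I) = 0 ∧ |t - ρ.im| ≤ Real.exp (-(b * a ^ 2 * Real.log a)))
  not : ∀ (κ : ℝ) (n : ℝ → ℕ), 0 < κ → Tendsto (fun a : ℝ => (n a : ℝ) / a ^ 2) atTop (𝓝 κ) →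
    ¬ (∀ s : ℂ, Λ s = 0 → s.re = r) → ∀ m : ℝ → ℕ, (∀ᶠ a in atTop, n a ≤ m a) →
      (∀ B : ℝ, ∃ A : ℝ, ∀ a, A ≤ a → ∀ f, GroundV V a (m a) f → V a f < -B * N f) ∧
      ∀ (u v : ℝ) (C : ℕ), u < v → ∃ A : ℝ, ∀ a, A ≤ a → ∀ f, GroundV V a (m a) f → (C : ℕ∞) ≤ (OrdC c f u v).encard
  ord : ∀ (κ : ℝ) (n : ℝ → ℕ), 0 < κ → Tendsto (fun a : ℝ => (n a : ℝ) / a ^ 2) atTop (𝓝 κ) →
    ((∀ s : ℂ, Λ s = 0 → s.re = r) ↔ ∃ (u v : ℝ) (C : ℕ), u < v ∧ ∀ A : ℝ, ∃ a, A ≤ a ∧ ∃ f, GroundV V a (n a) f ∧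
      (OrdC c f u v).encard ≤ (C : ℕ∞))
  low : ∀ (κ : ℝ) (n : ℝ → ℕ), 0 < κ → Tendsto (fun a : ℝ => (n a : ℝ) / a ^ 2) atTop (𝓝 κ) →
    ((∀ s : ℂ, Λ s = 0 → s.re = r) ↔ ∃ B : ℝ, ∀ A : ℝ, ∃ a, A ≤ a ∧ ∃ f, GroundV V a (n a) f ∧ -B * N f ≤ V a f)
  rate : ∀ m : ℝ → ℕ, Tendsto (fun a : ℝ => (m a : ℝ) / a) atTop atTop →
    (∀ ε : ℝ, 0 < ε → ∀ᶠ a : ℝ in atTop, Real.log (m a) ≤ Real.exp (ε * a)) →
    ∀ k : ℕ, 1 ≤ k →
      Tendsto (fun a : ℝ => Real.log (max 1 (-sInf (Level (W' a) a (m a) k))) / a) atTop (𝓝 (2 * (betaC Λ r k - r)))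

section

variable {L : LFunction} {Λ : ℂ → ℂ} {c : ℂ} {r : ℝ} {k : ℂ} {V W' : ℝ → (ℝ → ℂ) → ℝ} {q : ℝ} {P : ℂ → Prop}

lemma mc_eq (c : ℂ) (f : ℝ → ℂ) (s : ℂ) : MC c f s = M f (s - (c - 1 / 2)) := by
  unfold MC M
  congr 1
  funext x
  congr 2
  ring

lemma mc_c (c : ℂ) (f : ℝ → ℂ) : MC c f c = M f (1 / 2) := by
  rw [mc_eq]
  congr 1
  ring

lemma mc_fun (c : ℂ) (f : ℝ → ℂ) : MC c f = fun s => M f (s - (c - 1 / 2)) := funext fun s => mc_eq c f s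

lemma mc_deriv (c : ℂ) (f : ℝ → ℂ) : deriv (MC c f) c = deriv (M f) (1 / 2) := by
  rw [mc_fun, deriv_comp_sub_const]
  congr 1
  ring

lemma mc_line (c : ℂ) (f : ℝ → ℂ) (t : ℝ) : MC c f (c + t * I) = M f (1 / 2 + t * I) := by
  rw [mc_eq]
  congr 1
  ring

lemma ordC_eq (c : ℂ) (f : ℝ → ℂ) (u v : ℝ) : OrdC c f u v = Ord f u v := by
  unfold OrdC Ord
  simp only [mc_line]

lemma N_nonneg (f : ℝ → ℂ) : 0 ≤ N f := integral_nonneg fun _ => by positivity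

lemma rh_iff (hc : c = r) (hk : k ≠ 0) (hΛ : ∀ s, L.Λ s = k * Λ (s + (c - 1 / 2))) :
    GRH L ↔ ∀ s : ℂ, Λ s = 0 → s.re = r := by
  constructor
  · intro h s hs
    have h1 := h (s - (c - 1 / 2)) (by rw [hΛ, sub_add_cancel, hs, mul_zero])
    rw [hc] at h1
    have h2 : (s - ((r : ℂ) - 1 / 2)).re = s.re - (r - 1 / 2) := by
      rw [Complex.sub_re, Complex.sub_re, Complex.ofReal_re]
      norm_num
    rw [h2] at h1
    linarith
  · intro h s hs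
    rw [hΛ] at hs
    have h1 := h _ ((mul_eq_zero.1 hs).resolve_left hk)
    rw [hc] at h1
    have h2 : (s + ((r : ℂ) - 1 / 2)).re = s.re + (r - 1 / 2) := by
      rw [Complex.add_re, Complex.sub_re, Complex.ofReal_re]
      norm_num
    rw [h2] at h1
    linarith

lemma half0 (hk : k ≠ 0) (hΛ : ∀ s, L.Λ s = k * Λ (s + (c - 1 / 2))) : L.Λ (1 / 2) = 0 ↔ Λ c = 0 := by
  rw [hΛ, add_sub_cancel, mul_eq_zero]
  exact ⟨fun h => h.resolve_left hk, Or.inr⟩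

lemma groundV_iff (hq : 0 < q) (hV : ∀ a, 0 < a → ∀ (n : ℕ) (f : ℝ → ℂ), Trig a n f → V a f = q * W2 L a f)
    {a : ℝ} (ha : 0 < a) (n : ℕ) (f : ℝ → ℂ) : GroundV V a n f ↔ Ground L a n f := by
  unfold GroundV Ground
  constructor
  · rintro ⟨h1, h2, h3⟩
    refine ⟨h1, h2, fun g hg => ?_⟩
    have h4 := h3 g hg
    rw [hV a ha n f h1, hV a ha n g hg, mul_assoc, mul_assoc] at h4
    exact le_of_mul_le_mul_left h4 hq
  · rintro ⟨h1, h2, h3⟩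
    refine ⟨h1, h2, fun g hg => ?_⟩
    rw [hV a ha n f h1, hV a ha n g hg, mul_assoc, mul_assoc]
    exact mul_le_mul_of_nonneg_left (h3 g hg) hq.le

lemma levelV (hq : 0 < q) (hV : ∀ a, 0 < a → ∀ (n : ℕ) (f : ℝ → ℂ), Trig a n f → V a f = q * W2 L a f)
    {a : ℝ} (ha : 0 < a) {n j : ℕ} {x : ℝ} (hx : x ∈ Level (V a) a n j) : x / q ∈ Level (W2 L a) a n j := by
  obtain ⟨U, h1, h2, h3⟩ := hx
  refine ⟨U, h1, h2, fun f hf => ?_⟩
  have h4 := h3 f hf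
  rw [hV a ha n f (h1 f hf)] at h4
  rw [div_mul_eq_mul_div, le_div_iff₀ hq, mul_comm]
  exact h4

lemma levelW (hW : ∀ a, 0 < a → ∀ (n : ℕ) (f : ℝ → ℂ), Trig a n f → W' a f = W L a f)
    {a : ℝ} (ha : 0 < a) (n j : ℕ) : Level (W' a) a n j = Level (W L a) a n j := by
  ext x
  constructor
  · rintro ⟨U, h1, h2, h3⟩
    refine ⟨U, h1, h2, fun f hf => ?_⟩
    rw [← hW a ha n f (h1 f hf)]
    exact h3 f hf
  · rintro ⟨U, h1, h2, h3⟩
    refine ⟨U, h1, h2, fun f hf => ?_⟩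
    rw [hW a ha n f (h1 f hf)]
    exact h3 f hf

lemma xc_eq (hc : c = r) (hk : k ≠ 0) (hΛ : ∀ s, L.Λ s = k * Λ (s + (c - 1 / 2)))
    (hP : ∀ ρ, P ρ ↔ (Λ ρ = 0 ∨ Λ ((starRingEnd ℂ) ρ) = 0) ∧ 0 < ρ.im) (s : ℂ) :
    XC P c s = Xred L (s - (c - 1 / 2)) := by
  have hz : ∀ s, L.Λ s = 0 ↔ Λ (s + (c - 1 / 2)) = 0 := fun s => by
    rw [hΛ, mul_eq_zero]
    exact ⟨fun h => h.resolve_left hk, Or.inr⟩
  have hd : ∀ ρ : ℂ, (starRingEnd ℂ) (ρ + (c - 1 / 2)) = (starRingEnd ℂ) ρ + (c - 1 / 2) := fun ρ => by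
    rw [hc, map_add, map_sub, Complex.conj_ofReal, map_div₀, map_one, map_ofNat]
  have hi : ∀ ρ : ℂ, (ρ + (c - 1 / 2)).im = ρ.im := fun ρ => by
    rw [hc, Complex.add_im, Complex.sub_im, Complex.ofReal_im]
    norm_num
  have key : ∀ ρ : ℂ, ((L.Λ ρ = 0 ∨ L.Λ ((starRingEnd ℂ) ρ) = 0) ∧ 0 < ρ.im) ↔ P (ρ + (c - 1 / 2)) := fun ρ => by
    rw [hP, hz, hz, hd, hi]
  let e : Upper L ≃ {ρ : ℂ // P ρ} :=
    { toFun := fun ρ => ⟨ρ.1 + (c - 1 / 2), (key ρ.1).1 ρ.2⟩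
      invFun := fun ρ => ⟨ρ.1 - (c - 1 / 2), (key _).2 (by rw [sub_add_cancel]; exact ρ.2)⟩
      left_inv := fun ρ => by
        apply Subtype.ext
        show ρ.1 + (c - 1 / 2) - (c - 1 / 2) = ρ.1
        ring
      right_inv := fun ρ => by
        apply Subtype.ext
        show ρ.1 - (c - 1 / 2) + (c - 1 / 2) = ρ.1
        ring }
  unfold XC Xred
  rw [← e.tprod_eq]
  refine tprod_congr fun ρ => ?_
  show 1 - (s - c) ^ 2 / (ρ.1 + (c - 1 / 2) - c) ^ 2 = 1 - (s - (c - 1 / 2) - 1 / 2) ^ 2 / (ρ.1 - 1 / 2) ^ 2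
  have e1 : ρ.1 + (c - 1 / 2) - c = ρ.1 - 1 / 2 := by ring
  have e2 : s - (c - 1 / 2) - 1 / 2 = s - c := by ring
  rw [e1, e2]

lemma gc_eq (c : ℂ) (κ : ℝ) (s : ℂ) : GC c κ s = Gs κ (s - (c - 1 / 2)) := by
  unfold GC Gs
  congr 3
  ring

lemma tlu_shift {F : ℝ → ℂ → ℂ} {G : ℂ → ℂ} (d : ℂ) :
    TendstoLocallyUniformly (fun a s => F a (s - d)) (fun s => G (s - d)) atTop ↔ TendstoLocallyUniformly F G atTop := by
  constructor
  · intro h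
    have h1 := h.comp (fun s : ℂ => s + d) (by fun_prop)
    have e1 : ((fun s => G (s - d)) ∘ fun s : ℂ => s + d) = G := by
      funext s
      simp [Function.comp]
    have e2 : (fun n : ℝ => (fun s => F n (s - d)) ∘ fun s : ℂ => s + d) = F := by
      funext n s
      simp [Function.comp]
    rw [e1, e2] at h1
    exact h1
  · intro h
    exact h.comp (fun s : ℂ => s - d) (by fun_prop)

lemma betaC_eq (hc : c = r) (hk : k ≠ 0) (hΛ : ∀ s, L.Λ s = k * Λ (s + (c - 1 / 2))) {j : ℕ} (hj : 1 ≤ j) :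
    betaC Λ r j - r = beta L j - 1 / 2 := by
  have hz : ∀ s, L.Λ s = 0 ↔ Λ (s + (c - 1 / 2)) = 0 := fun s => by
    rw [hΛ, mul_eq_zero]
    exact ⟨fun h => h.resolve_left hk, Or.inr⟩
  have hre : ∀ ρ : ℂ, (ρ + (c - 1 / 2)).re = ρ.re + (r - 1 / 2) := fun ρ => by
    rw [hc, Complex.add_re, Complex.sub_re, Complex.ofReal_re]
    norm_num
  have hset : ∀ x : ℝ, {s : ℂ | Λ s = 0 ∧ x + (r - 1 / 2) < s.re} = (fun s : ℂ => s + (c - 1 / 2)) '' {s : ℂ | L.Λ s = 0 ∧ x < s.re} := by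
    intro x
    ext s
    constructor
    · rintro ⟨h1, h2⟩
      refine ⟨s - (c - 1 / 2), ⟨?_, ?_⟩, by simp⟩
      · rw [hz, sub_add_cancel]
        exact h1
      · have := hre (s - (c - 1 / 2))
        rw [sub_add_cancel] at this
        linarith
    · rintro ⟨z, ⟨h1, h2⟩, rfl⟩
      refine ⟨(hz z).1 h1, ?_⟩
      simp only [hre]
      linarith
  have hcard : ∀ x : ℝ, {s : ℂ | Λ s = 0 ∧ x + (r - 1 / 2) < s.re}.encard = {s : ℂ | L.Λ s = 0 ∧ x < s.re}.encard := fun x => by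
    rw [hset x]
    exact (add_left_injective (c - 1 / 2)).encard_image _
  have hS : {x : ℝ | r ≤ x ∧ {s : ℂ | Λ s = 0 ∧ x < s.re}.encard < j} =
      (fun x : ℝ => x + (r - 1 / 2)) '' {x : ℝ | 1 / 2 ≤ x ∧ {s : ℂ | L.Λ s = 0 ∧ x < s.re}.encard < j} := by
    ext x
    constructor
    · rintro ⟨h1, h2⟩
      refine ⟨x - (r - 1 / 2), ⟨by linarith, ?_⟩, by ring⟩
      rw [← hcard, sub_add_cancel]
      exact h2
    · rintro ⟨y, ⟨h1, h2⟩, rfl⟩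
      refine ⟨by simp only; linarith, ?_⟩
      rw [← hcard] at h2
      exact h2
  unfold betaC beta
  rw [hS]
  have h : {x : ℝ | 1 / 2 ≤ x ∧ {s : ℂ | L.Λ s = 0 ∧ x < s.re}.encard < j}.Nonempty := by
    refine ⟨2, by norm_num, ?_⟩
    have h0 : {s : ℂ | L.Λ s = 0 ∧ 2 < s.re} = ∅ := by
      rw [Set.eq_empty_iff_forall_notMem]
      rintro s ⟨h1, h2⟩
      have h3 := (D1 L).strip s h1
      rw [abs_le] at h3
      linarith [h3.2]
    rw [h0, Set.encard_empty]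
    exact_mod_cast hj
  have hb : BddBelow {x : ℝ | 1 / 2 ≤ x ∧ {s : ℂ | L.Λ s = 0 ∧ x < s.re}.encard < j} := ⟨1 / 2, fun x hx => hx.1⟩
  have hmono : Monotone fun x : ℝ => x + (r - 1 / 2) := fun x y h => by simp only; linarith
  have h1 := hmono.map_csInf_of_continuousAt (by fun_prop) h hb
  rw [← h1]
  ring

/-- the zeros of a self-dual L-function are symmetric -/
lemma conj_zero (h2 : SelfDual L) (hk : k ≠ 0) (hc : c = r) (hΛ : ∀ s, L.Λ s = k * Λ (s + (c - 1 / 2))) (ρ : ℂ) :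
    Λ ((starRingEnd ℂ) ρ) = 0 ↔ Λ ρ = 0 := by
  obtain ⟨ε, hε, hs⟩ := h2
  have hw : L.w ≠ 0 := fun h => by
    have := L.w_norm
    rw [h, norm_zero] at this
    exact zero_ne_one this
  have key : ∀ s : ℂ, L.Λ ((starRingEnd ℂ) s) = 0 ↔ L.Λ s = 0 := fun s => by
    have h1 := hs s
    rw [L.fe s] at h1
    constructor
    · intro h
      rw [h, map_zero, mul_zero] at h1
      exact (mul_eq_zero.1 h1.symm).resolve_left hε
    · intro h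
      rw [h, mul_zero] at h1
      have h3 := (mul_eq_zero.1 h1).resolve_left hw
      exact (map_eq_zero _).1 h3
  have hz : ∀ s, L.Λ s = 0 ↔ Λ (s + (c - 1 / 2)) = 0 := fun s => by
    rw [hΛ, mul_eq_zero]
    exact ⟨fun h => h.resolve_left hk, Or.inr⟩
  have h4 := key (ρ - (c - 1 / 2))
  have h5 : (starRingEnd ℂ) (ρ - (c - 1 / 2)) = (starRingEnd ℂ) ρ - (c - 1 / 2) := by
    rw [hc, map_sub, map_sub, Complex.conj_ofReal, map_div₀, map_one, map_ofNat]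
  rw [h5, hz, hz, sub_add_cancel, sub_add_cancel] at h4
  exact h4

/-- **The trichotomy in any normalisation.** -/
theorem out (hc : c = r) (hk : k ≠ 0) (hΛ : ∀ s, L.Λ s = k * Λ (s + (c - 1 / 2))) (hq : 0 < q)
    (hV : ∀ a, 0 < a → ∀ (n : ℕ) (f : ℝ → ℂ), Trig a n f → V a f = q * W2 L a f)
    (hW : ∀ a, 0 < a → ∀ (n : ℕ) (f : ℝ → ℂ), Trig a n f → W' a f = W L a f)
    (hP : ∀ ρ, P ρ ↔ (Λ ρ = 0 ∨ Λ ((starRingEnd ℂ) ρ) = 0) ∧ 0 < ρ.im) : Out V W' Λ P c r := by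
  have hrh := rh_iff (L := L) hc hk hΛ
  have h0 := half0 (L := L) hk hΛ
  have hG := fun {a : ℝ} (ha : 0 < a) (n : ℕ) (f : ℝ → ℂ) => groundV_iff (L := L) hq hV ha n f
  have key : ∀ (κ : ℝ) (n : ℝ → ℕ), 0 < κ → Tendsto (fun a : ℝ => (n a : ℝ) / a ^ 2) atTop (𝓝 κ) → _ :=
    fun κ n hκ hn => main L hκ hn
  have hall : ∀ (n : ℝ → ℕ) (f : ℝ → ℝ → ℂ), (∀ a, 0 < a → GroundV V a (n a) (f a)) ↔ ∀ a, 0 < a → Ground L a (n a) (f a) :=
    fun n f => ⟨fun h a ha => (hG ha _ _).1 (h a ha), fun h a ha => (hG ha _ _).2 (h a ha)⟩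
  have hup : ∀ {Q : ℝ → (ℝ → ℂ) → Prop} {n : ℝ → ℕ}, (∃ A : ℝ, ∀ a, A ≤ a → ∀ f, Ground L a (n a) f → Q a f) →
      ∃ A : ℝ, ∀ a, A ≤ a → 0 < a ∧ ∀ f, GroundV V a (n a) f → Q a f := by
    rintro Q n ⟨A, hA⟩
    refine ⟨max A 1, fun a ha => ?_⟩
    have h1 : 0 < a := lt_of_lt_of_le one_pos ((le_max_right _ _).trans ha)
    exact ⟨h1, fun f hf => hA a ((le_max_left _ _).trans ha) f ((hG h1 _ _).1 hf)⟩
  have hex : ∀ {Q : ℝ → (ℝ → ℂ) → Prop} {n : ℝ → ℕ}, (∀ A : ℝ, ∃ a, A ≤ a ∧ ∃ f, Ground L a (n a) f ∧ Q a f) ↔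
      ∀ A : ℝ, ∃ a, A ≤ a ∧ ∃ f, GroundV V a (n a) f ∧ Q a f := by
    intro Q n
    constructor
    · intro h A
      obtain ⟨a, ha, f, hf, hQ⟩ := h (max A 1)
      have h1 : 0 < a := lt_of_lt_of_le one_pos ((le_max_right _ _).trans ha)
      exact ⟨a, (le_max_left _ _).trans ha, f, (hG h1 _ _).2 hf, hQ⟩
    · intro h A
      obtain ⟨a, ha, f, hf, hQ⟩ := h (max A 1)
      have h1 : 0 < a := lt_of_lt_of_le one_pos ((le_max_right _ _).trans ha)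
      exact ⟨a, (le_max_left _ _).trans ha, f, (hG h1 _ _).1 hf, hQ⟩
  have hVg : ∀ {a : ℝ}, 0 < a → ∀ {n : ℕ} {f : ℝ → ℂ}, GroundV V a n f → V a f = q * W2 L a f :=
    fun {a} ha {n} {f} hf => hV a ha n f hf.1
  refine ⟨fun a ha m => ?_, fun κ n hκ hn => ?_, fun κ n hκ hn => ?_, fun κ n hκ hn hR => ?_, fun κ n hκ hn hR m hm => ?_,
    fun κ n hκ hn => ?_, fun κ n hκ hn => ?_, fun m hm hm2 j hj => ?_⟩
  · obtain ⟨f, hf⟩ := Pool.Agent.Q240.CG.exists_gnd (D := D2 L) (W2_isW L) ha m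
    exact ⟨f, (hG ha m f).2 hf⟩
  · obtain ⟨h1, -⟩ := key κ n hκ hn
    rw [← hrh, Ne, ← h0]
    refine h1.trans ?_
    refine forall_congr' fun f => ?_
    rw [hall]
    refine imp_congr_right fun _ => ?_
    rw [← tlu_shift (c - 1 / 2)]
    simp only [mc_c, mc_eq, xc_eq hc hk hΛ hP, gc_eq]
  · obtain ⟨-, h1, -⟩ := key κ n hκ hn
    rw [← hrh, ← h0]
    refine h1.trans ?_
    refine forall_congr' fun f => ?_
    rw [hall]
    refine imp_congr_right fun _ => ?_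
    rw [← tlu_shift (c - 1 / 2)]
    simp only [mc_deriv]
    simp only [mc_eq, xc_eq hc hk hΛ hP, gc_eq]
    have e : ∀ s : ℂ, s - (c - 1 / 2) - 1 / 2 = s - c := fun s => by ring
    simp only [e]
  · obtain ⟨-, -, h1, -⟩ := key κ n hκ hn
    obtain ⟨h2, h3, h4, h5⟩ := h1 (hrh.2 hR)
    refine ⟨?_, fun b hb => ?_, fun B => ?_, fun ρ hρ b hb => ?_⟩
    · obtain ⟨A, hA⟩ := hup h2
      refine ⟨A, fun a ha f hf => ?_⟩
      obtain ⟨ha0, hA2⟩ := hA a ha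
      obtain ⟨h6, h7, h8⟩ := hA2 f hf
      refine ⟨fun hne => ?_, fun he => ?_, fun g hg => h8 g ((hG ha0 _ _).1 hg)⟩
      · rw [mc_c]
        exact h6 fun h => hne (h0.1 h)
      · rw [mc_deriv]
        exact h7 (h0.2 he)
    · obtain ⟨A, hA⟩ := hup (h3 ((b + 4 * κ) / 2) (by linarith))
      -- the constant `q` is absorbed
      have hlog : ∀ᶠ a : ℝ in atTop, q * Real.exp (-((b + 4 * κ) / 2 * a ^ 2 * Real.log a)) ≤ Real.exp (-(b * a ^ 2 * Real.log a)) := by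
        have h9 : Tendsto (fun a : ℝ => a ^ 2 * Real.log a) atTop atTop :=
          (tendsto_pow_atTop (two_ne_zero)).atTop_mul_atTop₀ Real.tendsto_log_atTop
        filter_upwards [h9.eventually_ge_atTop (Real.log q / ((4 * κ - b) / 2))] with a ha
        have h10 : Real.log q ≤ (4 * κ - b) / 2 * (a ^ 2 * Real.log a) := by
          rw [div_le_iff₀ (by linarith)] at ha
          linarith
        calc q * Real.exp (-((b + 4 * κ) / 2 * a ^ 2 * Real.log a)) =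
            Real.exp (Real.log q + -((b + 4 * κ) / 2 * a ^ 2 * Real.log a)) := by rw [Real.exp_add, Real.exp_log hq]
          _ ≤ _ := by
            apply Real.exp_le_exp.2
            nlinarith [h10]
      obtain ⟨A2, hA2⟩ := eventually_atTop.1 hlog
      refine ⟨max A A2, fun a ha f hf => ?_⟩
      obtain ⟨ha0, h6⟩ := hA a ((le_max_left _ _).trans ha)
      obtain ⟨h7, h8⟩ := h6 f hf
      rw [hVg ha0 hf]
      refine ⟨by positivity, ?_⟩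
      calc q * W2 L a f ≤ q * (Real.exp (-((b + 4 * κ) / 2 * a ^ 2 * Real.log a)) * N f) :=
            mul_le_mul_of_nonneg_left h8 hq.le
        _ = q * Real.exp (-((b + 4 * κ) / 2 * a ^ 2 * Real.log a)) * N f := by ring
        _ ≤ _ := mul_le_mul_of_nonneg_right (hA2 a ((le_max_right _ _).trans ha)) (N_nonneg f)
    · obtain ⟨A, hA⟩ := hup (h4 B)
      refine ⟨A, fun a ha f hf x hx => ?_⟩
      obtain ⟨ha0, h6⟩ := hA a ha
      have h7 := h6 f hf (x / q) (levelV hq hV ha0 hx)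
      rw [hVg ha0 hf]
      calc B * (q * W2 L a f) = q * (B * W2 L a f) := by ring
        _ ≤ q * (x / q * N f) := mul_le_mul_of_nonneg_left h7 hq.le
        _ = x * N f := by field_simp
    · have h6 : L.Λ (ρ - (c - 1 / 2)) = 0 := by rw [hΛ, sub_add_cancel, hρ, mul_zero]
      obtain ⟨A, hA⟩ := hup (h5 _ h6 b hb)
      refine ⟨A, fun a ha f hf => ?_⟩
      obtain ⟨-, h7⟩ := hA a ha
      obtain ⟨t, h8, h9⟩ := h7 f hf
      refine ⟨t, ?_, ?_⟩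
      · rw [mc_line]
        exact h8
      · have e : (ρ - (c - 1 / 2)).im = ρ.im := by
          rw [hc, Complex.sub_im, Complex.sub_im, Complex.ofReal_im]
          norm_num
        rwa [e] at h9
  · obtain ⟨-, -, -, h1, -⟩ := key κ n hκ hn
    obtain ⟨h2, h3⟩ := h1 (fun h => hR (hrh.1 h)) m hm
    refine ⟨fun B => ?_, fun u v C huv => ?_⟩
    · obtain ⟨A, hA⟩ := hup (h2 (B / q))
      refine ⟨A, fun a ha f hf => ?_⟩
      obtain ⟨ha0, h6⟩ := hA a ha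
      have h7 := h6 f hf
      rw [hVg ha0 hf]
      calc q * W2 L a f < q * (-(B / q) * N f) := mul_lt_mul_of_pos_left h7 hq
        _ = -B * N f := by field_simp
    · obtain ⟨A, hA⟩ := hup (h3 u v C huv)
      refine ⟨A, fun a ha f hf => ?_⟩
      rw [ordC_eq]
      exact (hA a ha).2 f hf
  · obtain ⟨-, -, -, -, h1, -⟩ := key κ n hκ hn
    rw [← hrh, h1]
    simp only [ordC_eq]
    refine exists_congr fun u => exists_congr fun v => exists_congr fun C => and_congr_right fun _ => ?_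
    exact hex
  · obtain ⟨-, -, -, -, -, h1⟩ := key κ n hκ hn
    rw [← hrh, h1]
    constructor
    · rintro ⟨B, hB⟩
      refine ⟨q * B, fun A => ?_⟩
      obtain ⟨a, ha, f, hf, h2⟩ := hB (max A 1)
      have ha0 : 0 < a := lt_of_lt_of_le one_pos ((le_max_right _ _).trans ha)
      refine ⟨a, (le_max_left _ _).trans ha, f, (hG ha0 _ _).2 hf, ?_⟩
      rw [hV a ha0 _ f hf.1]
      calc -(q * B) * N f = q * (-B * N f) := by ring
        _ ≤ _ := mul_le_mul_of_nonneg_left h2 hq.le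
    · rintro ⟨B, hB⟩
      refine ⟨B / q, fun A => ?_⟩
      obtain ⟨a, ha, f, hf, h2⟩ := hB (max A 1)
      have ha0 : 0 < a := lt_of_lt_of_le one_pos ((le_max_right _ _).trans ha)
      refine ⟨a, (le_max_left _ _).trans ha, f, (hG ha0 _ _).1 hf, ?_⟩
      rw [hVg ha0 hf] at h2
      have h3 : q * (-(B / q) * N f) = -B * N f := by field_simp
      rw [← h3] at h2
      exact le_of_mul_le_mul_left h2 hq
  · have h1 := main_rate L m hm hm2 hj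
    have e : 2 * (betaC Λ r j - r) = 2 * beta L j - 1 := by
      rw [betaC_eq hc hk hΛ hj]
      ring
    rw [e]
    refine h1.congr' ?_
    filter_upwards [eventually_gt_atTop 0] with a ha
    rw [levelW hW ha]

end

end Pool.Agent.Q286.TR
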