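import Pool.Agent.Q286.TR.Zeta
import Pool.Agent.H31R2.DH.BackZeta
import Pool.Agent.W186.LH.Fac
import Pool.Agent.H353R2.Z1

/-! The Lindelof hypothesis in a half-plane and the zeros in triangles. -/

set_option autoImplicit false
set_option linter.unusedVariables false

namespace Pool.Agent.Q286.TR

open Complex Metric Filter Topology Set MeasureTheory
open Pool.Agent.Q286.ZR

/-- zeta on the line `Re s = 2` (as in the module `W186.LH.Ex`) -/
theorem zeta_two' (s : ℂ) (hs : s.re = 2) : ‖riemannZeta s‖ ≤ 2 := by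
  rw [zeta_eq_tsum_one_div_nat_add_one_cpow (by rw [hs]; norm_num)]
  have hterm : ∀ n : ℕ, ‖1 / ((n : ℂ) + 1) ^ s‖ ≤ 1 / ((n : ℝ) + 1) ^ 2 := by
    intro n
    have h1 : ((n : ℂ) + 1) = (((n : ℝ) + 1 : ℝ) : ℂ) := by push_cast; ring
    rw [norm_div, norm_one, h1, Complex.norm_cpow_eq_rpow_re_of_pos (by positivity), hs]
    norm_num
  have hsum := hasSum_zeta_two
  have hs1 : HasSum (fun n : ℕ => 1 / ((n : ℝ) + 1) ^ 2) (Real.pi ^ 2 / 6) := by
    have := (hasSum_nat_add_iff' (f := fun n : ℕ => 1 / (n : ℝ) ^ 2) 1).2 hsum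
    simpa using this
  refine (tsum_of_norm_bounded hs1 hterm).trans ?_
  have := Real.pi_lt_d2
  have := Real.pi_pos
  nlinarith

theorem cont_line' (σ : ℝ) {a b : ℝ} (h : σ ≠ 1 ∨ 0 < a) :
    ContinuousOn (fun t : ℝ => riemannZeta (σ + t * I)) (Icc a b) := by
  intro t ht
  have hne : (σ : ℂ) + t * I ≠ 1 := by
    intro h1
    have e1 := congrArg Complex.re h1
    have e2 := congrArg Complex.im h1
    simp at e1 e2
    rcases h with h | h
    · exact h e1
    · have := ht.1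
      linarith
  have h1 : ContinuousAt riemannZeta ((σ : ℂ) + t * I) := (differentiableAt_riemannZeta hne).continuousAt
  have h2 : ContinuousAt (fun t : ℝ => (σ : ℂ) + t * I) t := by fun_prop
  exact (ContinuousAt.comp (f := fun t : ℝ => (σ : ℂ) + t * I) h1 h2).continuousWithinAt

theorem conj_line' (σ t : ℝ) : ‖riemannZeta (σ + ((-t : ℝ) : ℂ) * I)‖ = ‖riemannZeta (σ + t * I)‖ := by
  have e : (σ : ℂ) + ((-t : ℝ) : ℂ) * I = (starRingEnd ℂ) (σ + t * I) := by
    apply Complex.ext <;> simp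
  rw [e, riemannZeta_conj, Complex.norm_conj]

/-- **the theorem of the three circles** -/
theorem three_circles {F : ℂ → ℂ} {c : ℂ} {r₁ r₃ M₁ M₃ : ℝ} (h1 : 0 < r₁) (h13 : r₁ < r₃)
    (hF : ∀ z ∈ closedBall c r₃, DifferentiableAt ℂ F z)
    (hM₁ : ∀ z ∈ sphere c r₁, ‖F z‖ ≤ M₁) (hM₃ : ∀ z ∈ sphere c r₃, ‖F z‖ ≤ M₃)
    {z : ℂ} (hz1 : r₁ ≤ ‖z - c‖) (hz3 : ‖z - c‖ ≤ r₃) :
    ‖F z‖ ≤ M₁ ^ (1 - (Real.log ‖z - c‖ - Real.log r₁) / (Real.log r₃ - Real.log r₁)) *
      M₃ ^ ((Real.log ‖z - c‖ - Real.log r₁) / (Real.log r₃ - Real.log r₁)) := by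
  have h3 : 0 < r₃ := h1.trans h13
  have hul : Real.log r₁ < Real.log r₃ := Real.log_lt_log h1 h13
  have hzc : 0 < ‖z - c‖ := h1.trans_le hz1
  have hzne : z - c ≠ 0 := norm_pos_iff.1 hzc
  have hnorm : ∀ w : ℂ, ‖c + exp w - c‖ = Real.exp w.re := fun w => by
    rw [add_sub_cancel_left, Complex.norm_exp]
  have hin : ∀ w : ℂ, w.re ≤ Real.log r₃ → c + exp w ∈ closedBall c r₃ := fun w hw => by
    rw [mem_closedBall, dist_eq_norm, hnorm]
    calc Real.exp w.re ≤ Real.exp (Real.log r₃) := Real.exp_le_exp.2 hw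
      _ = r₃ := Real.exp_log h3
  obtain ⟨f, hf⟩ : ∃ f : ℂ → ℂ, f = fun w => F (c + exp w) := ⟨_, rfl⟩
  have hfd : ∀ w : ℂ, w.re ≤ Real.log r₃ → DifferentiableAt ℂ f w := fun w hw => by
    rw [hf]
    exact (hF _ (hin w hw)).comp w (by fun_prop)
  have hcl : closure (HadamardThreeLines.verticalStrip (Real.log r₁) (Real.log r₃)) ⊆
      HadamardThreeLines.verticalClosedStrip (Real.log r₁) (Real.log r₃) := by
    apply closure_minimal
    · intro w hw
      exact ⟨hw.1.le, hw.2.le⟩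
    · exact isClosed_Icc.preimage Complex.continuous_re
  have hd : DiffContOnCl ℂ f (HadamardThreeLines.verticalStrip (Real.log r₁) (Real.log r₃)) := by
    apply DifferentiableOn.diffContOnCl
    intro w hw
    exact (hfd w (hcl hw).2).differentiableWithinAt
  have hB : BddAbove ((norm ∘ f) '' HadamardThreeLines.verticalClosedStrip (Real.log r₁)
      (Real.log r₃)) := by
    have hc : ContinuousOn F (closedBall c r₃) := fun y hy =>
      (hF y hy).continuousAt.continuousWithinAt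
    obtain ⟨B, hB⟩ := (isCompact_closedBall c r₃).exists_bound_of_continuousOn hc
    refine ⟨B, ?_⟩
    rintro _ ⟨w, hw, rfl⟩
    rw [Function.comp_apply, hf]
    exact hB _ (hin w hw.2)
  have key := HadamardThreeLines.norm_le_interp_of_mem_verticalClosedStrip' (f := f)
    (z := Complex.log (z - c)) (a := M₁) (b := M₃) hul (by
      constructor
      · rw [Complex.log_re]
        exact Real.log_le_log h1 hz1
      · rw [Complex.log_re]
        exact Real.log_le_log hzc hz3) hd hB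
    (fun w hw => by
      rw [hf]
      refine hM₁ _ ?_
      rw [mem_sphere, dist_eq_norm, hnorm, show w.re = Real.log r₁ from hw, Real.exp_log h1])
    (fun w hw => by
      rw [hf]
      refine hM₃ _ ?_
      rw [mem_sphere, dist_eq_norm, hnorm, show w.re = Real.log r₃ from hw, Real.exp_log h3])
  rw [hf] at key
  simp only [Complex.exp_log hzne, add_sub_cancel, Complex.log_re] at key
  exact key

/-- the bound moves to the right (a variant of `plr` of the module `W186.LH.Ex` for the larger range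
`σ ≤ 2`) -/
theorem plr2 (μ : ℝ) (hμ : 0 ≤ μ) (C : ℝ) (hC : ∀ t : ℝ, 1 ≤ |t| → ‖riemannZeta (1 / 2 + t * I)‖ ≤ C * |t| ^ μ) :
    ∃ C' : ℝ, ∀ σ : ℝ, 1 / 2 ≤ σ → σ ≤ 2 → ∀ t : ℝ, 1 ≤ |t| → ‖riemannZeta (σ + t * I)‖ ≤ C' * |t| ^ μ := by
  obtain ⟨B, hB⟩ : ∃ B : ℝ, B = max (max C 2) 48 := ⟨_, rfl⟩
  have hB1 : C ≤ B := by rw [hB]; exact (le_max_left _ _).trans (le_max_left _ _)
  have hB2 : 2 ≤ B := by rw [hB]; exact (le_max_right _ _).trans (le_max_left _ _)
  have hB3 : 48 ≤ B := by rw [hB]; exact le_max_right _ _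
  obtain ⟨f, hf⟩ : ∃ f : ℂ → ℂ, f = fun s => H353.FF s * (s + 2) ^ ((-(1 + μ) : ℝ) : ℂ) := ⟨_, rfl⟩
  have hslit : ∀ s : ℂ, 1 / 2 ≤ s.re → s + 2 ∈ slitPlane := by
    intro s hs
    left
    simp
    linarith
  have hn2 : ∀ s : ℂ, 1 / 2 ≤ s.re → 1 ≤ ‖s + 2‖ := by
    intro s hs
    have := Complex.re_le_norm (s + 2)
    simp at this
    linarith
  have hfn : ∀ s : ℂ, ‖f s‖ = ‖H353.FF s‖ * ‖s + 2‖ ^ (-(1 + μ)) := by
    intro s
    rw [hf, norm_mul, Complex.norm_cpow_real]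
  have hpl : ∀ s : ℂ, 1 / 2 ≤ s.re → ‖s + 2‖ ^ (-(1 + μ)) ≤ 1 := fun s hs =>
    Real.rpow_le_one_of_one_le_of_nonpos (hn2 s hs) (by linarith)
  have hFFb : ∀ s : ℂ, 1 / 2 ≤ s.re → ‖H353.FF s‖ ≤ 3 * (1 + ‖s‖) ^ 2 := by
    intro s hs
    have := H353.FF_bound (1 / 2) (by norm_num) s hs
    norm_num at this ⊢
    exact this
  have hfd : ∀ s : ℂ, 1 / 2 ≤ s.re → DifferentiableAt ℂ f s := by
    intro s hs
    rw [hf]
    refine (ZU.J_g2b.FF_diff s).mul ?_
    exact (differentiableAt_id.add_const 2).cpow_const (hslit s hs)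
  have key : ∀ s : ℂ, 1 / 2 ≤ s.re → s.re ≤ 2 → ‖f s‖ ≤ B := by
    intro s hs1 hs2
    refine PhragmenLindelof.vertical_strip (a := 1 / 2) (b := 2) (C := B) ?_ ?_ ?_ ?_ hs1 hs2
    · apply DifferentiableOn.diffContOnCl
      intro z hz
      have h1 : closure (re ⁻¹' Ioo (1 / 2 : ℝ) 2) ⊆ re ⁻¹' Icc (1 / 2 : ℝ) 2 := by
        apply closure_minimal
        · intro z hz; exact ⟨hz.1.le, hz.2.le⟩
        · exact isClosed_Icc.preimage Complex.continuous_re
      exact (hfd z (h1 hz).1).differentiableWithinAt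
    · refine ⟨1, ?_, 2, ?_⟩
      · rw [lt_div_iff₀ (by norm_num)]
        linarith [Real.pi_gt_three]
      · apply Asymptotics.IsBigO.of_bound 27
        apply Filter.mem_inf_of_right
        intro z hz
        have hz1 : 1 / 2 ≤ z.re := hz.1.le
        have hz2 : z.re ≤ 2 := hz.2.le
        have h1 : ‖f z‖ ≤ 3 * (1 + ‖z‖) ^ 2 := by
          rw [hfn]
          calc ‖H353.FF z‖ * ‖z + 2‖ ^ (-(1 + μ)) ≤ ‖H353.FF z‖ * 1 :=
                mul_le_mul_of_nonneg_left (hpl z hz1) (norm_nonneg _)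
            _ ≤ _ := by rw [mul_one]; exact hFFb z hz1
        have h2 : ‖z‖ ≤ 2 + |z.im| := by
          refine (Complex.norm_le_abs_re_add_abs_im z).trans ?_
          rw [abs_of_nonneg (by linarith : (0 : ℝ) ≤ z.re)]
          linarith
        have h3 : 1 + |z.im| ≤ Real.exp |z.im| := by
          have := Real.add_one_le_exp |z.im|
          linarith
        have h0 := abs_nonneg z.im
        have h4 : (1 + ‖z‖) ^ 2 ≤ 9 * (Real.exp |z.im|) ^ 2 := by
          have h5 : 1 + ‖z‖ ≤ 3 * Real.exp |z.im| := by linarith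
          calc (1 + ‖z‖) ^ 2 ≤ (3 * Real.exp |z.im|) ^ 2 := by
                apply pow_le_pow_left₀ (by positivity) h5
            _ = _ := by ring
        have h6 : (Real.exp |z.im|) ^ 2 ≤ Real.exp (2 * Real.exp (1 * |z.im|)) := by
          rw [← Real.exp_nat_mul, one_mul]
          apply Real.exp_le_exp.2
          push_cast
          linarith
        rw [Set.mem_ofPred_eq, Real.norm_of_nonneg (Real.exp_pos _).le]
        linarith
    · intro z hz
      have hz1 : 1 / 2 ≤ z.re := hz.ge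
      have hze : z = 1 / 2 + (z.im : ℂ) * I := by
        apply Complex.ext <;> simp [hz]
      rw [hfn]
      rcases le_or_gt 1 |z.im| with h1 | h1
      · have hne : z ≠ 1 := by
          intro h; rw [h] at hz; norm_num at hz
        have h2 : ‖z - 1‖ ≤ ‖z + 2‖ := by
          rw [← sq_le_sq₀ (norm_nonneg _) (norm_nonneg _), Complex.sq_norm, Complex.sq_norm,
            Complex.normSq_apply, Complex.normSq_apply]
          simp only [sub_re, add_re, sub_im, add_im, one_re, one_im, re_ofNat, im_ofNat, sub_zero, add_zero]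
          rw [hz]
          nlinarith
        have h3 : |z.im| ≤ ‖z + 2‖ := by
          have := abs_im_le_norm (z + 2)
          simpa using this
        have h4 := hC z.im h1
        rw [← hze] at h4
        have h5 : ‖H353.FF z‖ ≤ ‖z + 2‖ * (B * ‖z + 2‖ ^ μ) := by
          rw [show H353.FF z = (z - 1) * riemannZeta z from ZU.J_g2b.FF_ne hne, norm_mul]
          apply mul_le_mul h2 _ (norm_nonneg _) (norm_nonneg _)
          refine h4.trans ?_
          have : |z.im| ^ μ ≤ ‖z + 2‖ ^ μ := Real.rpow_le_rpow (abs_nonneg _) h3 hμ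
          have h7 : 0 ≤ |z.im| ^ μ := by positivity
          calc C * |z.im| ^ μ ≤ B * |z.im| ^ μ := mul_le_mul_of_nonneg_right hB1 h7
            _ ≤ _ := mul_le_mul_of_nonneg_left this (by linarith)
        have hp : 0 < ‖z + 2‖ := by linarith [hn2 z hz1]
        calc ‖H353.FF z‖ * ‖z + 2‖ ^ (-(1 + μ)) ≤ ‖z + 2‖ * (B * ‖z + 2‖ ^ μ) * ‖z + 2‖ ^ (-(1 + μ)) :=
              mul_le_mul_of_nonneg_right h5 (by positivity)
          _ = B * (‖z + 2‖ ^ (1 : ℝ) * ‖z + 2‖ ^ μ * ‖z + 2‖ ^ (-(1 + μ))) := by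
              rw [Real.rpow_one]; ring
          _ = B := by
              rw [← Real.rpow_add hp, ← Real.rpow_add hp, add_neg_cancel, Real.rpow_zero, mul_one]
      · have h2 := hFFb z hz1
        have h3 : ‖z‖ ≤ 3 / 2 := by
          refine (Complex.norm_le_abs_re_add_abs_im z).trans ?_
          rw [hz, abs_of_nonneg (by norm_num : (0 : ℝ) ≤ 1 / 2)]
          linarith
        have h4 := norm_nonneg z
        calc ‖H353.FF z‖ * ‖z + 2‖ ^ (-(1 + μ)) ≤ ‖H353.FF z‖ * 1 :=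
              mul_le_mul_of_nonneg_left (hpl z hz1) (norm_nonneg _)
          _ ≤ B := by nlinarith
    · intro z hz
      have hz1 : 1 / 2 ≤ z.re := by rw [hz]; norm_num
      have hne : z ≠ 1 := by
        intro h; rw [h] at hz; norm_num at hz
      rw [hfn]
      have h2 : ‖z - 1‖ ≤ ‖z + 2‖ := by
        rw [← sq_le_sq₀ (norm_nonneg _) (norm_nonneg _), Complex.sq_norm, Complex.sq_norm,
          Complex.normSq_apply, Complex.normSq_apply]
        simp only [sub_re, add_re, sub_im, add_im, one_re, one_im, re_ofNat, im_ofNat, sub_zero, add_zero]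
        rw [hz]
        nlinarith
      have hp1 := hn2 z hz1
      have hp : 0 < ‖z + 2‖ := by linarith
      have h5 : ‖H353.FF z‖ ≤ ‖z + 2‖ * B := by
        rw [show H353.FF z = (z - 1) * riemannZeta z from ZU.J_g2b.FF_ne hne, norm_mul]
        exact mul_le_mul h2 ((zeta_two' z hz).trans hB2) (norm_nonneg _) (norm_nonneg _)
      have h6 : ‖z + 2‖ ^ (-(1 + μ)) ≤ ‖z + 2‖ ^ (-1 : ℝ) :=
        Real.rpow_le_rpow_of_exponent_le hp1 (by linarith)
      calc ‖H353.FF z‖ * ‖z + 2‖ ^ (-(1 + μ)) ≤ ‖z + 2‖ * B * ‖z + 2‖ ^ (-1 : ℝ) :=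
            mul_le_mul h5 h6 (by positivity) (by positivity)
        _ = B := by
            rw [Real.rpow_neg_one]
            field_simp
  refine ⟨B * 5 ^ (1 + μ), fun σ hσ1 hσ2 t ht => ?_⟩
  obtain ⟨s, hs⟩ : ∃ s : ℂ, s = σ + t * I := ⟨_, rfl⟩
  have hre : s.re = σ := by rw [hs]; simp
  have him : s.im = t := by rw [hs]; simp
  have hk := key s (by rw [hre]; exact hσ1) (by rw [hre]; linarith)
  have hne : s ≠ 1 := by
    intro h
    rw [h] at him
    simp at him
    rw [← him, abs_zero] at ht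
    linarith
  rw [hfn, show H353.FF s = (s - 1) * riemannZeta s from ZU.J_g2b.FF_ne hne, norm_mul] at hk
  rw [← hs]
  have hp1 := hn2 s (by rw [hre]; exact hσ1)
  have hp : 0 < ‖s + 2‖ := by linarith
  have htp : 0 < |t| := by linarith
  have h1 : |t| ≤ ‖s - 1‖ := by
    have := abs_im_le_norm (s - 1)
    simpa [him] using this
  have h2 : ‖s + 2‖ ≤ 5 * |t| := by
    refine (Complex.norm_le_abs_re_add_abs_im _).trans ?_
    have e1 : (s + 2).re = σ + 2 := by rw [add_re, hre]; simp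
    have e2 : (s + 2).im = t := by rw [add_im, him]; simp
    rw [e1, e2, abs_of_nonneg (by linarith)]
    linarith
  have h3 : ‖s - 1‖ * ‖riemannZeta s‖ ≤ B * ‖s + 2‖ ^ (1 + μ) := by
    rw [Real.rpow_neg hp.le, ← div_eq_mul_inv, div_le_iff₀ (by positivity)] at hk
    exact hk
  have h4 : ‖s + 2‖ ^ (1 + μ) ≤ (5 * |t|) ^ (1 + μ) := Real.rpow_le_rpow hp.le h2 (by linarith)
  rw [Real.mul_rpow (by norm_num) htp.le] at h4
  have h5 : |t| * ‖riemannZeta s‖ ≤ B * (5 ^ (1 + μ) * |t| ^ (1 + μ)) := by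
    calc |t| * ‖riemannZeta s‖ ≤ ‖s - 1‖ * ‖riemannZeta s‖ := mul_le_mul_of_nonneg_right h1 (norm_nonneg _)
      _ ≤ _ := h3.trans (mul_le_mul_of_nonneg_left h4 (by linarith))
  have h6 : |t| ^ (1 + μ) = |t| * |t| ^ μ := by rw [Real.rpow_add htp, Real.rpow_one]
  rw [h6] at h5
  have h7 : |t| * ‖riemannZeta s‖ ≤ |t| * (B * 5 ^ (1 + μ) * |t| ^ μ) := by
    refine h5.trans (le_of_eq ?_)
    ring
  exact le_of_mul_le_mul_left h7 htp


/-- zeta is small in the half-plane `Re s > β` -/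
def Small (β : ℝ) : Prop := ∀ σ₀ : ℝ, β < σ₀ → ∀ ε : ℝ, 0 < ε → ∃ C : ℝ, ∀ s : ℂ, σ₀ ≤ s.re →
  1 ≤ |s.im| → ‖riemannZeta s‖ ≤ C * |s.im| ^ ε

/-- the zeros in the sectors with apex `σ + i t` -/
def FewAt (τ σ : ℝ) (t : ℕ → ℝ) : Prop := ∀ ε : ℝ, 0 < ε → ∃ K : ℕ, ∀ k : ℕ, K ≤ k →
  zs τ (σ + t k * I) ≤ ε * Real.log k

theorem ord_FF {ρ : ℂ} (h : ρ ≠ 1) : analyticOrderNatAt ZU.J_g2b.FF ρ =
    analyticOrderNatAt riemannZeta ρ := by
  have h1 : ZU.J_g2b.FF =ᶠ[𝓝 ρ] fun s => (s - 1) * riemannZeta s := by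
    filter_upwards [isOpen_ne.mem_nhds h] with s hs
    exact ZU.J_g2b.FF_ne hs
  have h2 : AnalyticAt ℂ (fun s : ℂ => s - 1) ρ := by fun_prop
  have h3 : analyticOrderAt ZU.J_g2b.FF ρ = analyticOrderAt riemannZeta ρ := by
    rw [analyticOrderAt_congr h1]
    have h4 : analyticOrderAt (fun s => (s - 1) * riemannZeta s) ρ =
        analyticOrderAt (fun s : ℂ => s - 1) ρ + analyticOrderAt riemannZeta ρ :=
      analyticOrderAt_mul h2 (zeta_an h)
    rw [h4, h2.analyticOrderAt_eq_zero.2 (sub_ne_zero.2 h), zero_add]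
  unfold analyticOrderNatAt
  rw [h3]

theorem sum_le_zs {τ : ℝ} (hτ : 0 < τ) (s : ℂ) (S : Finset ℂ) :
    ∑ z ∈ S, wt τ (z - s) * (analyticOrderNatAt riemannZeta z : ℝ) ≤ zs τ s := by
  classical
  unfold zs
  rw [finsum_eq_sum_of_support_subset _ (s := (zs_supp hτ s).toFinset ∪ S) (by
    intro z hz
    rw [Finset.coe_union]
    left
    simpa using hz)]
  refine Finset.sum_le_sum_of_subset_of_nonneg Finset.subset_union_right fun z _ _ => ?_
  exact mul_nonneg (wt_nonneg hτ _) (Nat.cast_nonneg _)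

theorem zs_le {τ : ℝ} (hτ : 0 < τ) (s : ℂ) :
    ∃ S : Finset ℂ, (∀ z ∈ S, riemannZeta z = 0 ∧ |(z - s).im| ≤ τ * (z - s).re) ∧
      zs τ s ≤ ∑ z ∈ S, (analyticOrderNatAt riemannZeta z : ℝ) := by
  refine ⟨(sector_finite (s := s) hτ).toFinset, fun z hz => by simpa using hz, ?_⟩
  unfold zs
  rw [finsum_eq_sum_of_support_subset _ (s := (sector_finite (s := s) hτ).toFinset) (by
    intro ρ hρ
    rw [Function.mem_support] at hρ
    have h1 : wt τ (ρ - s) ≠ 0 := fun h => hρ (by rw [h, zero_mul])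
    have h2 : analyticOrderNatAt riemannZeta ρ ≠ 0 := fun h => hρ (by rw [h]; simp)
    simpa using (⟨ord_ne_zero.1 h2, wt_mem h1⟩ :
      riemannZeta ρ = 0 ∧ |(ρ - s).im| ≤ τ * (ρ - s).re))]
  refine Finset.sum_le_sum fun z _ => ?_
  have h1 : wt τ (z - s) ≤ 1 := by
    unfold wt
    split_ifs
    · rw [div_le_one Real.pi_pos]
      have := Real.arctan_lt_pi_div_two τ
      have := Real.pi_pos
      linarith
    · exact le_rfl
    · norm_num
    · norm_num
  calc _ ≤ 1 * (analyticOrderNatAt riemannZeta z : ℝ) :=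
        mul_le_mul_of_nonneg_right h1 (Nat.cast_nonneg _)
    _ = _ := one_mul _

/-- **few zeros if zeta is small** -/
theorem few_of_small {β : ℝ} (hβ : 0 ≤ β) (h : Small β) {σ τ : ℝ} (hσ : β < σ) (hτ : 0 < τ)
    {ε : ℝ} (hε : 0 < ε) : ∃ T₀ : ℝ, ∀ t : ℝ, T₀ ≤ t → zs τ (σ + t * I) ≤ ε * Real.log t := by
  -- the discs
  obtain ⟨m, hm⟩ : ∃ m : ℝ, m = (σ + β) / 2 := ⟨_, rfl⟩
  obtain ⟨b, hb⟩ : ∃ b : ℝ, b = (m + β) / 2 := ⟨_, rfl⟩
  have hbβ : β < b := by linarith
  have hbm : b < m := by linarith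
  have hmσ : m < σ := by linarith
  obtain ⟨A, hA⟩ : ∃ A : ℝ, A = 2 + τ ^ 2 / (σ - m) + σ := ⟨_, rfl⟩
  have hq : 0 ≤ τ ^ 2 / (σ - m) := div_nonneg (sq_nonneg _) (by linarith)
  have hA2 : 2 ≤ A := by linarith
  have hAm : 0 < A - m := by linarith
  have hAb : 0 < A - b := by linarith
  have hkey : (A - σ) ^ 2 + τ ^ 2 ≤ (A - m) ^ 2 := by
    have e1 : τ ^ 2 = τ ^ 2 / (σ - m) * (σ - m) := by
      rw [div_mul_cancel₀]
      linarith
    have e2 : τ ^ 2 / (σ - m) ≤ 2 * A - σ - m := by linarith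
    have e3 : τ ^ 2 / (σ - m) * (σ - m) ≤ (2 * A - σ - m) * (σ - m) :=
      mul_le_mul_of_nonneg_right e2 (by linarith)
    nlinarith
  obtain ⟨A₀, hA₀1, hA₀⟩ := DH31.zeta_bounds (a := 2) (by norm_num)
  have hA₀0 : 0 < A₀ := by linarith
  have hratio : 1 < (A - b) / (A - m) := by
    rw [one_lt_div hAm]
    linarith
  have hlog : 0 < Real.log ((A - b) / (A - m)) := Real.log_pos hratio
  obtain ⟨ε', hε'⟩ : ∃ ε' : ℝ, ε' = ε * Real.log ((A - b) / (A - m)) / 4 := ⟨_, rfl⟩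
  have hε'0 : 0 < ε' := by rw [hε']; positivity
  obtain ⟨C, hC⟩ := h b hbβ ε' hε'0
  obtain ⟨D, hD⟩ : ∃ D : ℝ, D = 2 * A₀ * (|C| + 1) := ⟨_, rfl⟩
  have hC0 := abs_nonneg C
  have hD0 : 0 < D := by rw [hD]; positivity
  refine ⟨max (max (A - b + A + 2) 2) (Real.exp (|Real.log D| / ε')), fun t ht => ?_⟩
  have ht1 : A - b + A + 2 ≤ t := ((le_max_left _ _).trans (le_max_left _ _)).trans ht
  have ht2 : 2 ≤ t := ((le_max_right _ _).trans (le_max_left _ _)).trans ht
  have ht3 : Real.exp (|Real.log D| / ε') ≤ t := (le_max_right _ _).trans ht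
  have ht0 : 0 < t := by linarith
  obtain ⟨S, hS, hzs⟩ := zs_le hτ ((σ : ℂ) + t * I)
  have hsre : ((σ : ℂ) + t * I).re = σ := by simp
  have hsim : ((σ : ℂ) + t * I).im = t := by simp
  obtain ⟨c, hc⟩ : ∃ c : ℂ, c = (A : ℂ) + t * I := ⟨_, rfl⟩
  have hcre : c.re = A := by rw [hc]; simp
  have hcim : c.im = t := by rw [hc]; simp
  have hne1 : ∀ z : ℂ, 0 < z.im → z ≠ 1 := by
    rintro z hz rfl
    simp at hz
  have hSb : ∀ z ∈ S, z ∈ closedBall c (A - m) := by
    intro z hz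
    obtain ⟨hz0, hz1⟩ := hS z hz
    rw [Complex.sub_re, Complex.sub_im, hsre, hsim] at hz1
    have h1 : z.re < 1 := by
      by_contra h
      exact riemannZeta_ne_zero_of_one_le_re (not_lt.1 h) hz0
    have h2 : 0 ≤ z.re - σ := nonneg_of_mul_nonneg_right ((abs_nonneg _).trans hz1) hτ
    rw [mem_closedBall, dist_eq_norm, ← sq_le_sq₀ (norm_nonneg _) hAm.le, Complex.sq_norm,
      Complex.normSq_apply, Complex.sub_re, Complex.sub_im, hcre, hcim]
    have h4 : |z.im - t| ≤ τ := by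
      refine hz1.trans ?_
      nlinarith
    have h5 : (z.im - t) ^ 2 ≤ τ ^ 2 := by
      rw [← sq_abs (z.im - t)]
      exact pow_le_pow_left₀ (abs_nonneg _) h4 2
    have h7 : (z.re - A) ^ 2 ≤ (A - σ) ^ 2 := by
      have : z.re - A = -(A - z.re) := by ring
      rw [this, neg_sq]
      exact pow_le_pow_left₀ (by linarith) (by linarith) 2
    nlinarith
  -- Jensen
  have hM : ∀ u ∈ sphere c (A - b), ‖ZU.J_g2b.FF u‖ ≤ 2 * t * ((|C| + 1) * (2 * t) ^ ε') := by
    intro u hu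
    rw [mem_sphere, dist_eq_norm] at hu
    have g1 := Complex.abs_re_le_norm (u - c)
    have g2 := Complex.abs_im_le_norm (u - c)
    rw [hu, Complex.sub_re, hcre] at g1
    rw [hu, Complex.sub_im, hcim] at g2
    obtain ⟨g3, g4⟩ := abs_le.1 g1
    obtain ⟨g5, g6⟩ := abs_le.1 g2
    have g7 : b ≤ u.re := by linarith
    have g8 : 1 ≤ u.im := by linarith
    have g9 : u.im ≤ 2 * t := by linarith
    have g10 : |u.im| = u.im := abs_of_nonneg (by linarith)
    rw [ZU.J_g2b.FF_ne (hne1 u (by linarith)), norm_mul]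
    have k1 := hC u g7 (by rw [g10]; exact g8)
    rw [g10] at k1
    have k2 : u.im ^ ε' ≤ (2 * t) ^ ε' := Real.rpow_le_rpow (by linarith) g9 hε'0.le
    have k3 : ‖u - 1‖ ≤ 2 * t := by
      have e1 : u - 1 = (u - c) + (c - 1) := by ring
      have e2 : ‖c - 1‖ ≤ (A - 1) + t := by
        refine (Complex.norm_le_abs_re_add_abs_im _).trans ?_
        rw [Complex.sub_re, Complex.sub_im, hcre, hcim, Complex.one_re, Complex.one_im, sub_zero,
          abs_of_nonneg (by linarith), abs_of_nonneg ht0.le]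
      rw [e1]
      refine (norm_add_le _ _).trans ?_
      rw [hu]
      linarith
    have k4 : C * u.im ^ ε' ≤ (|C| + 1) * (2 * t) ^ ε' := by
      have := le_abs_self C
      have k5 : 0 ≤ u.im ^ ε' := Real.rpow_nonneg (by linarith) _
      calc C * u.im ^ ε' ≤ (|C| + 1) * u.im ^ ε' := mul_le_mul_of_nonneg_right (by linarith) k5
        _ ≤ _ := mul_le_mul_of_nonneg_left k2 (by linarith)
    exact mul_le_mul k3 (k1.trans k4) (norm_nonneg _) (by linarith)
  have hcl : t / A₀ ≤ ‖ZU.J_g2b.FF c‖ := by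
    rw [ZU.J_g2b.FF_ne (hne1 c (by rw [hcim]; exact ht0)), norm_mul]
    have e1 : t ≤ ‖c - 1‖ := by
      have := Complex.abs_im_le_norm (c - 1)
      rw [Complex.sub_im, hcim, Complex.one_im, sub_zero, abs_of_nonneg ht0.le] at this
      exact this
    have e2 := (hA₀ c (by rw [hcre]; exact hA2)).2
    calc t / A₀ = t * (1 / A₀) := by ring
      _ ≤ _ := mul_le_mul e1 e2 (by positivity) (norm_nonneg _)
  have hcne : ZU.J_g2b.FF c ≠ 0 := by
    intro h0
    rw [h0, norm_zero] at hcl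
    have : 0 < t / A₀ := by positivity
    linarith
  have hj := Pool.Agent.W186.LH.jc ZU.J_g2b.FF_diff hAm (by linarith) hM hcne S hSb
  have hordS : ∑ z ∈ S, analyticOrderNatAt ZU.J_g2b.FF z = ∑ z ∈ S, analyticOrderNatAt riemannZeta z :=
    Finset.sum_congr rfl fun z hz => ord_FF (by
      rintro rfl
      exact riemannZeta_one_ne_zero (hS _ hz).1)
  rw [hordS] at hj
  obtain ⟨N, hN⟩ : ∃ N : ℕ, N = ∑ z ∈ S, analyticOrderNatAt riemannZeta z := ⟨_, rfl⟩
  rw [← hN] at hj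
  have hzN : zs τ ((σ : ℂ) + t * I) ≤ N := by
    rw [hN]
    push_cast
    exact hzs
  refine hzN.trans ?_
  have h2t : (1 : ℝ) ≤ 2 * t := by linarith
  have hR : ((A - b) / (A - m)) ^ N ≤ D * (2 * t) ^ ε' := by
    have e1 : ((A - b) / (A - m)) ^ N * (t / A₀) ≤ 2 * t * ((|C| + 1) * (2 * t) ^ ε') :=
      (mul_le_mul_of_nonneg_left hcl (by positivity)).trans hj
    have e2 : 0 < t / A₀ := by positivity
    rw [← le_div_iff₀ e2] at e1
    refine e1.trans (le_of_eq ?_)
    rw [hD]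
    field_simp
  have hL := Real.log_le_log (by positivity) hR
  rw [Real.log_pow, Real.log_mul hD0.ne' (by positivity), Real.log_rpow (by linarith)] at hL
  have hlt : 0 < Real.log t := Real.log_pos (by linarith)
  have e1 : |Real.log D| ≤ ε' * Real.log t := by
    have := (Real.le_log_iff_exp_le ht0).2 ht3
    rw [div_le_iff₀ hε'0] at this
    linarith
  have e2 : Real.log (2 * t) ≤ 2 * Real.log t := by
    rw [Real.log_mul (by norm_num) ht0.ne']
    have := Real.log_le_log (by norm_num) ht2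
    linarith
  have e3 : (N : ℝ) * Real.log ((A - b) / (A - m)) ≤ 3 * ε' * Real.log t := by
    have := le_abs_self (Real.log D)
    have := mul_le_mul_of_nonneg_left e2 hε'0.le
    linarith
  have e4 : (N : ℝ) * Real.log ((A - b) / (A - m)) ≤
      ε * Real.log t * Real.log ((A - b) / (A - m)) := by
    refine e3.trans ?_
    rw [hε']
    have : 0 ≤ ε * Real.log ((A - b) / (A - m)) * Real.log t := by positivity
    linarith
  exact le_of_mul_le_mul_right e4 hlog

end Pool.Agent.Q286.TR
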