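import Mathlib

set_option autoImplicit false

/-!
# Project TR: statements of the jobs (Euler products over number fields and their traces)
-/

namespace Pool.Agent.Q286.TR

open Complex Filter Topology NumberField IsDedekindDomain

/-- The pairs (place, exponent) whose prime power is `n`. -/
def Pr {ι : Type} (q : ι → ℕ) (n : ℕ) : Set (ι × ℕ) := {x | 1 ≤ x.2 ∧ q x.1 ^ x.2 = n}

/-- The coefficients of `-L'/L` for the Euler product `L(s) = ∏ (1 - β_ij q_i^(-s))⁻¹`: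
`Θ(n) = ∑_{q_i^k = n} log q_i ∑_j β_ij^k`. -/
noncomputable def Th {ι : Type} {D : ℕ} (q : ι → ℕ) (β : ι → Fin D → ℂ) (n : ℕ) : ℂ :=
  ∑ᶠ x ∈ Pr q n, ((Real.log (q x.1) : ℝ) : ℂ) * ∑ j, β x.1 j ^ x.2

/-- JOB TRC: `-L'/L = ∑ Θ(n) n^(-s)`, that is `lam log = Θ * lam`. Proof. For `Re s ≥ 2` we have
`‖β_ij q_i^(-s)‖ ≤ q_i^(-3/2) ≤ 2^(-3/2)`, so `L(s) = exp (∑_i ∑_j ∑_{k ≥ 1} β_ij^k q_i^(-ks) / k)` (absolutely and locally
uniformly convergent for `Re s > 2`), `L'(s) = -L(s) ∑_i ∑_j ∑_k log q_i β_ij^k q_i^(-ks) = -L(s) ∑_n Θ(n) n^(-s)` (absolutely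
convergent double series, grouped by `n = q_i^k`; for each `n` only finitely many pairs, as `∑ q_i^(-3/2)` converges). On the
other hand `L'(s) = -∑ lam(n) log n n^(-s)` (Mathlib `LSeries_hasDerivAt`) and the product of two absolutely convergent
Dirichlet series is the series of the convolution (`LSeries_convolution'`/`ArithmeticFunction.LSeries_mul'`), and the
coefficients of a Dirichlet series are unique (`LSeries_eq_iff_of_abscissaOfAbsConv_lt_top` or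
`LSeries.eq_of_LSeries_eventually_eq`). Alternative without analysis: for a finite set of indices everything is an identity
of Dirichlet convolutions (`f ↦ f log` is a derivation), and `lam n` only depends on the `i` with `q_i ≤ n`. -/
def S_TRC : Prop := ∀ (ι : Type) (D : ℕ) (q : ι → ℕ) (β : ι → Fin D → ℂ), (∀ i, 2 ≤ q i) →
  Summable (fun i => (q i : ℝ) ^ (-(3 / 2) : ℝ)) → (∀ i j, ‖β i j‖ ≤ Real.sqrt (q i)) →
  ∀ lam : ℕ → ℂ, lam 0 = 0 → Summable (fun n : ℕ => ‖lam n‖ * (n : ℝ) ^ (-2 : ℝ)) →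
  (∀ s : ℂ, 2 ≤ s.re → HasSum (fun n : ℕ => lam n * (n : ℂ) ^ (-s)) (∏' i, ∏ j, (1 - β i j * (q i : ℂ) ^ (-s))⁻¹)) →
  ∀ n : ℕ, n ≠ 0 → lam n * ((Real.log n : ℝ) : ℂ) = ∑ d ∈ n.divisors, Th q β d * lam (n / d)

/-- JOB NRM: `|Θ(n)| ≤ D [K : ℚ] √n Λ(n)` for the finite places `v` of a number field `K`. Proof. `absNorm v = p^f` with `p` the
prime below `v` and `f` the inertia degree, so `Θ(n) = 0` unless `n = p^a`, and then
`Θ(n) = ∑_{v | p, f_v | a} f_v log p ∑_j β_vj^(a/f_v)`, `‖β_vj^(a/f_v)‖ ≤ p^(a/2) = √n` and `∑_{v | p} f_v ≤ [K : ℚ]`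
(`Ideal.sum_ramification_inertia`). -/
def S_NRM : Prop := ∀ (K : Type) [Field K] [NumberField K] (D : ℕ) (β : HeightOneSpectrum (𝓞 K) → Fin D → ℂ),
  (∀ v j, ‖β v j‖ ≤ Real.sqrt (Ideal.absNorm v.asIdeal)) → ∀ n : ℕ,
  ‖Th (fun v : HeightOneSpectrum (𝓞 K) => Ideal.absNorm v.asIdeal) β n‖ ≤
    D * Module.finrank ℚ K * Real.sqrt n * ArithmeticFunction.vonMangoldt n

/-- JOB REG: regrouping. Proof. The set on the right is the disjoint union of the finite sets `Pr q n`, `1 ≤ n ≤ M` (they are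
finite: `{i | q i ≤ M}` is finite and `k ≤ M`, as `2^k ≤ q_i^k ≤ M`). -/
def S_REG : Prop := ∀ (ι : Type) (D : ℕ) (q : ι → ℕ) (β : ι → Fin D → ℂ), (∀ i, 2 ≤ q i) →
  (∀ M : ℕ, {i | q i ≤ M}.Finite) → ∀ (M : ℕ) (G : ℕ → ℂ),
  ∑ n ∈ Finset.Icc 1 M, Th q β n * G n =
    ∑ᶠ x ∈ {x : ι × ℕ | 1 ≤ x.2 ∧ q x.1 ^ x.2 ≤ M},
      ((Real.log (q x.1) : ℝ) : ℂ) * (∑ j, β x.1 j ^ x.2) * G (q x.1 ^ x.2)

end Pool.Agent.Q286.TR
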